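import Pool.Agent.Lib_helper64.NPC.Defs2

/-! # Block F1 -/

set_option autoImplicit false

namespace Pool.Agent.NPC

open Pool.Agent.CK

theorem mem_labs {b : ℕ} {l : List Bool} : l ∈ labs b ↔ l.length = b := by
  unfold labs
  rw [Set.Finite.mem_toFinset]
  rfl

theorem card_labs (b : ℕ) : (labs b).card = 2 ^ b := by
  induction b with
  | zero =>
    rw [show labs 0 = {[]} from ?_]
    · rfl
    · ext l
      rw [mem_labs, Finset.mem_singleton, List.length_eq_zero_iff]
  | succ b ih =>
    have h : labs (b + 1) = (labs b).image (fun l => false :: l) ∪ (labs b).image (fun l => true :: l) := by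
      ext l
      rw [mem_labs, Finset.mem_union, Finset.mem_image, Finset.mem_image]
      constructor
      · intro hl
        rcases l with _ | ⟨c, l⟩
        · simp at hl
        · rw [List.length_cons] at hl
          rcases c with _ | _
          · exact Or.inl ⟨l, mem_labs.mpr (by omega), rfl⟩
          · exact Or.inr ⟨l, mem_labs.mpr (by omega), rfl⟩
      · rintro (⟨l', h1, rfl⟩ | ⟨l', h1, rfl⟩) <;> rw [mem_labs] at h1 <;>
          rw [List.length_cons, h1]
    rw [h, Finset.card_union_of_disjoint, Finset.card_image_of_injective,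
      Finset.card_image_of_injective, ih, pow_succ]
    · ring
    · intro a b hab
      exact (List.cons_injective hab)
    · intro a b hab
      exact (List.cons_injective hab)
    · rw [Finset.disjoint_left]
      intro l h1 h2
      rw [Finset.mem_image] at h1 h2
      obtain ⟨a, -, rfl⟩ := h1
      obtain ⟨c, -, hc⟩ := h2
      simp at hc

theorem card_cl_labs (b : ℕ) (κ : List Bool) (hκ : κ.length = b / 4) :
    (cl b κ (labs b)).card = 2 ^ (b - b / 4) := by
  have h : cl b κ (labs b) = (labs (b - b / 4)).image (fun l => κ ++ l) := by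
    ext l
    unfold cl
    rw [Finset.mem_filter, mem_labs, Finset.mem_image]
    constructor
    · rintro ⟨h1, h2⟩
      refine ⟨l.drop (b / 4), ?_, ?_⟩
      · rw [mem_labs, List.length_drop, h1]
      · rw [← h2, List.take_append_drop]
    · rintro ⟨l', h1, rfl⟩
      rw [mem_labs] at h1
      refine ⟨?_, ?_⟩
      · rw [List.length_append, hκ, h1]
        omega
      · rw [← hκ, List.take_left']
        rfl
  rw [h, Finset.card_image_of_injective, card_labs]
  intro a c hac
  exact List.append_cancel_left hac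

theorem Sub.refl {L : ℕ} (A : Fam L) : Sub A A :=
  ⟨Finset.Subset.refl _, fun _ _ => Finset.Subset.refl _, id, fun _ => rfl,
    fun _ _ _ _ _ => rfl⟩

theorem Sub.trans {L : ℕ} {A B C : Fam L} (h : Sub C B) (h' : Sub B A) : Sub C A := by
  obtain ⟨h1, h2, g, h3, h4⟩ := h
  obtain ⟨h1', h2', g', h3', h4'⟩ := h'
  refine ⟨h1.trans h1', fun r hr => (h2 r hr).trans (h2' r (h1 hr)), fun ω => g' (g ω),
    fun ω => ?_, fun r hr l hl ω => ?_⟩
  · rw [h3, h3']
  · show g' (g ω) (r, l) = ω (r, l)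
    rw [h4' r (h1 hr) l (h2 r hr hl), h4 r hr l hl]

theorem Sub.famOK {G : Finset (ℕ × ℕ × ℕ)} {n : ℕ} {O : Lang} {L : ℕ} {A B : Fam L}
    (h : Sub B A) (hA : FamOK G n O A) : FamOK G n O B := by
  obtain ⟨-, -, g, h3, -⟩ := h
  refine ⟨fun ω => ?_, fun ω => ?_⟩
  · rw [h3]; exact hA.1 _
  · rw [h3]; exact hA.2 _

theorem F1_free {L : ℕ} {A B : Fam L} {g : St → St} (h1 : B.R ⊆ A.R)
    (h3 : ∀ ω, B.F ω = A.F (g ω)) {r : List Bool} (hr : r ∈ B.R) (ω : St) {l : List Bool}
    (hl : l ∈ A.H r) : g ω (r, l) = (decide (l ∈ B.H r) && ω (r, l)) := by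
  have hlen := A.hH r l hl
  have h5 := B.free r hr l hlen ω
  have h6 := A.free r (h1 hr) l hlen (g ω)
  rw [h3, h6] at h5
  simpa [hl] using h5

theorem Sub.hGood {L : ℕ} {A B : Fam L} (h : Sub B A) {i : ℕ} {r q : List Bool}
    {S : Finset (List Bool)} (hr : r ∈ B.R) (hS : S ⊆ B.H r) (hg : HGood A i r q S) :
    HGood B i r q S := by
  obtain ⟨h1, h2, g, h3, h4⟩ := h
  refine ⟨hS, fun ω hω => ?_⟩
  rw [h3, hg.2 (g ω) ?_]
  · constructor
    · rintro ⟨l, hl, hl'⟩
      rw [h4 r hr l (hS hl)] at hl'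
      exact ⟨l, hl, hl'⟩
    · rintro ⟨l, hl, hl'⟩
      refine ⟨l, hl, ?_⟩
      rw [h4 r hr l (hS hl)]
      exact hl'
  · intro l hl hgl
    rw [F1_free h1 h3 hr ω hl, Bool.and_eq_true, decide_eq_true_iff] at hgl
    exact hω l hgl.1 hgl.2

/-- the value of `V` on a free slot -/
theorem V_free {L : ℕ} (A : Fam L) {r : List Bool} (hr : r ∈ A.R) (ω : St) :
    V (A.F ω) r = true ↔ ∃ l ∈ A.H r, ω (r, l) = true := by
  simp only [V, decide_eq_true_eq]
  constructor
  · rintro ⟨y, h1, h2⟩
    rw [A.free r hr y h1, Bool.and_eq_true, decide_eq_true_iff] at h2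
    exact ⟨y, h2⟩
  · rintro ⟨l, hl, hl'⟩
    refine ⟨l, A.hH r l hl, ?_⟩
    rw [A.free r hr l (A.hH r l hl), hl', decide_eq_true hl]
    rfl

end Pool.Agent.NPC
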