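import Pool.Agent.Lib_helper64.NPC.Defs2

/-! # NPC block F12c: `V` is in `NP`; the collapse follows from the correct tables -/

set_option autoImplicit false

namespace Pool.Agent.NPC

open Pool.Agent.CK

theorem inNP_V (O : Lang) : InNP O (V O) := by
  refine ⟨prog1_P true, 5, fun x y _ => (prog1_acc O true x y).1, fun x => ?_⟩
  simp only [V, decide_eq_true_eq]
  constructor
  · rintro ⟨y, hy, hO⟩
    refine ⟨y, ?_, (prog1_acc O true x y).2.2 ⟨hy, hO⟩⟩
    have := prog1_time x.length
    omega
  · rintro ⟨y, -, hA⟩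
    exact ⟨y, (prog1_acc O true x y).2.1 hA⟩

/-- the collapse follows from the correct tables -/
theorem collapse {O : Lang} (h : ∀ i j, Cor i j O →
      ∃ a, ∀ e, iC e = i → iM e = j → a ≤ ia e → Adeq e → ∀ z, Good O e z) :
    ManyOneComplete O (V O) ∧
    (∀ C, InNP O C → TuringReducible O (V O) C → ManyOneComplete O C) ∧
    ∀ C, TuringComplete O C → ManyOneComplete O C := by
  have hmain : ∀ C, InNP O C → TuringReducible O (V O) C → ManyOneComplete O C := by
    intro C hC hT
    refine ⟨hC, fun A hA => ?_⟩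
    obtain ⟨i, hi⟩ := exists_NL hC
    obtain ⟨l, hl⟩ := exists_NL hA
    obtain ⟨j, hj⟩ := exists_PL hT
    have hcor : Cor i j O := by
      intro x
      rw [hi, hj]
    obtain ⟨a, ha⟩ := h i j hcor
    obtain ⟨e, he1, he2, he3, he4, he5⟩ := exists_index i j l a
    have hgood := fun z => ha e he1 he2 he4 he5 z
    choose f hf1 hf2 hf3 using hgood
    refine ⟨f, inFP_read O e f (fun z => ?_) hf2, fun z => ?_⟩
    · refine le_trans ?_ (hf1 z)
      calc (f z).length ≤ (f z).length + 2 := by omega
        _ = ((f z).length + 2) ^ 1 := (pow_one _).symm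
        _ ≤ ((f z).length + 2) ^ (iC e + 2) := Nat.pow_le_pow_right (by omega) (by omega)
    · have := hf3 z
      rw [he1, hi, he3, hl] at this
      exact this.symm
  have hNP : InNP O (V O) := inNP_V O
  exact ⟨hmain _ hNP (turing_refl O _), hmain, fun C hC => hmain C hC.1 (hC.2 _ hNP)⟩

end Pool.Agent.NPC
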