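import Pool.Agent.Lib_helper64.NPC.Defs2

/-! # Block F11b: a Turing reduction that can fail fails -/

set_option autoImplicit false

namespace Pool.Agent.NPC

open Pool.Agent.CK

/-- locality of Turing reductions -/
theorem F11b_PL_congr {i j b N : ℕ} {O O' : Lang} (x : List Bool)
    (hb : x.length + (x.length + 2) ^ ex j ≤ b) (hN : (b + 2) ^ (i + 2) ≤ N)
    (h : ∀ w : List Bool, w.length < N → O' w = O w) :
    PL j (join O' (NL i O')) x = PL j (join O (NL i O)) x := by
  rw [← eval_PT, ← eval_PT]
  have hbN : b < N := by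
    calc b < b + 2 := by omega
      _ = (b + 2) ^ 1 := (pow_one _).symm
      _ ≤ (b + 2) ^ (i + 2) := Nat.pow_le_pow_right (by omega) (by omega)
      _ ≤ N := hN
  refine DT.eval_join_congr _ _ (allQ_PT j x) (fun w hw => ?_) (fun q hq => ?_)
  · apply h
    simp only [List.length_cons] at hw
    omega
  · apply NL_congr
    intro w hw
    apply h
    simp only [List.length_cons] at hq
    have h3 : (q.length + 2) ^ (i + 2) ≤ (b + 2) ^ (i + 2) :=
      Nat.pow_le_pow_left (by omega) _
    omega

/-- locality of the secret language -/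
theorem F11b_V_congr {N : ℕ} {O O' : Lang} (x : List Bool) (hN : 2 * x.length + 2 < N)
    (h : Ext N O O') : V O' x = V O x := by
  unfold V
  congr 1
  apply propext
  constructor
  · rintro ⟨y, hy, hO⟩
    refine ⟨y, hy, ?_⟩
    rw [← h _ (by rw [key_saddr _ _ _ hy.symm]; exact hN)]
    exact hO
  · rintro ⟨y, hy, hO⟩
    refine ⟨y, hy, ?_⟩
    rw [h _ (by rw [key_saddr _ _ _ hy.symm]; exact hN)]
    exact hO

/-- a Turing reduction that can fail fails -/
theorem kill_step {i j : ℕ} {O : Lang} (h : ¬ Cor i j O) (N : ℕ) :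
    ∃ N' > N, ∀ O', Ext N' O O' → ¬ Cor i j O' := by
  unfold Cor at h
  push Not at h
  obtain ⟨x, hx⟩ := h
  refine ⟨N + (x.length + (x.length + 2) ^ ex j + 2) ^ (i + 2) + (2 * x.length + 3), by omega, ?_⟩
  intro O' hO' hcor
  apply hx
  have h1 : PL j (join O' (NL i O')) x = PL j (join O (NL i O)) x :=
    F11b_PL_congr (i := i) (j := j) (b := x.length + (x.length + 2) ^ ex j)
      (N := N + (x.length + (x.length + 2) ^ ex j + 2) ^ (i + 2) + (2 * x.length + 3))
      x le_rfl (by omega) (fun w hw => hO' w (lt_of_le_of_lt (key_le w) hw))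
  have h2 : V O' x = V O x := F11b_V_congr x (by omega) hO'
  rw [← h1, ← h2]
  exact hcor x

end Pool.Agent.NPC
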