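import Pool.Agent.Lib_helper64.NPC.Defs2

/-!
# NPC, block F2: certificates of computations
-/

set_option autoImplicit false

namespace Pool.Agent.NPC

open Pool.Agent.CK

theorem f2_tw_union (S T : Finset Lit) : tw (S ∪ T) ≤ tw S + tw T := by
  unfold tw
  have h := Finset.sum_union_inter (s₁ := S) (s₂ := T) (f := lw)
  omega

theorem f2_lw_le {T : Finset Lit} {p : Lit} (hp : p ∈ T) : lw p ≤ tw T :=
  Finset.single_le_sum (f := lw) (fun _ _ => Nat.zero_le _) hp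

theorem cert_tree {L : ℕ} (A : Fam L) {β : Type} (t : DT β) (b d : ℕ) (hd : t.depth ≤ d)
    (hq : t.AllQ fun w => w.length ≤ b ∧ key w < L) (ω : St) :
    ∃ T : Finset Lit, (∀ p ∈ T, p.1 ∈ A.R ∧ p.2 ∈ A.H p.1) ∧ (∀ p ∈ T, lw p ≤ b) ∧
      tw T ≤ d * b ∧ Cert (fun ω => t.eval (A.F ω)) ω T := by
  classical
  induction t generalizing d with
  | leaf a =>
    refine ⟨∅, fun p hp => absurd hp (Finset.notMem_empty p),
      fun p hp => absurd hp (Finset.notMem_empty p), Nat.zero_le _, fun ω' _ => rfl⟩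
  | node w n0 n1 h0 h1 =>
    rw [DT.depth_node] at hd
    obtain ⟨hw, hq0, hq1⟩ := hq
    obtain ⟨Tw, hTw1, hTw2, hTw3⟩ := A.cert ω w hw.2
    have hsub : ∃ T : Finset Lit, (∀ p ∈ T, p.1 ∈ A.R ∧ p.2 ∈ A.H p.1) ∧ (∀ p ∈ T, lw p ≤ b) ∧
        tw T ≤ (d - 1) * b ∧ ∀ ω' : St, (∀ p ∈ T, ω' p = ω p) → A.F ω' w = A.F ω w →
          (DT.node w n0 n1).eval (A.F ω') = (DT.node w n0 n1).eval (A.F ω) := by
      by_cases hv : A.F ω w = true
      · obtain ⟨T, a1, a2, a3, a4⟩ := h1 (d - 1) (by omega) hq1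
        refine ⟨T, a1, a2, a3, fun ω' hω' he => ?_⟩
        rw [DT.eval_node, DT.eval_node, he, if_pos hv, if_pos hv]
        exact a4 ω' hω'
      · obtain ⟨T, a1, a2, a3, a4⟩ := h0 (d - 1) (by omega) hq0
        refine ⟨T, a1, a2, a3, fun ω' hω' he => ?_⟩
        rw [DT.eval_node, DT.eval_node, he, if_neg hv, if_neg hv]
        exact a4 ω' hω'
    obtain ⟨T, a1, a2, a3, a4⟩ := hsub
    refine ⟨Tw ∪ T, ?_, ?_, ?_, ?_⟩
    · intro p hp
      rcases Finset.mem_union.1 hp with h | h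
      · exact hTw1 p h
      · exact a1 p h
    · intro p hp
      rcases Finset.mem_union.1 hp with h | h
      · exact (f2_lw_le h).trans (hTw2.trans hw.1)
      · exact a2 p h
    · have h2 := f2_tw_union Tw T
      have h3 : (d - 1) * b + b = d * b := by
        obtain ⟨d', rfl⟩ : ∃ d', d = d' + 1 := ⟨d - 1, by omega⟩
        rw [Nat.add_sub_cancel]
        ring
      have h4 := hw.1
      omega
    · intro ω' hω'
      exact a4 ω' (fun p hp => hω' p (Finset.mem_union_right _ hp))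
        (hTw3 ω' fun p hp => hω' p (Finset.mem_union_left _ hp))

theorem f2_num (i m : ℕ) (hm : 2 ≤ m) : max m (m ^ ex i) + m ^ ex i ≤ m ^ (i + 2) := by
  have hk : ex i ≤ i := Nat.unpair_right_le i
  have h1 : m ^ ex i ≤ m ^ i := Nat.pow_le_pow_right (by omega) hk
  have h0 : 1 ≤ m ^ i := Nat.one_le_pow _ _ (by omega)
  have h2 : m ^ (i + 2) = m ^ i * m * m := by ring
  have h3 : 2 * m ^ i ≤ m ^ i * m := by nlinarith
  have h4 : m ≤ m ^ i * m := by nlinarith
  have h5 : 2 * (m ^ i * m) ≤ m ^ i * m * m := by nlinarith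
  have : max m (m ^ ex i) ≤ m ^ i * m := by
    apply max_le
    · omega
    · omega
  omega

theorem cert_acc {L : ℕ} (A : Fam L) (i : ℕ) (q : List Bool)
    (hq : (q.length + 2) ^ (i + 2) ≤ L)
    (y : List Bool) (hy : y.length ≤ (q.length + 2) ^ ex i) (ω : St) :
    ∃ T : Finset Lit, (∀ p ∈ T, p.1 ∈ A.R ∧ p.2 ∈ A.H p.1) ∧
      (∀ p ∈ T, lw p < (q.length + 2) ^ (i + 2)) ∧ tw T ≤ (q.length + 2) ^ (2 * i + 2) ∧
      Cert (fun ω => accB (A.F ω) (prog i) q y ((q.length + 2) ^ ex i)) ω T := by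
  set m := q.length + 2 with hm
  have hm2 : 2 ≤ m := by omega
  have hb := f2_num i m hm2
  have hpos : 1 ≤ m ^ (i + 2) := Nat.one_le_pow _ _ (by omega)
  have hall := mach_allQ_runTree (m ^ ex i) ([prog i], init q y) (max m (m ^ ex i)) (m ^ (i + 2))
    (mach_init_len q y (max m (m ^ ex i)) ((by omega : q.length ≤ m).trans (le_max_left _ _))
      (hy.trans (le_max_right _ _))) hb
  have hall2 : ((runTree (m ^ ex i) ([prog i], init q y)).map fun cf : Config =>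
      cf.1.isEmpty && ((cf.2 0).head? == some true)).AllQ
        (fun w => w.length ≤ m ^ (i + 2) - 1 ∧ key w < L) := by
    apply mach_allQ_map
    refine hall.mono ?_
    intro w hw
    have := key_le w
    exact ⟨by omega, by omega⟩
  obtain ⟨T, h1, h2, h3, h4⟩ := cert_tree A _ (m ^ (i + 2) - 1) (m ^ ex i)
    (by rw [DT.depth_map]; exact mach_depth_runTree _ _) hall2 ω
  refine ⟨T, h1, fun p hp => ?_, ?_, ?_⟩
  · have := h2 p hp
    omega
  · have hk : ex i ≤ i := Nat.unpair_right_le i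
    have h5 : m ^ ex i ≤ m ^ i := Nat.pow_le_pow_right (by omega) hk
    calc tw T ≤ m ^ ex i * (m ^ (i + 2) - 1) := h3
      _ ≤ m ^ i * m ^ (i + 2) := Nat.mul_le_mul h5 (Nat.sub_le _ _)
      _ = m ^ (2 * i + 2) := by rw [← pow_add]; congr 1; ring
  · intro ω' hω'
    have h5 := h4 ω' hω'
    simp only [DT.eval_map, mach_eval_runTree] at h5
    exact h5

theorem cert_NL {L : ℕ} (A : Fam L) (i : ℕ) (q : List Bool)
    (hq : (q.length + 2) ^ (i + 2) ≤ L)
    (ω : St) (h : NL i (A.F ω) q = true) :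
    ∃ T : Finset Lit, (∀ p ∈ T, p.1 ∈ A.R ∧ p.2 ∈ A.H p.1) ∧
      (∀ p ∈ T, lw p < (q.length + 2) ^ (i + 2)) ∧ tw T ≤ (q.length + 2) ^ (2 * i + 2) ∧
      ∀ ω' : St, (∀ p ∈ T, ω' p = ω p) → NL i (A.F ω') q = true := by
  classical
  unfold NL at h
  rw [decide_eq_true_eq] at h
  obtain ⟨y, hy, hy2⟩ := h
  obtain ⟨T, h1, h2, h3, h4⟩ := cert_acc A i q hq y hy ω
  refine ⟨T, h1, h2, h3, fun ω' hω' => ?_⟩
  unfold NL
  rw [decide_eq_true_eq]
  exact ⟨y, hy, (h4 ω' hω').trans hy2⟩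

end Pool.Agent.NPC
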