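import Pool.Agent.Lib_helper64.NPC.Defs2
import Pool.Agent.Lib_helper64.NPC.Blk.F2

/-! # Block F7: the queries of a family -/

set_option autoImplicit false

namespace Pool.Agent.NPC

open Pool.Agent.CK

theorem f7_card_le (T : Finset Lit) : T.card ≤ tw T := by
  unfold tw
  rw [Finset.card_eq_sum_ones]
  apply Finset.sum_le_sum
  intro p _
  unfold lw
  omega

open Classical in
/-- all literals of the family -/
noncomputable def f7_U {L : ℕ} (A : Fam L) : Finset ({r // r ∈ A.R} × List Bool) :=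
  A.R.attach ×ˢ A.R.biUnion A.H

open Classical in
/-- all queries with values -/
noncomputable def f7_D {L : ℕ} (A : Fam L) (i : ℕ) (w : List Bool) :
    Finset ((Finset ({r // r ∈ A.R} × List Bool) × Finset ({r // r ∈ A.R} × List Bool)) × Bool) :=
  (((f7_U A).powerset ×ˢ (f7_U A).powerset) ×ˢ (Finset.univ : Finset Bool)).filter
    fun x => x.1.1.card + x.1.2.card ≤ L ^ 2 ∧
      ∀ ω, Term.Holds ⟨x.1.1, x.1.2⟩ ω → nf A i w ω = x.2

/-- the query lists -/
noncomputable def f7_qs {L : ℕ} (A : Fam L) (i : ℕ) (w : List Bool) :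
    List (Term {r // r ∈ A.R} (List Bool) × Bool) :=
  (f7_D A i w).toList.map fun x => (⟨x.1.1, x.1.2⟩, x.2)

theorem f7_complete {L : ℕ} (A : Fam L) (i : ℕ) (w : List Bool)
    (ω : {r // r ∈ A.R} × List Bool → Bool) (T : Finset Lit)
    (hT : ∀ p ∈ T, p.1 ∈ A.R ∧ p.2 ∈ A.H p.1) (hc : T.card ≤ L ^ 2) (b : Bool)
    (hb : ∀ ω' : St, (∀ p ∈ T, ω' p = est A ω p) → join (A.F ω') (NL i (A.F ω')) w = b) :
    ∃ t ∈ f7_qs A i w, t.1.Holds ω := by
  classical
  set pos := (f7_U A).filter fun x => (x.1.1, x.2) ∈ T ∧ ω x = true with hpos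
  set neg := (f7_U A).filter fun x => (x.1.1, x.2) ∈ T ∧ ω x = false with hneg
  have hholds : Term.Holds ⟨pos, neg⟩ ω :=
    ⟨fun p hp => (Finset.mem_filter.1 hp).2.2, fun p hp => (Finset.mem_filter.1 hp).2.2⟩
  have hcard : pos.card + neg.card ≤ L ^ 2 := by
    have hdis : Disjoint pos neg := by
      rw [Finset.disjoint_left]
      intro p h1 h2
      have e1 := (Finset.mem_filter.1 h1).2.2
      have e2 := (Finset.mem_filter.1 h2).2.2
      rw [e1] at e2
      exact absurd e2 (by decide)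
    rw [← Finset.card_union_of_disjoint hdis]
    refine le_trans ?_ hc
    apply Finset.card_le_card_of_injOn
      (fun x : {r // r ∈ A.R} × List Bool => ((x.1.1, x.2) : Lit))
    · intro x hx
      rcases Finset.mem_union.1 (Finset.mem_coe.1 hx) with h | h
      · exact (Finset.mem_filter.1 h).2.1
      · exact (Finset.mem_filter.1 h).2.1
    · intro x _ y _ hxy
      simp only [Prod.mk.injEq] at hxy
      exact Prod.ext (Subtype.ext hxy.1) hxy.2
  have hval : ∀ ω1, Term.Holds ⟨pos, neg⟩ ω1 → nf A i w ω1 = b := by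
    intro ω1 h1
    unfold nf
    apply hb
    intro p hp
    obtain ⟨hpR, hpH⟩ := hT p hp
    simp only [est, dif_pos hpR]
    have hU : ((⟨p.1, hpR⟩, p.2) : {r // r ∈ A.R} × List Bool) ∈ f7_U A :=
      Finset.mem_product.2 ⟨Finset.mem_attach _ _, Finset.mem_biUnion.2 ⟨p.1, hpR, hpH⟩⟩
    cases hω : ω (⟨p.1, hpR⟩, p.2) with
    | true => exact h1.1 _ (Finset.mem_filter.2 ⟨hU, hp, hω⟩)
    | false => exact h1.2 _ (Finset.mem_filter.2 ⟨hU, hp, hω⟩)
  refine ⟨(⟨pos, neg⟩, b), ?_, hholds⟩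
  unfold f7_qs
  rw [List.mem_map]
  refine ⟨((pos, neg), b), ?_, rfl⟩
  rw [Finset.mem_toList]
  unfold f7_D
  rw [Finset.mem_filter]
  refine ⟨?_, hcard, hval⟩
  refine Finset.mem_product.2 ⟨Finset.mem_product.2 ⟨?_, ?_⟩, Finset.mem_univ _⟩
  · exact Finset.mem_powerset.2 (Finset.filter_subset _ _)
  · exact Finset.mem_powerset.2 (Finset.filter_subset _ _)

/-- The query lists of a family. -/
theorem queries {L : ℕ} (A : Fam L) (i a : ℕ) (ha : a < L) (ha' : (a + 2) ^ (i + 2) ≤ L) :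
    ∃ qs : List Bool → List (Term {r // r ∈ A.R} (List Bool) × Bool),
      (∀ w, ∀ t ∈ qs w, t.1.size ≤ L ^ 2) ∧
      (∀ w, ∀ t ∈ qs w, ∀ ω, t.1.Holds ω → nf A i w ω = t.2) ∧
      (∀ w : List Bool, w.length ≤ a → ∀ ω, nf A i w ω = true → ∃ t ∈ qs w, t.1.Holds ω) ∧
      (∀ w : List Bool, w.length ≤ a → (¬ ∃ q, w = true :: q) → ∀ ω, ∃ t ∈ qs w, t.1.Holds ω) := by
  classical
  have hsq : ∀ n : ℕ, n ≤ L → n ≤ L ^ 2 := fun n hn =>
    le_trans hn (Nat.le_self_pow (by norm_num) L)
  have hfalse : ∀ w : List Bool, w.length ≤ a → (¬ ∃ q, w = true :: q) →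
      ∀ ω, ∃ t ∈ f7_qs A i w, t.1.Holds ω := by
    intro w hw hno ω
    cases w with
    | nil =>
      apply f7_complete A i [] ω ∅ (by simp) (by simp) false
      intro ω' _
      rfl
    | cons c w =>
      cases c with
      | true => exact absurd ⟨w, rfl⟩ hno
      | false =>
        rw [List.length_cons] at hw
        obtain ⟨T, hT, hTw, hcert⟩ := A.cert (est A ω) w
          (lt_of_le_of_lt (key_le w) (by omega))
        apply f7_complete A i (false :: w) ω T hT
          (le_trans (f7_card_le T) (hsq _ (by omega))) (A.F (est A ω) w)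
        intro ω' hω'
        exact hcert ω' hω'
  refine ⟨f7_qs A i, ?_, ?_, ?_, hfalse⟩
  · intro w t ht
    unfold f7_qs at ht
    rw [List.mem_map] at ht
    obtain ⟨x, hx, rfl⟩ := ht
    rw [Finset.mem_toList] at hx
    exact (Finset.mem_filter.1 hx).2.1
  · intro w t ht
    unfold f7_qs at ht
    rw [List.mem_map] at ht
    obtain ⟨x, hx, rfl⟩ := ht
    rw [Finset.mem_toList] at hx
    exact (Finset.mem_filter.1 hx).2.2
  · intro w hw ω hω
    by_cases h : ∃ q, w = true :: q
    · obtain ⟨q, rfl⟩ := h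
      rw [List.length_cons] at hw
      have hqa : (q.length + 2) ^ (i + 2) ≤ L :=
        le_trans (Nat.pow_le_pow_left (by omega) _) ha'
      have hNL : NL i (A.F (est A ω)) q = true := hω
      obtain ⟨T, hT, -, hTw, hcert⟩ := cert_NL A i q hqa (est A ω) hNL
      apply f7_complete A i (true :: q) ω T hT ?_ true
      · intro ω' hω'
        exact hcert ω' hω'
      · refine le_trans (f7_card_le T) (le_trans hTw ?_)
        calc (q.length + 2) ^ (2 * i + 2) ≤ (q.length + 2) ^ ((i + 2) * 2) :=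
              Nat.pow_le_pow_right (by omega) (by omega)
          _ = ((q.length + 2) ^ (i + 2)) ^ 2 := by rw [pow_mul]
          _ ≤ L ^ 2 := Nat.pow_le_pow_left hqa 2
    · exact hfalse w hw h ω

end Pool.Agent.NPC
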