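import Pool.Agent.Lib_helper64.NPC.Defs2

/-! # Block A1: soundness of resolved queries, closedness -/

set_option autoImplicit false

namespace Pool.Agent.NPC

open Pool.Agent.CK

variable {ι Λ : Type} [DecidableEq ι] [DecidableEq Λ]

omit [DecidableEq ι] [DecidableEq Λ] in
theorem A1_fals {ρ : Rst ι Λ} {π : Term ι Λ} (h : π.Fals ρ) {ω : ι × Λ → Bool} (hω : Comp ρ ω) :
    ¬ π.Holds ω := by
  rintro ⟨h1, h2⟩
  rcases h with ⟨p, hp, hn⟩ | ⟨p, hp, hl⟩ | ⟨p, hp, hr, hl⟩
  · have := h1 p hp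
    rw [h2 p hn] at this
    exact Bool.false_ne_true this
  · have := h1 p hp
    rw [(hω p.1 p.2).1 hl] at this
    exact Bool.false_ne_true this
  · have := h2 p hp
    rw [(hω p.1 p.2).2 hr hl] at this
    exact Bool.false_ne_true this.symm

omit [DecidableEq ι] [DecidableEq Λ] in
theorem A1_sat {ρ : Rst ι Λ} {π : Term ι Λ} (h : π.Sat ρ) {ω : ι × Λ → Bool} (hω : Comp ρ ω) :
    π.Holds ω :=
  ⟨fun p hp => (hω p.1 p.2).2 (h.1 p hp).1 (h.1 p hp).2, fun p hp => (hω p.1 p.2).1 (h.2 p hp)⟩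

omit [DecidableEq ι] [DecidableEq Λ] in
theorem A1_res (ρ : Rst ι Λ) (q : List (Term ι Λ × Bool)) (b : Bool) (hb : res ρ q = some b) :
    (∃ a ∈ q, a.1.Sat ρ ∧ a.2 = b) ∨ (b = false ∧ ∀ a ∈ q, a.1.Fals ρ) := by
  induction q with
  | nil =>
    right
    rw [res] at hb
    exact ⟨(Option.some.inj hb).symm, fun a ha => absurd ha List.not_mem_nil⟩
  | cons a L ih =>
    rw [res] at hb
    split_ifs at hb with h1 h2
    · rcases ih hb with ⟨a', ha', h⟩ | ⟨h, h'⟩
      · exact Or.inl ⟨a', List.mem_cons_of_mem _ ha', h⟩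
      · refine Or.inr ⟨h, fun a' ha' => ?_⟩
        rcases List.mem_cons.1 ha' with rfl | ha'
        · exact h1
        · exact h' a' ha'
    · exact Or.inl ⟨a, List.mem_cons_self, h2, Option.some.inj hb⟩

theorem res_sound (ρ : Rst ι Λ) (q : List (Term ι Λ × Bool)) (f : (ι × Λ → Bool) → Bool)
    (hs : ∀ a ∈ q, ∀ ω, a.1.Holds ω → f ω = a.2) (hc : ∀ ω, f ω = true → ∃ a ∈ q, a.1.Holds ω)
    (b : Bool) (hb : res ρ q = some b) (ω : ι × Λ → Bool) (hω : Comp ρ ω) : f ω = b := by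
  rcases A1_res ρ q b hb with ⟨a, ha, hsat, hab⟩ | ⟨hbf, hall⟩
  · rw [← hab]
    exact hs a ha ω (A1_sat hsat hω)
  · rw [hbf]
    by_contra hne
    obtain ⟨a, ha, hh⟩ := hc ω (by simpa using hne)
    exact A1_fals (hall a ha) hω hh

theorem res_closed (q : List (Term ι Λ × Bool)) (b : Bool) :
    Closed (fun ρ : Rst ι Λ => res ρ q = some b) := by
  intro ρ r Z hr
  have hF : ∀ π : Term ι Λ, π.Fals ρ → π.Fals (Function.update ρ r (false, (ρ r).2 \ Z)) := by
    intro π h
    rcases h with h | ⟨p, hp, hl⟩ | ⟨p, hp, hd, hl⟩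
    · exact Or.inl h
    · refine Or.inr (Or.inl ⟨p, hp, ?_⟩)
      by_cases hpr : p.1 = r
      · rw [hpr, Function.update_self]
        rw [hpr] at hl
        exact fun h => hl (Finset.mem_sdiff.1 h).1
      · rw [Function.update_of_ne hpr]
        exact hl
    · refine Or.inr (Or.inr ⟨p, hp, ?_⟩)
      have hpr : p.1 ≠ r := by
        intro h
        rw [h, hr] at hd
        exact Bool.false_ne_true hd.symm
      rw [Function.update_of_ne hpr]
      exact ⟨hd, hl⟩
  have hS : ∀ π : Term ι Λ, π.Sat ρ → π.Sat (Function.update ρ r (false, (ρ r).2 \ Z)) := by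
    intro π h
    refine ⟨fun p hp => ?_, fun p hp => ?_⟩
    · have h1 := h.1 p hp
      have hpr : p.1 ≠ r := by
        intro h
        rw [h, hr] at h1
        exact Bool.false_ne_true h1.1.symm
      rw [Function.update_of_ne hpr]
      exact h1
    · have h2 := h.2 p hp
      by_cases hpr : p.1 = r
      · rw [hpr, Function.update_self]
        rw [hpr] at h2
        exact fun h => h2 (Finset.mem_sdiff.1 h).1
      · rw [Function.update_of_ne hpr]
        exact h2
  have hSF : ∀ π : Term ι Λ, π.Sat ρ → ¬ π.Fals ρ := by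
    intro π h hf
    rcases hf with ⟨p, hp, hn⟩ | ⟨p, hp, hl⟩ | ⟨p, hp, hd, hl⟩
    · exact h.2 p hn (h.1 p hp).2
    · exact hl (h.1 p hp).2
    · exact h.2 p hp hl
  have hSF' : ∀ π : Term ι Λ, π.Sat (Function.update ρ r (false, (ρ r).2 \ Z)) →
      ¬ π.Fals (Function.update ρ r (false, (ρ r).2 \ Z)) := by
    intro π h hf
    rcases hf with ⟨p, hp, hn⟩ | ⟨p, hp, hl⟩ | ⟨p, hp, hd, hl⟩
    · exact h.2 p hn (h.1 p hp).2
    · exact hl (h.1 p hp).2
    · exact h.2 p hp hl
  show res ρ q = some b → res (Function.update ρ r (false, (ρ r).2 \ Z)) q = some b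
  induction q with
  | nil =>
    intro h
    rw [res] at h ⊢
    exact h
  | cons a L ih =>
    intro h
    rw [res] at h ⊢
    split_ifs at h with h1 h2
    · rw [if_pos (hF _ h1)]
      exact ih h
    · rw [if_neg (hSF' _ (hS _ h2)), if_pos (hS _ h2)]
      exact h

end Pool.Agent.NPC
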