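import Pool.Agent.Lib_helper64.NPC.Defs2

/-! # Block A11: two computations that differ -/

set_option autoImplicit false

namespace Pool.Agent.NPC

open Pool.Agent.CK

theorem rq_length (v : List Bool → Option Bool) (t : DT Bool) :
    (rq v t).length ≤ t.depth := by
  induction t with
  | leaf b => simp [rq]
  | node w n0 n1 h0 h1 =>
    rw [DT.depth_node, rq, List.length_cons]
    split_ifs <;> omega

theorem rq_allQ (v : List Bool → Option Bool) (t : DT Bool) (P : List Bool → Prop)
    (h : t.AllQ P) : ∀ w ∈ rq v t, P w := by
  induction t with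
  | leaf b => intro w hw; simp [rq] at hw
  | node w n0 n1 h0 h1 =>
    obtain ⟨hw, h2, h3⟩ := h
    intro w' hw'
    rw [rq, List.mem_cons] at hw'
    rcases hw' with rfl | hw'
    · exact hw
    · split_ifs at hw'
      · exact h1 h3 _ hw'
      · exact h0 h2 _ hw'

theorem rq_some (v : List Bool → Option Bool) (t : DT Bool) (h : ¬ Stuck v t) :
    ∀ w ∈ rq v t, ∃ b, v w = some b := by
  induction t with
  | leaf b => intro w hw; simp [rq] at hw
  | node w n0 n1 h0 h1 =>
    rw [Stuck] at h
    push Not at h
    obtain ⟨hn, hf, ht⟩ := h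
    intro w' hw'
    rw [rq, List.mem_cons] at hw'
    rcases hw' with rfl | hw'
    · exact Option.ne_none_iff_exists'.mp hn
    · split_ifs at hw' with hv
      · exact h1 (ht hv) _ hw'
      · obtain ⟨b, hb⟩ := Option.ne_none_iff_exists'.mp hn
        cases b with
        | true => exact absurd hb hv
        | false => exact h0 (hf hb) _ hw'

theorem rv_eval (v : List Bool → Option Bool) (t : DT Bool) (h : ¬ Stuck v t) (g : Lang)
    (hg : ∀ w ∈ rq v t, v w = some (g w)) : t.eval g = rv v t := by
  induction t with
  | leaf b => rfl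
  | node w n0 n1 h0 h1 =>
    rw [Stuck] at h
    push Not at h
    obtain ⟨hn, hf, ht⟩ := h
    have hw : v w = some (g w) := hg w (by rw [rq]; exact List.mem_cons_self)
    have hg' : ∀ w' ∈ (if v w = some true then rq v n1 else rq v n0), v w' = some (g w') := by
      intro w' hw'
      exact hg w' (by rw [rq]; exact List.mem_cons_of_mem _ hw')
    rw [DT.eval_node, rv]
    by_cases hv : g w = true
    · rw [hv] at hw
      rw [if_pos hv, if_pos hw]
      rw [if_pos hw] at hg'
      exact h1 (ht hw) hg'
    · have hv' : g w = false := by simpa using hv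
      rw [hv'] at hw
      have hw' : ¬ v w = some true := by rw [hw]; simp
      rw [if_neg hv, if_neg hw']
      rw [if_neg hw'] at hg'
      exact h0 (hf hw) hg'

/-- two computations with different values differ at a common question -/
theorem rq_differ (v v' : List Bool → Option Bool) (t : DT Bool) (h : rv v t ≠ rv v' t) :
    ∃ w ∈ rq v t, w ∈ rq v' t ∧ v w ≠ v' w := by
  induction t with
  | leaf b => exact absurd rfl h
  | node w n0 n1 h0 h1 =>
    by_cases hvv : v w = v' w
    · rw [rv, rv] at h
      by_cases hv : v w = some true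
      · have hv' : v' w = some true := hvv ▸ hv
        rw [if_pos hv, if_pos hv'] at h
        obtain ⟨u, hu, hu', hne⟩ := h1 h
        refine ⟨u, ?_, ?_, hne⟩
        · rw [rq, if_pos hv]; exact List.mem_cons_of_mem _ hu
        · rw [rq, if_pos hv']; exact List.mem_cons_of_mem _ hu'
      · have hv' : ¬ v' w = some true := hvv ▸ hv
        rw [if_neg hv, if_neg hv'] at h
        obtain ⟨u, hu, hu', hne⟩ := h0 h
        refine ⟨u, ?_, ?_, hne⟩
        · rw [rq, if_neg hv]; exact List.mem_cons_of_mem _ hu
        · rw [rq, if_neg hv']; exact List.mem_cons_of_mem _ hu'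
    · refine ⟨w, ?_, ?_, hvv⟩
      · rw [rq]; exact List.mem_cons_self
      · rw [rq]; exact List.mem_cons_self

end Pool.Agent.NPC
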