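import Pool.Agent.Lib_helper64.NPC.Defs2

set_option autoImplicit false

namespace Pool.Agent.NPC

variable {ι Λ : Type} [DecidableEq ι] [DecidableEq Λ]

open Classical in
theorem a12_indeg (S : Finset Λ) (Z : Λ → Finset Λ) (W : ℕ) (hZ : ∀ l ∈ S, (Z l).card ≤ W)
    (hS : S.Nonempty) : ∃ l ∈ S, (S.filter fun l' => l ∈ Z l').card ≤ W := by
  by_contra hcon
  push Not at hcon
  have h1 : ∑ l ∈ S, (S.filter fun l' => l ∈ Z l').card =
      ∑ l' ∈ S, (S.filter fun l => l ∈ Z l').card := by
    simp only [Finset.card_filter]
    exact Finset.sum_comm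
  have h2 : ∑ l' ∈ S, (S.filter fun l => l ∈ Z l').card ≤ ∑ l' ∈ S, W := by
    apply Finset.sum_le_sum
    intro l' hl'
    refine le_trans (Finset.card_le_card ?_) (hZ l' hl')
    intro l hl
    exact (Finset.mem_filter.mp hl).2
  have h3 : ∑ l ∈ S, W < ∑ l ∈ S, (S.filter fun l' => l ∈ Z l').card :=
    Finset.sum_lt_sum_of_nonempty hS fun l hl => hcon l hl
  omega

theorem indep_set (S : Finset Λ) (Z : Λ → Finset Λ) (W : ℕ) (hZ : ∀ l ∈ S, (Z l).card ≤ W) :
    ∃ I ⊆ S, S.card ≤ I.card * (2 * W + 1) ∧ ∀ l ∈ I, ∀ l' ∈ I, l ≠ l' → l' ∉ Z l := by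
  classical
  induction S using Finset.strongInduction with
  | H S ih =>
    rcases S.eq_empty_or_nonempty with h0 | hne
    · subst h0
      exact ⟨∅, subset_rfl, by simp, by simp⟩
    · obtain ⟨l, hl, hin⟩ := a12_indeg S Z W hZ hne
      set T := S \ (insert l (Z l ∪ S.filter fun l' => l ∈ Z l')) with hT
      have hTS : T ⊂ S := by
        refine Finset.ssubset_iff_subset_ne.mpr ⟨Finset.sdiff_subset, ?_⟩
        intro he
        have : l ∈ T := he ▸ hl
        simp [hT] at this
      obtain ⟨I, hI, hc, hi⟩ := ih T hTS fun l' hl' => hZ l' (hTS.1 hl')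
      have hlI : l ∉ I := by
        intro h
        have := hI h
        simp [hT] at this
      refine ⟨insert l I, ?_, ?_, ?_⟩
      · intro x hx
        rcases Finset.mem_insert.mp hx with rfl | hx
        · exact hl
        · exact hTS.1 (hI hx)
      · rw [Finset.card_insert_of_notMem hlI]
        have h1 : S.card ≤ T.card + (insert l (Z l ∪ S.filter fun l' => l ∈ Z l')).card := by
          have := Finset.card_le_card (Finset.subset_union_left (s₁ := S)
            (s₂ := insert l (Z l ∪ S.filter fun l' => l ∈ Z l')))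
          calc S.card ≤ (T ∪ insert l (Z l ∪ S.filter fun l' => l ∈ Z l')).card := by
                apply Finset.card_le_card
                rw [hT, Finset.sdiff_union_self_eq_union]
                exact Finset.subset_union_left
            _ ≤ _ := Finset.card_union_le _ _
        have h2 : (insert l (Z l ∪ S.filter fun l' => l ∈ Z l')).card ≤ 2 * W + 1 := by
          refine le_trans (Finset.card_insert_le _ _) ?_
          have := Finset.card_union_le (Z l) (S.filter fun l' => l ∈ Z l')
          have := hZ l hl
          omega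
        nlinarith
      · intro a ha b hb hab
        have key : ∀ x ∈ I, x ∉ Z l ∧ l ∉ Z x := by
          intro x hx
          have hxT := hI hx
          have hxS : x ∈ S := hTS.1 hxT
          rw [hT, Finset.mem_sdiff, Finset.mem_insert, Finset.mem_union, Finset.mem_filter] at hxT
          push Not at hxT
          exact ⟨hxT.2.2.1, hxT.2.2.2 hxS⟩
        rcases Finset.mem_insert.mp ha with ha1 | ha1
        · rcases Finset.mem_insert.mp hb with hb1 | hb1
          · exact absurd (ha1.trans hb1.symm) hab
          · rw [ha1]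
            exact (key b hb1).1
        · rcases Finset.mem_insert.mp hb with hb1 | hb1
          · rw [hb1]
            exact (key a ha1).2
          · exact hi a ha1 b hb1 hab

theorem frequent {α : Type} [DecidableEq α] (S : Finset Λ) (g : Λ → α) (V : Finset α)
    (hg : ∀ l ∈ S, g l ∈ V) (hS : S.Nonempty) :
    ∃ a ∈ V, S.card ≤ (S.filter fun l => g l = a).card * V.card := by
  classical
  have hV : V.Nonempty := by
    obtain ⟨l, hl⟩ := hS
    exact ⟨g l, hg l hl⟩
  obtain ⟨a, ha, hmax⟩ := Finset.exists_max_image V (fun a => (S.filter fun l => g l = a).card) hV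
  refine ⟨a, ha, ?_⟩
  rw [Finset.card_eq_sum_card_fiberwise (f := g) (t := V) (fun l hl => hg l hl)]
  refine le_trans (Finset.sum_le_card_nsmul V _ _ fun b hb => hmax b hb) ?_
  rw [smul_eq_mul, mul_comm]

end Pool.Agent.NPC
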