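import Pool.Agent.Lib_helper64.NPC.Defs2
import Pool.Agent.Lib_helper64.NPC.Blk.A1
import Pool.Agent.Lib_helper64.NPC.Blk.A11
import Pool.Agent.Lib_helper64.NPC.Blk.A12

/-! # Block A13: a good root has a question that is equivalent to the state being nonempty -/

set_option autoImplicit false

namespace Pool.Agent.NPC

open Pool.Agent.CK

variable {ι Λ : Type} [DecidableEq ι] [DecidableEq Λ]

open Classical in
/-- the least state compatible with `ρ` whose part at `u` is `T` -/
noncomputable def a13_om (ρ : Rst ι Λ) (u : ι) (T : Finset Λ) : ι × Λ → Bool := fun p =>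
  if p.1 = u then decide (p.2 ∈ T) else decide ((ρ p.1).1 = false ∧ p.2 ∈ (ρ p.1).2)

theorem a13_comp (ρ : Rst ι Λ) (u : ι) (T : Finset Λ) (hu : (ρ u).1 = true) (hT : T ⊆ (ρ u).2) :
    Comp ρ (a13_om ρ u T) := by
  intro r l
  by_cases h : r = u
  · subst h
    refine ⟨fun hl => ?_, fun hf => ?_⟩
    · simp only [a13_om, if_true, decide_eq_false_iff_not]
      exact fun h' => hl (hT h')
    · rw [hu] at hf; exact absurd hf (by decide)
  · refine ⟨fun hl => ?_, fun hf hl => ?_⟩
    · simp only [a13_om, if_neg h, decide_eq_false_iff_not]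
      exact fun h' => hl h'.2
    · simp only [a13_om, if_neg h, decide_eq_true_iff]
      exact ⟨hf, hl⟩

theorem a13_comp' (ρ : Rst ι Λ) (u : ι) (T : Finset Λ) :
    Comp (Function.update ρ u (false, T)) (a13_om ρ u T) := by
  intro r l
  by_cases h : r = u
  · subst h
    simp only [Function.update_self, a13_om, if_true]
    refine ⟨fun hl => ?_, fun _ hl => ?_⟩
    · simpa using hl
    · simpa using hl
  · simp only [Function.update_of_ne h, a13_om, if_neg h]
    refine ⟨fun hl => ?_, fun hf hl => ?_⟩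
    · simp only [decide_eq_false_iff_not]
      exact fun h' => hl h'.2
    · simp only [decide_eq_true_iff]
      exact ⟨hf, hl⟩

omit [DecidableEq ι] [DecidableEq Λ] in
theorem a13_sat_holds (ρ : Rst ι Λ) (π : Term ι Λ) (h : π.Sat ρ) (ω : ι × Λ → Bool)
    (hω : Comp ρ ω) : π.Holds ω :=
  ⟨fun p hp => (hω p.1 p.2).2 (h.1 p hp).1 (h.1 p hp).2, fun p hp => (hω p.1 p.2).1 (h.2 p hp)⟩

omit [DecidableEq ι] [DecidableEq Λ] in
theorem a13_fals_not (ρ : Rst ι Λ) (π : Term ι Λ) (h : π.Fals ρ) (ω : ι × Λ → Bool)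
    (hω : Comp ρ ω) : ¬ π.Holds ω := by
  rintro ⟨h1, h2⟩
  rcases h with ⟨p, hp, hp'⟩ | ⟨p, hp, hp'⟩ | ⟨p, hp, hp1, hp2⟩
  · have := h1 p hp
    rw [h2 p hp'] at this
    exact absurd this (by decide)
  · have := h1 p hp
    rw [show ω p = false from (hω p.1 p.2).1 hp'] at this
    exact absurd this (by decide)
  · have := h2 p hp
    rw [show ω p = true from (hω p.1 p.2).2 hp1 hp2] at this
    exact absurd this (by decide)

omit [DecidableEq ι] [DecidableEq Λ] in
theorem a13_res (ρ : Rst ι Λ) (q : List (Term ι Λ × Bool)) (b : Bool) (h : res ρ q = some b) :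
    (∃ a ∈ q, a.1.Sat ρ ∧ a.2 = b) ∨ (b = false ∧ ∀ a ∈ q, a.1.Fals ρ) := by
  classical
  induction q with
  | nil =>
    right
    refine ⟨?_, by simp⟩
    simpa [res] using h.symm
  | cons a q ih =>
    unfold res at h
    by_cases h1 : a.1.Fals ρ
    · rw [if_pos h1] at h
      rcases ih h with ⟨c, hc, hc'⟩ | ⟨hb, hall⟩
      · exact Or.inl ⟨c, List.mem_cons_of_mem _ hc, hc'⟩
      · refine Or.inr ⟨hb, ?_⟩
        intro c hc
        rcases List.mem_cons.1 hc with rfl | hc
        · exact h1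
        · exact hall c hc
    · rw [if_neg h1] at h
      by_cases h2 : a.1.Sat ρ
      · rw [if_pos h2] at h
        exact Or.inl ⟨a, List.mem_cons_self, h2, by simpa using h⟩
      · rw [if_neg h2] at h
        exact absurd h (by simp)

omit [DecidableEq ι] [DecidableEq Λ] in
theorem a13_res_fals (ρ : Rst ι Λ) (q : List (Term ι Λ × Bool)) (h : ∀ a ∈ q, a.1.Fals ρ) :
    res ρ q = some false := by
  classical
  induction q with
  | nil => rfl
  | cons a q ih =>
    unfold res
    rw [if_pos (h a List.mem_cons_self)]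
    exact ih fun c hc => h c (List.mem_cons_of_mem _ hc)

/-- labels at `u` in a set of literals -/
def a13_lab (u : ι) (A : Finset (ι × Λ)) : Finset Λ := (A.filter fun p => p.1 = u).image Prod.snd

theorem a13_mem_lab (u : ι) (A : Finset (ι × Λ)) (l : Λ) (h : (u, l) ∈ A) : l ∈ a13_lab u A :=
  Finset.mem_image.2 ⟨(u, l), Finset.mem_filter.2 ⟨h, rfl⟩, rfl⟩

theorem a13_card_lab (u : ι) (A : Finset (ι × Λ)) : (a13_lab u A).card ≤ A.card :=
  le_trans Finset.card_image_le (Finset.card_filter_le _ _)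

theorem good_slot (ρ : Rst ι Λ) (u : ι) (t : DT Bool) (qs : List Bool → List (Term ι Λ × Bool))
    (f : List Bool → (ι × Λ → Bool) → Bool) (P : List Bool → Prop) (ht : t.AllQ P)
    (m W : ℕ) (hm : t.depth ≤ m) (hW : ∀ w, P w → ∀ a ∈ qs w, a.1.size ≤ W)
    (hs : ∀ w, P w → ∀ a ∈ qs w, ∀ ω, a.1.Holds ω → f w ω = a.2)
    (hc : ∀ w, P w → ∀ ω, f w ω = true → ∃ a ∈ qs w, a.1.Holds ω)
    (hd : ∀ w, P w → (¬ ∃ q, w = true :: q) → ∀ ω, ∃ a ∈ qs w, a.1.Holds ω)
    (hcor : ∀ ω, Comp ρ ω → (t.eval (fun w => f w ω) = true ↔ ∃ l, ω (u, l) = true))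
    (hg : GoodRoot ρ u t qs) (hbig : 4 * m * W < (ρ u).2.card) :
    ∃ q, P (true :: q) ∧ ∃ H'' ⊆ (ρ u).2, (ρ u).2.card ≤ H''.card * (4 * m * (2 * W + 1)) ∧
      ∀ ω, Comp ρ ω → (∀ l, ω (u, l) = true → l ∈ H'') →
        (f (true :: q) ω = true ↔ ∃ l, ω (u, l) = true) := by
  classical
  obtain ⟨hu, h0, B, hB, hB'⟩ := hg
  -- the restrictions and the answers
  set R : Finset Λ → Rst ι Λ := fun T => Function.update ρ u (false, T) with hR
  set v : Finset Λ → List Bool → Option Bool := fun T w => res (R T) (qs w) with hv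
  have hPq : ∀ T, ∀ w ∈ rq (v T) t, P w := fun T => rq_allQ (v T) t P ht
  have hcomp : ∀ T, T ⊆ (ρ u).2 → Comp ρ (a13_om ρ u T) := fun T hT => a13_comp ρ u T hu hT
  have hcomp' : ∀ T, Comp (R T) (a13_om ρ u T) := fun T => a13_comp' ρ u T
  have hsound : ∀ T w b, P w → v T w = some b → ∀ ω, Comp (R T) ω → f w ω = b := by
    intro T w b hw hb ω hω
    exact res_sound (R T) (qs w) (f w) (hs w hw) (hc w hw) b hb ω hω
  have heval : ∀ T, ¬ Stuck (v T) t →
      t.eval (fun w => f w (a13_om ρ u T)) = rv (v T) t := by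
    intro T hT
    apply rv_eval (v T) t hT
    intro w hw
    obtain ⟨b, hb⟩ := rq_some (v T) t hT w hw
    rw [hb, hsound T w b (hPq T w hw) hb _ (hcomp' T)]
  -- values
  have hval0 : rv (v ∅) t = false := by
    rw [← heval ∅ h0]
    have h1 := hcor (a13_om ρ u ∅) (hcomp ∅ (Finset.empty_subset _))
    by_contra h2
    rw [Bool.not_eq_false] at h2
    obtain ⟨l, hl⟩ := h1.1 h2
    simp [a13_om] at hl
  have hval1 : ∀ l ∈ (ρ u).2, l ∉ B → rv (v {l}) t = true := by
    intro l hl hlB
    rw [← heval {l} (hB' l hl hlB)]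
    apply (hcor (a13_om ρ u {l}) (hcomp {l} (Finset.singleton_subset_iff.2 hl))).2
    exact ⟨l, by simp [a13_om]⟩
  -- satisfied terms for the questions of the empty state
  have hsat : ∀ w, ∃ π : Term ι Λ, (P w → π.size ≤ W) ∧
      ∀ b, v ∅ w = some b → (∃ a ∈ qs w, a.1 = π ∧ a.1.Sat (R ∅) ∧ a.2 = b) ∨
        (b = false ∧ ∀ a ∈ qs w, a.1.Fals (R ∅)) := by
    intro w
    by_cases h : ∃ b, v ∅ w = some b
    · obtain ⟨b, hb⟩ := h
      rcases a13_res (R ∅) (qs w) b hb with ⟨a, ha, ha1, ha2⟩ | h'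
      · refine ⟨a.1, fun hw => hW w hw a ha, ?_⟩
        intro b' hb'
        rw [hb] at hb'
        cases hb'
        exact Or.inl ⟨a, ha, rfl, ha1, ha2⟩
      · refine ⟨⟨∅, ∅⟩, fun _ => by simp [Term.size], ?_⟩
        intro b' hb'
        rw [hb] at hb'
        cases hb'
        exact Or.inr h'
    · exact ⟨⟨∅, ∅⟩, fun _ => by simp [Term.size], fun b hb => absurd ⟨b, hb⟩ h⟩
  choose π0 hπ0 hπ0' using hsat
  set X : Finset Λ := (rq (v ∅) t).toFinset.biUnion
    fun w => a13_lab u (π0 w).pos ∪ a13_lab u (π0 w).neg with hX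
  have hVcard : (rq (v ∅) t).toFinset.card ≤ m :=
    le_trans (List.toFinset_card_le _) (le_trans (rq_length _ _) hm)
  have hXcard : X.card ≤ m * W := by
    refine le_trans (Finset.card_biUnion_le_card_mul _ _ W ?_) (Nat.mul_le_mul_right _ hVcard)
    intro w hw
    refine le_trans (Finset.card_union_le _ _) ?_
    refine le_trans (Nat.add_le_add (a13_card_lab _ _) (a13_card_lab _ _)) ?_
    exact hπ0 w (hPq ∅ w (List.mem_toFinset.1 hw))
  -- the distinguished question of a label
  have hquest : ∀ l, ∃ w : List Bool, l ∈ (ρ u).2 → l ∉ B → l ∉ X →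
      w ∈ rq (v ∅) t ∧ (∀ a ∈ qs w, a.1.Fals (R ∅)) ∧ ∃ a ∈ qs w, a.1.Sat (R {l}) ∧ a.2 = true := by
    intro l
    by_cases hl : l ∈ (ρ u).2 ∧ l ∉ B ∧ l ∉ X
    · obtain ⟨hl, hlB, hlX⟩ := hl
      have hne : rv (v ∅) t ≠ rv (v {l}) t := by
        rw [hval0, hval1 l hl hlB]; decide
      obtain ⟨w, hw, hw', hww⟩ := rq_differ (v ∅) (v {l}) t hne
      refine ⟨w, fun _ _ _ => ⟨hw, ?_⟩⟩
      obtain ⟨b, hb⟩ := rq_some (v ∅) t h0 w hw
      obtain ⟨b', hb'⟩ := rq_some (v {l}) t (hB' l hl hlB) w hw'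
      have hPw := hPq ∅ w hw
      rcases hπ0' w b hb with ⟨a, ha, ha1, ha2, ha3⟩ | ⟨hbf, hall⟩
      · exfalso
        have hlw : l ∉ a13_lab u (π0 w).neg := by
          intro h
          apply hlX
          rw [hX]
          exact Finset.mem_biUnion.2 ⟨w, List.mem_toFinset.2 hw, Finset.mem_union_right _ h⟩
        have hs1 : a.1.Sat (R {l}) := by
          refine ⟨fun p hp => ?_, fun p hp => ?_⟩
          · have h2 := ha2.1 p hp
            by_cases hpu : p.1 = u
            · simp [hR, hpu] at h2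
            · simpa [hR, Function.update_of_ne hpu] using h2
          · have h2 := ha2.2 p hp
            by_cases hpu : p.1 = u
            · simp only [hR, hpu, Function.update_self, Finset.mem_singleton]
              intro hpl
              apply hlw
              apply a13_mem_lab
              rw [← ha1, ← hpu, ← hpl]
              exact hp
            · simpa [hR, Function.update_of_ne hpu] using h2
        have e1 : f w (a13_om ρ u {l}) = a.2 :=
          hs w hPw a ha _ (a13_sat_holds _ _ hs1 _ (hcomp' {l}))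
        have e2 := hsound {l} w b' hPw hb' _ (hcomp' {l})
        apply hww
        rw [hb, hb', ← e2, e1, ha3]
      · refine ⟨hall, ?_⟩
        rcases a13_res (R {l}) (qs w) b' hb' with ⟨a, ha, ha1, ha2⟩ | ⟨hbf', -⟩
        · refine ⟨a, ha, ha1, ?_⟩
          rw [ha2]
          by_contra h3
          rw [Bool.not_eq_true] at h3
          apply hww
          rw [hb, hb', hbf, h3]
        · exfalso
          apply hww
          rw [hb, hb', hbf, hbf']
    · exact ⟨[], fun h1 h2 h3 => absurd ⟨h1, h2, h3⟩ hl⟩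
  choose g hgq using hquest
  set S2 : Finset Λ := ((ρ u).2 \ B) \ X with hS2
  have hmemS2 : ∀ l, l ∈ S2 ↔ (l ∈ (ρ u).2 ∧ l ∉ B) ∧ l ∉ X := by
    intro l
    rw [hS2, Finset.mem_sdiff, Finset.mem_sdiff]
  have hS2card : (ρ u).2.card ≤ 4 * S2.card := by
    have e1 : ((ρ u).2 \ B).card ≤ S2.card + X.card := by
      have := Finset.le_card_sdiff X ((ρ u).2 \ B)
      rw [← hS2] at this
      omega
    have e2 : (ρ u).2.card ≤ ((ρ u).2 \ B).card + B.card := by
      have := Finset.le_card_sdiff B (ρ u).2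
      omega
    have e3 : 4 * (m * W) < (ρ u).2.card := by
      rw [← mul_assoc]; exact hbig
    omega
  have hS2ne : S2.Nonempty := by
    rw [← Finset.card_pos]
    omega
  obtain ⟨w0, hw0, hw0c⟩ := frequent S2 g (rq (v ∅) t).toFinset
    (fun l hl => List.mem_toFinset.2 (by
      obtain ⟨⟨h1, h2⟩, h3⟩ := (hmemS2 l).1 hl
      exact (hgq l h1 h2 h3).1)) hS2ne
  set S3 : Finset Λ := S2.filter fun l => g l = w0 with hS3
  have hw0q : w0 ∈ rq (v ∅) t := List.mem_toFinset.1 hw0
  have hPw0 : P w0 := hPq ∅ w0 hw0q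
  have hS3prop : ∀ l ∈ S3, l ∈ (ρ u).2 ∧ (∀ a ∈ qs w0, a.1.Fals (R ∅)) ∧
      ∃ a ∈ qs w0, a.1.Sat (R {l}) ∧ a.2 = true := by
    intro l hl
    obtain ⟨hl2, hlg⟩ := Finset.mem_filter.1 hl
    obtain ⟨⟨h1, h2⟩, h3⟩ := (hmemS2 l).1 hl2
    obtain ⟨-, h5, h6⟩ := hgq l h1 h2 h3
    rw [hlg] at h5 h6
    exact ⟨h1, h5, h6⟩
  have hS3card : S2.card ≤ S3.card * m := le_trans hw0c (Nat.mul_le_mul_left _ hVcard)
  have hS3ne : S3.Nonempty := by
    rw [← Finset.card_pos]
    rcases Nat.eq_zero_or_pos S3.card with h | h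
    · rw [h, zero_mul] at hS3card
      have := Finset.card_pos.2 hS2ne
      omega
    · exact h
  have hfals : ∀ a ∈ qs w0, a.1.Fals (R ∅) := by
    obtain ⟨l, hl⟩ := hS3ne
    exact (hS3prop l hl).2.1
  -- the question begins with `true`
  have hform : ∃ q, w0 = true :: q := by
    by_contra hno
    obtain ⟨a, ha, hah⟩ := hd w0 hPw0 hno (a13_om ρ u ∅)
    exact a13_fals_not _ _ (hfals a ha) _ (hcomp' ∅) hah
  obtain ⟨q, rfl⟩ := hform
  -- the terms
  have hterm : ∀ l, ∃ π : Term ι Λ, l ∈ S3 → π.size ≤ W ∧ π.Sat (R {l}) ∧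
      ∀ ω, π.Holds ω → f (true :: q) ω = true := by
    intro l
    by_cases hl : l ∈ S3
    · obtain ⟨-, -, a, ha, ha1, ha2⟩ := hS3prop l hl
      refine ⟨a.1, fun _ => ⟨hW _ hPw0 a ha, ha1, fun ω hω => ?_⟩⟩
      rw [hs _ hPw0 a ha ω hω, ha2]
    · exact ⟨⟨∅, ∅⟩, fun h => absurd h hl⟩
  choose π hπ using hterm
  obtain ⟨I, hIS, hIcard, hI⟩ := indep_set S3 (fun l => a13_lab u (π l).neg) W (by
    intro l hl
    refine le_trans (a13_card_lab _ _) ?_
    have := (hπ l hl).1
    unfold Term.size at this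
    omega)
  refine ⟨q, hPw0, I, ?_, ?_, ?_⟩
  · intro l hl
    exact (hS3prop l (hIS hl)).1
  · calc (ρ u).2.card ≤ 4 * S2.card := hS2card
      _ ≤ 4 * (S3.card * m) := Nat.mul_le_mul_left _ hS3card
      _ ≤ 4 * ((I.card * (2 * W + 1)) * m) :=
          Nat.mul_le_mul_left _ (Nat.mul_le_mul_right _ hIcard)
      _ = I.card * (4 * m * (2 * W + 1)) := by ring
  · intro ω hω hωI
    constructor
    · intro hf
      by_contra hno
      push Not at hno
      have hc0 : Comp (R ∅) ω := by
        intro r l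
        by_cases h : r = u
        · subst h
          refine ⟨fun _ => by simpa using hno l, fun _ hl => ?_⟩
          simp [hR] at hl
        · simpa [hR, Function.update_of_ne h] using hω r l
      have h1 : v ∅ (true :: q) = some false := a13_res_fals (R ∅) _ hfals
      rw [hsound ∅ (true :: q) false hPw0 h1 ω hc0] at hf
      exact absurd hf (by decide)
    · rintro ⟨l, hl⟩
      have hlI := hωI l hl
      obtain ⟨-, hπs, hπh⟩ := hπ l (hIS hlI)
      apply hπh
      refine ⟨fun p hp => ?_, fun p hp => ?_⟩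
      · have h1 := hπs.1 p hp
        by_cases hpu : p.1 = u
        · simp only [hR, hpu, Function.update_self, Finset.mem_singleton, true_and] at h1
          have : p = (u, l) := Prod.ext hpu h1
          rw [this]; exact hl
        · simp only [hR, Function.update_of_ne hpu] at h1
          exact (hω p.1 p.2).2 h1.1 h1.2
      · have h1 := hπs.2 p hp
        by_cases hpu : p.1 = u
        · simp only [hR, hpu, Function.update_self, Finset.mem_singleton] at h1
          by_contra h2
          rw [Bool.not_eq_false] at h2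
          have h3 : ω (u, p.2) = true := by
            rw [← hpu]; exact h2
          have h4 := hωI p.2 h3
          apply hI l hlI p.2 h4 (fun h => h1 h.symm)
          apply a13_mem_lab
          rw [← hpu]
          exact hp
        · simp only [hR, Function.update_of_ne hpu] at h1
          exact (hω p.1 p.2).1 h1

end Pool.Agent.NPC
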