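import Pool.Agent.Lib_helper64.NPC.Defs2

/-! # Block F9a1 -/

set_option autoImplicit false

namespace Pool.Agent.NPC

open Pool.Agent.CK

theorem F9a1_base {e : ℕ} {z : List Bool} {L : ℕ} (he : Adeq e) (h : alen e z < L ^ 2) {m : ℕ}
    (hm : m ≤ e) : (z.length + 2) ^ m < L := by
  have hu : 1 ≤ z.length + 2 := by omega
  have he1 := he.1
  have h27 : 27 ≤ e := by
    have : 3 * 3 * 3 ≤ (2 * iN e + 3) * (iC e + 3) * (iM e + 3) := by
      gcongr <;> omega
    omega
  have h2 : 2 * m ≤ e ^ 2 := by nlinarith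
  have h3 : ((z.length + 2) ^ m) ^ 2 < L ^ 2 := by
    calc ((z.length + 2) ^ m) ^ 2 = (z.length + 2) ^ (2 * m) := by rw [← pow_mul]; ring_nf
      _ ≤ (z.length + 2) ^ (e ^ 2) := Nat.pow_le_pow_right hu h2
      _ = alen e z := rfl
      _ < L ^ 2 := h
  exact lt_of_pow_lt_pow_left₀ 2 (Nat.zero_le _) h3

theorem item_range {e : ℕ} {z : List Bool} {L : ℕ} (he : Adeq e) (h : alen e z < L ^ 2) :
    (sl e z + 2) ^ ((iM e + 2) * (iC e + 2)) ≤ L ∧ (z.length + 2) ^ (iN e + 2) < L ∧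
      (z.length + 2) ^ (iN e + 2) ≤ sl e z ∧ e < L := by
  have hu : 2 ≤ z.length + 2 := by omega
  have he1 := he.1
  have hpow : 1 ≤ (z.length + 2) ^ (2 * iN e + 2) := Nat.one_le_pow _ _ (by omega)
  have h0 : sl e z + 2 ≤ (z.length + 2) ^ (2 * iN e + 3) := by
    unfold sl
    have h4 : 2 ≤ (z.length + 2) ^ (2 * iN e + 2) := by
      calc 2 ≤ z.length + 2 := hu
        _ = (z.length + 2) ^ 1 := by ring
        _ ≤ (z.length + 2) ^ (2 * iN e + 2) := Nat.pow_le_pow_right (by omega) (by omega)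
    calc (z.length + 2) ^ (2 * iN e + 2) + 2
        ≤ (z.length + 2) ^ (2 * iN e + 2) * 2 := by omega
      _ ≤ (z.length + 2) ^ (2 * iN e + 2) * (z.length + 2) := Nat.mul_le_mul_left _ hu
      _ = (z.length + 2) ^ (2 * iN e + 3) := by ring
  refine ⟨?_, ?_, ?_, ?_⟩
  · calc (sl e z + 2) ^ ((iM e + 2) * (iC e + 2))
        ≤ ((z.length + 2) ^ (2 * iN e + 3)) ^ ((iM e + 2) * (iC e + 2)) :=
          Nat.pow_le_pow_left h0 _
      _ = (z.length + 2) ^ ((2 * iN e + 3) * ((iM e + 2) * (iC e + 2))) := by rw [← pow_mul]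
      _ ≤ L := by
          apply le_of_lt
          apply F9a1_base he h
          calc (2 * iN e + 3) * ((iM e + 2) * (iC e + 2))
              = (2 * iN e + 3) * (iC e + 2) * (iM e + 2) := by ring
            _ ≤ (2 * iN e + 3) * (iC e + 3) * (iM e + 3) := by gcongr <;> omega
            _ ≤ e := he1
  · apply F9a1_base he h
    have : (2 * iN e + 3) * 1 * 1 ≤ (2 * iN e + 3) * (iC e + 3) * (iM e + 3) := by
      gcongr <;> omega
    omega
  · unfold sl
    exact Nat.pow_le_pow_right (by omega) (by omega)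
  · calc e < 2 ^ e := Nat.lt_two_pow_self
      _ ≤ (z.length + 2) ^ e := Nat.pow_le_pow_left hu _
      _ < L := F9a1_base he h le_rfl

theorem F9a1_nc {J n L : ℕ} (h : NC J n L) {b : ℕ} (hb : n ≤ 2 * b + 2) :
    L ^ 100 ≤ 2 ^ (b / 4) ∧ 1600 ≤ b := by
  obtain ⟨h16, -, hN⟩ := h
  have h1 := hN b hb
  have h2 : b / (4 * J) ≤ b / 4 := by
    rcases Nat.eq_zero_or_pos J with hJ | hJ
    · subst hJ; simp
    · exact Nat.div_le_div_left (by omega) (by norm_num)
  have h3 : L ^ 100 ≤ 2 ^ (b / 4) := h1.trans (Nat.pow_le_pow_right (by norm_num) h2)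
  refine ⟨h3, ?_⟩
  have h4 : 2 ^ 400 ≤ 2 ^ (b / 4) := by
    calc 2 ^ 400 = 16 ^ 100 := by rw [show (16 : ℕ) = 2 ^ 4 by norm_num, ← pow_mul]
      _ ≤ L ^ 100 := Nat.pow_le_pow_left h16 _
      _ ≤ _ := h3
  have h5 : 400 ≤ b / 4 := (Nat.pow_le_pow_iff_right (by norm_num)).mp h4
  omega

theorem item_card {J n L : ℕ} (hJ : 1 ≤ J) (h : NC J n L) {e : ℕ} {z : List Bool}
    (hz : n ≤ (z.length + 2) ^ (iN e + 2)) {s : ℕ} (hs : 2 ^ (sl e z / 2) ≤ L ^ 4 * s) :
    2 ^ ((z.length + 2) ^ ex (iN e) + 1) ≤ s := by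
  have hu : 2 ≤ z.length + 2 := by omega
  have hb : n ≤ 2 * sl e z + 2 := by
    have : (z.length + 2) ^ (iN e + 2) ≤ sl e z := by
      unfold sl
      exact Nat.pow_le_pow_right (by omega) (by omega)
    omega
  obtain ⟨h1, h2⟩ := F9a1_nc h hb
  have hex : (z.length + 2) ^ ex (iN e) ≤ (z.length + 2) ^ iN e :=
    Nat.pow_le_pow_right (by omega) (Nat.unpair_right_le _)
  have h4 : 4 * (z.length + 2) ^ iN e ≤ sl e z := by
    unfold sl
    calc 4 * (z.length + 2) ^ iN e = (z.length + 2) ^ iN e * 2 ^ 2 := by ring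
      _ ≤ (z.length + 2) ^ iN e * (z.length + 2) ^ 2 := by gcongr
      _ = (z.length + 2) ^ (iN e + 2) := by rw [pow_add]
      _ ≤ (z.length + 2) ^ (2 * iN e + 2) := Nat.pow_le_pow_right (by omega) (by omega)
  generalize sl e z = b at *
  have h5 : L ^ 4 ≤ 2 ^ (b / 8) := by
    by_contra hc
    push Not at hc
    have h6 : (2 ^ (b / 8)) ^ 25 < (L ^ 4) ^ 25 := Nat.pow_lt_pow_left hc (by norm_num)
    rw [← pow_mul, ← pow_mul] at h6
    have h7 : 2 ^ (b / 4) ≤ 2 ^ (b / 8 * 25) := Nat.pow_le_pow_right (by norm_num) (by omega)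
    have h8 : L ^ (4 * 25) = L ^ 100 := by norm_num
    omega
  have h9 : 2 ^ (b / 2) ≤ 2 ^ (b / 8) * s := hs.trans (Nat.mul_le_mul_right _ h5)
  have h10 : 2 ^ (b / 2) = 2 ^ (b / 8) * 2 ^ (b / 2 - b / 8) := by
    rw [← pow_add]
    congr 1
    omega
  rw [h10] at h9
  have h11 : 2 ^ (b / 2 - b / 8) ≤ s := Nat.le_of_mul_le_mul_left h9 (by positivity)
  refine le_trans (Nat.pow_le_pow_right (by norm_num) ?_) h11
  omega

open Classical in
/-- the number of entries that use slots of size `b` -/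
theorem items_count {J n L : ℕ} (hJ : 1 ≤ J) (h : NC J n L) (items : Finset (ℕ × List Bool))
    (hi : ∀ it ∈ items, Adeq it.1 ∧ alen it.1 it.2 < L ^ 2) {b : ℕ} (hb : n ≤ 2 * b + 2) :
    16 * L ^ 28 * (items.filter fun it => sl it.1 it.2 = b).card ≤ 2 ^ b := by
  obtain ⟨h1, h2⟩ := F9a1_nc h hb
  have h16 := h.1
  have hfin : {y : List Bool | y.length ≤ b / 16}.Finite := List.finite_length_le Bool _
  have hsub : (items.filter fun it => sl it.1 it.2 = b) ⊆ Finset.range L ×ˢ hfin.toFinset := by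
    intro it hit
    rw [Finset.mem_filter] at hit
    obtain ⟨hit, hsl⟩ := hit
    obtain ⟨h3, h4⟩ := hi it hit
    obtain ⟨-, -, -, h5⟩ := item_range h3 h4
    rw [Finset.mem_product]
    refine ⟨Finset.mem_range.mpr h5, ?_⟩
    rw [Set.Finite.mem_toFinset]
    show it.2.length ≤ b / 16
    have h6 : (it.2.length + 2) ^ 2 ≤ b := by
      rw [← hsl]
      unfold sl
      exact Nat.pow_le_pow_right (by omega) (by omega)
    rw [Nat.le_div_iff_mul_le (by norm_num)]
    by_contra hc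
    push Not at hc
    rcases Nat.lt_or_ge it.2.length 16 with h7 | h7
    · omega
    · nlinarith
  have hcard : hfin.toFinset.card ≤ 2 ^ (b / 16 + 1) := by
    have hF : Finite {q : List Bool // q.length ≤ b / 16} := hfin.to_subtype
    let _ : Fintype {q : List Bool // q.length ≤ b / 16} := Fintype.ofFinite _
    have h3 := multi_card_le (b / 16)
    have h4 : hfin.toFinset.card = Fintype.card {q : List Bool // q.length ≤ b / 16} := by
      rw [← Fintype.card_coe]
      exact Fintype.card_congr (Equiv.subtypeEquivRight (by simp))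
    omega
  have h3 := Finset.card_le_card hsub
  rw [Finset.card_product, Finset.card_range] at h3
  have h4 : L ^ 29 ≤ 2 ^ (b / 4) := (Nat.pow_le_pow_right (by omega) (by norm_num)).trans h1
  calc 16 * L ^ 28 * (items.filter fun it => sl it.1 it.2 = b).card
      ≤ 16 * L ^ 28 * (L * 2 ^ (b / 16 + 1)) := by
        gcongr
        exact h3.trans (Nat.mul_le_mul_left _ hcard)
    _ = 2 ^ 4 * L ^ 29 * 2 ^ (b / 16 + 1) := by ring
    _ ≤ 2 ^ 4 * 2 ^ (b / 4) * 2 ^ (b / 16 + 1) := by gcongr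
    _ = 2 ^ (4 + b / 4 + (b / 16 + 1)) := by rw [← pow_add, ← pow_add]
    _ ≤ 2 ^ b := Nat.pow_le_pow_right (by norm_num) (by omega)

/-- the entries of a stage form a finite set -/
theorem items_finite (L : ℕ) : {it : ℕ × List Bool | Adeq it.1 ∧ alen it.1 it.2 < L ^ 2}.Finite := by
  apply Set.Finite.subset ((Set.finite_lt_nat L).prod (List.finite_length_lt Bool L))
  rintro ⟨e, z⟩ ⟨h1, h2⟩
  obtain ⟨-, h3, -, h4⟩ := item_range h1 h2
  refine ⟨h4, ?_⟩
  have : (z.length + 2) ^ 1 ≤ (z.length + 2) ^ (iN e + 2) :=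
    Nat.pow_le_pow_right (by omega) (by omega)
  show z.length < L
  rw [pow_one] at this
  have h6 : z.length + 2 < L := lt_of_le_of_lt this h3
  omega

end Pool.Agent.NPC
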