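import Pool.Agent.Lib_helper64.NPC.Defs2


set_option autoImplicit false

namespace Pool.Agent.NPC

open Pool.Agent.CK

theorem nc_big {J n L : ℕ} (hJ : 1 ≤ J) (h : NC J n L) {b : ℕ} (hb : n ≤ 2 * b + 2) :
    400 ≤ b / (4 * J) ∧ 1600 ≤ b ∧ L ^ 100 ≤ 2 ^ (b / 4) := by
  obtain ⟨h1, -, h3⟩ := h
  have h4 := h3 b hb
  have h5 : (2 : ℕ) ^ 400 ≤ 2 ^ (b / (4 * J)) := by
    refine le_trans ?_ h4
    calc (2 : ℕ) ^ 400 = (2 ^ 4) ^ 100 := (pow_mul 2 4 100)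
      _ ≤ L ^ 100 := Nat.pow_le_pow_left (by omega) 100
  have h6 : 400 ≤ b / (4 * J) := (Nat.pow_le_pow_iff_right (by norm_num)).1 h5
  have h7 : b / (4 * J) ≤ b / 4 := Nat.div_le_div_left (by omega) (by norm_num)
  refine ⟨h6, by omega, h4.trans (Nat.pow_le_pow_right (by norm_num) h7)⟩

theorem f8n_mul (J j b : ℕ) (hj : j ≤ J) : j * (b / (4 * J)) ≤ b / 4 := by
  rw [← Nat.div_div_eq_div_mul]
  calc j * (b / 4 / J) ≤ J * (b / 4 / J) := Nat.mul_le_mul_right _ hj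
    _ ≤ b / 4 := Nat.mul_div_le _ _

theorem hx_le {J j : ℕ} (hj : j ≤ J) (b : ℕ) : b / 2 ≤ hx J j b ∧ hx J j b ≤ b - b / 4 := by
  have h := f8n_mul J j b hj
  unfold hx
  omega

theorem hx_step {J j n L : ℕ} (hJ : 1 ≤ J) (hj : j < J) (h : NC J n L) {b : ℕ}
    (hb : n ≤ 2 * b + 2) : hx J j b = hx J (j + 1) b + (te J b + 2) ∧ b / 2 ≤ hx J (j + 1) b := by
  obtain ⟨h1, -, -⟩ := nc_big hJ h hb
  have h2 := f8n_mul J (j + 1) b hj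
  have h3 : (j + 1) * (b / (4 * J)) = j * (b / (4 * J)) + b / (4 * J) := by ring
  refine ⟨?_, (hx_le hj b).1⟩
  unfold hx te
  omega

theorem num_x {J n L : ℕ} (hJ : 1 ≤ J) (h : NC J n L) {b : ℕ} (hb : n ≤ 2 * b + 2) :
    2 * ((1 / 2 : ℝ) ^ te J b) ≤ 8 / (L : ℝ) ^ 100 := by
  obtain ⟨h1, -, -⟩ := nc_big hJ h hb
  have hL : (0 : ℝ) < L := by
    have := h.1
    positivity
  have h2 : (L : ℝ) ^ 100 ≤ 2 ^ (b / (4 * J)) := by exact_mod_cast h.2.2 b hb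
  have h3 : b / (4 * J) = te J b + 2 := by
    unfold te
    omega
  rw [h3, pow_add] at h2
  have h4 : (0 : ℝ) < 2 ^ te J b := by positivity
  rw [one_div, inv_pow, le_div_iff₀ (by positivity)]
  calc 2 * ((2 : ℝ) ^ te J b)⁻¹ * (L : ℝ) ^ 100 ≤ 2 * ((2 : ℝ) ^ te J b)⁻¹ * (2 ^ te J b * 2 ^ 2) :=
        mul_le_mul_of_nonneg_left h2 (by positivity)
    _ = 8 := by
        field_simp
        norm_num

theorem f8n_exp_le {x : ℝ} (hx : x ≤ 1 / 2) : Real.exp x ≤ 2 := by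
  have h1 : 1 - x ≤ Real.exp (-x) := by
    have := Real.add_one_le_exp (-x)
    linarith
  have h2 : Real.exp x * Real.exp (-x) = 1 := by rw [← Real.exp_add]; simp
  have h3 := Real.exp_pos x
  nlinarith

theorem num_W {L : ℕ} (h : 16 ≤ L) : (1 + 8 / (L : ℝ) ^ 100) ^ (L ^ 2) ≤ 2 := by
  have hL : (16 : ℝ) ≤ L := by exact_mod_cast h
  have hL0 : (0 : ℝ) < L := by linarith
  have h1 : (1 + 8 / (L : ℝ) ^ 100) ≤ Real.exp (8 / (L : ℝ) ^ 100) := by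
    have := Real.add_one_le_exp (8 / (L : ℝ) ^ 100)
    linarith
  calc (1 + 8 / (L : ℝ) ^ 100) ^ (L ^ 2) ≤ (Real.exp (8 / (L : ℝ) ^ 100)) ^ (L ^ 2) :=
        pow_le_pow_left₀ (by positivity) h1 _
    _ = Real.exp ((L ^ 2 : ℕ) * (8 / (L : ℝ) ^ 100)) := by rw [← Real.exp_nat_mul]
    _ ≤ 2 := by
        apply f8n_exp_le
        have h2 : ((L ^ 2 : ℕ) : ℝ) * (8 / (L : ℝ) ^ 100) = 8 / (L : ℝ) ^ 98 := by
          push_cast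
          field_simp
        rw [h2, div_le_iff₀ (by positivity)]
        have h3 : (L : ℝ) ^ 1 ≤ (L : ℝ) ^ 98 := pow_le_pow_right₀ (by linarith) (by norm_num)
        linarith

theorem num_h1 {L k : ℕ} (h : 16 ≤ L) (hk : k ≤ L ^ 2) :
    2304 * (k : ℝ) * (L : ℕ) * (L ^ 2 : ℕ) * (1 / (L : ℝ) ^ 8) ≤ 1 := by
  have hL : (16 : ℝ) ≤ L := by exact_mod_cast h
  have hL0 : (0 : ℝ) < L := by linarith
  have hk' : (k : ℝ) ≤ (L : ℝ) ^ 2 := by exact_mod_cast hk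
  have h1 : 2304 * (k : ℝ) * (L : ℕ) * (L ^ 2 : ℕ) * (1 / (L : ℝ) ^ 8) ≤
      2304 * (L : ℝ) ^ 2 * (L : ℕ) * (L ^ 2 : ℕ) * (1 / (L : ℝ) ^ 8) := by
    gcongr
  refine h1.trans ?_
  have h2 : 2304 * (L : ℝ) ^ 2 * (L : ℕ) * (L ^ 2 : ℕ) * (1 / (L : ℝ) ^ 8) =
      2304 / (L : ℝ) ^ 3 := by
    push_cast
    field_simp
  rw [h2, div_le_one (by positivity)]
  calc (2304 : ℝ) ≤ 16 ^ 3 := by norm_num
    _ ≤ (L : ℝ) ^ 3 := pow_le_pow_left₀ (by norm_num) hL 3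

theorem num_h2 {J n L k : ℕ} (hJ : 1 ≤ J) (h : NC J n L) (hk : k ≤ L ^ 2) {b R : ℕ}
    (hb : n ≤ 2 * b + 2) (hR : 2 ^ b ≤ L ^ 20 * R) :
    4 * (k : ℝ) * Real.exp (-(1 / (L : ℝ) ^ 8 * R / 4)) ≤ 1 := by
  obtain ⟨-, -, h3⟩ := nc_big hJ h hb
  have hL : (16 : ℝ) ≤ L := by exact_mod_cast h.1
  have hL0 : (0 : ℝ) < L := by linarith
  have hk' : (k : ℝ) ≤ (L : ℝ) ^ 2 := by exact_mod_cast hk
  have h4 : (L ^ 100) ^ 4 ≤ 2 ^ b := by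
    calc (L ^ 100) ^ 4 ≤ (2 ^ (b / 4)) ^ 4 := Nat.pow_le_pow_left h3 4
      _ = 2 ^ (b / 4 * 4) := by rw [← pow_mul]
      _ ≤ 2 ^ b := Nat.pow_le_pow_right (by norm_num) (Nat.div_mul_le_self b 4)
  have h5 : (L : ℝ) ^ 380 ≤ R := by
    have h6 : (L : ℝ) ^ 20 * (L : ℝ) ^ 380 ≤ (L : ℝ) ^ 20 * R := by
      have h7 : (L ^ 100) ^ 4 ≤ L ^ 20 * R := h4.trans hR
      have h8 : (((L ^ 100) ^ 4 : ℕ) : ℝ) ≤ ((L ^ 20 * R : ℕ) : ℝ) := by exact_mod_cast h7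
      push_cast at h8
      calc (L : ℝ) ^ 20 * (L : ℝ) ^ 380 = ((L : ℝ) ^ 100) ^ 4 := by ring
        _ ≤ _ := h8
    exact le_of_mul_le_mul_left h6 (by positivity)
  have h6 : (L : ℝ) ^ 372 / 4 ≤ 1 / (L : ℝ) ^ 8 * R / 4 := by
    have h7 : (L : ℝ) ^ 372 = 1 / (L : ℝ) ^ 8 * (L : ℝ) ^ 380 := by
      field_simp
    rw [h7]
    gcongr
  have h7 : 1 / (L : ℝ) ^ 8 * R / 4 ≤ Real.exp (1 / (L : ℝ) ^ 8 * R / 4) := by
    have := Real.add_one_le_exp (1 / (L : ℝ) ^ 8 * R / 4)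
    linarith
  rw [Real.exp_neg, ← div_eq_mul_inv, div_le_one (Real.exp_pos _)]
  refine le_trans ?_ (h6.trans h7)
  have h8 : (16 : ℝ) * (L : ℝ) ^ 2 ≤ (L : ℝ) ^ 372 := by
    calc (16 : ℝ) * (L : ℝ) ^ 2 ≤ (L : ℝ) * (L : ℝ) ^ 2 :=
          mul_le_mul_of_nonneg_right hL (by positivity)
      _ = (L : ℝ) ^ 3 := by ring
      _ ≤ (L : ℝ) ^ 372 := pow_le_pow_right₀ (by linarith) (by norm_num)
  linarith

theorem num_h3 {J j n L k : ℕ} (hJ : 1 ≤ J) (hj : j < J) (h : NC J n L) (hk : k ≤ L ^ 2) {b : ℕ}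
    (hb : n ≤ 2 * b + 2) {α : Type} (s : Finset α) (P : α → ℕ) (hs : s.card ≤ 2 ^ (b / 4) + 1)
    (hP : ∀ a ∈ s, 2 ^ hx J j b ≤ P a) :
    64 * (k : ℝ) * ∑ a ∈ s, Real.exp (-((1 / 2 : ℝ) ^ te J b * P a / 4)) ≤ 1 := by
  obtain ⟨-, h2, h3⟩ := nc_big hJ h hb
  obtain ⟨h4, h5⟩ := hx_step hJ hj h hb
  have hL : (16 : ℝ) ≤ L := by exact_mod_cast h.1
  have hL0 : (0 : ℝ) < L := by linarith
  have hk' : (k : ℝ) ≤ (L : ℝ) ^ 2 := by exact_mod_cast hk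
  set X : ℝ := (2 : ℝ) ^ (b / 2) with hX
  have hXpos : 0 < X := by positivity
  have hXbig : (256 : ℝ) ≤ X := by
    calc (256 : ℝ) = 2 ^ 8 := by norm_num
      _ ≤ X := pow_le_pow_right₀ (by norm_num) (by omega)
  have h6 : ∀ a ∈ s, Real.exp (-((1 / 2 : ℝ) ^ te J b * P a / 4)) ≤ Real.exp (-X) := by
    intro a ha
    apply Real.exp_le_exp.2
    apply neg_le_neg
    have h7 : (2 : ℝ) ^ hx J j b ≤ P a := by exact_mod_cast hP a ha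
    have h8 : X ≤ (2 : ℝ) ^ hx J (j + 1) b := pow_le_pow_right₀ (by norm_num) h5
    have h9 : (2 : ℝ) ^ hx J (j + 1) b = (1 / 2 : ℝ) ^ te J b * (2 : ℝ) ^ hx J j b / 4 := by
      rw [h4, pow_add, pow_add, one_div, inv_pow]
      field_simp
      norm_num
    calc X ≤ (2 : ℝ) ^ hx J (j + 1) b := h8
      _ = (1 / 2 : ℝ) ^ te J b * (2 : ℝ) ^ hx J j b / 4 := h9
      _ ≤ _ := by gcongr
  have h7 : ∑ a ∈ s, Real.exp (-((1 / 2 : ℝ) ^ te J b * P a / 4)) ≤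
      (2 ^ (b / 4) + 1) * Real.exp (-X) := by
    calc ∑ a ∈ s, Real.exp (-((1 / 2 : ℝ) ^ te J b * P a / 4)) ≤ ∑ _a ∈ s, Real.exp (-X) :=
          Finset.sum_le_sum h6
      _ = (s.card : ℝ) * Real.exp (-X) := by rw [Finset.sum_const, nsmul_eq_mul]
      _ ≤ (2 ^ (b / 4) + 1) * Real.exp (-X) := by
          apply mul_le_mul_of_nonneg_right _ (Real.exp_pos _).le
          exact_mod_cast hs
  have h8 : (k : ℝ) ≤ 2 ^ (b / 4) := by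
    refine hk'.trans ?_
    calc (L : ℝ) ^ 2 ≤ (L : ℝ) ^ 100 := pow_le_pow_right₀ (by linarith) (by norm_num)
      _ ≤ 2 ^ (b / 4) := by exact_mod_cast h3
  have h9 : (1 : ℝ) ≤ 2 ^ (b / 4) := one_le_pow₀ (by norm_num)
  have h10 : (2 : ℝ) ^ (b / 4) * 2 ^ (b / 4) ≤ X := by
    rw [← pow_add, hX]
    exact pow_le_pow_right₀ (by norm_num) (by omega)
  have h11 : 128 * X ≤ Real.exp X := by
    have := Real.quadratic_le_exp_of_nonneg hXpos.le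
    nlinarith
  calc 64 * (k : ℝ) * ∑ a ∈ s, Real.exp (-((1 / 2 : ℝ) ^ te J b * P a / 4))
      ≤ 64 * (2 ^ (b / 4)) * ((2 ^ (b / 4) + 1) * Real.exp (-X)) := by gcongr
    _ ≤ 64 * (2 ^ (b / 4)) * ((2 ^ (b / 4) + 2 ^ (b / 4)) * Real.exp (-X)) := by gcongr
    _ = 128 * (2 ^ (b / 4) * 2 ^ (b / 4)) * Real.exp (-X) := by ring
    _ ≤ 128 * X * Real.exp (-X) := by gcongr
    _ ≤ Real.exp X * Real.exp (-X) := mul_le_mul_of_nonneg_right h11 (Real.exp_pos _).le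
    _ = 1 := by rw [← Real.exp_add]; simp

end Pool.Agent.NPC
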