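import Pool.Agent.Lib_helper64.NPC.Defs2

/-! # NPC, block F5a: full extensions -/

set_option autoImplicit false

namespace Pool.Agent.NPC

open Pool.Agent.CK

/-- the iterated filling -/
noncomputable def f5aS (N : ℕ) (O : Lang) : ℕ → Lang
  | 0 => O
  | k + 1 => fill1 (N + k) (f5aS N O k)

theorem f5a_ext (N : ℕ) (O : Lang) (k j : ℕ) : Ext (N + k) (f5aS N O k) (f5aS N O (k + j)) := by
  induction j with
  | zero => exact Ext.refl _ _
  | succ j ih => exact ih.trans (fill1_ext (N + (k + j)) (f5aS N O (k + j))) (by omega)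

theorem full_ext (N : ℕ) (O : Lang) : ∃ O', Ext N O O' ∧
    ∀ e z, Adeq e → N ≤ alen e z → Nontriv O' e → Good O' e z := by
  have hext : ∀ k, Ext (N + k) (f5aS N O k) (fun w => f5aS N O (key w + 1 - N) w) := by
    intro k w hw
    show f5aS N O (key w + 1 - N) w = f5aS N O k w
    obtain ⟨j, hj⟩ := Nat.exists_eq_add_of_le (show key w + 1 - N ≤ k by omega)
    rw [hj]
    exact (f5a_ext N O (key w + 1 - N) j w (by omega)).symm
  refine ⟨fun w => f5aS N O (key w + 1 - N) w, hext 0, fun e z he hN hnt => ?_⟩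
  obtain ⟨k, hk⟩ := Nat.exists_eq_add_of_le hN
  exact (fill1_spec (N + k) (f5aS N O k) _ (hext (k + 1))).1 e z he hk hnt

end Pool.Agent.NPC
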