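import Pool.Agent.Lib_helper64.NPC.Defs2
import Pool.Agent.Lib_helper64.NPC.Blk.F5a

/-! # NPC, block F5b: legal extensions -/

set_option autoImplicit false

namespace Pool.Agent.NPC

open Pool.Agent.CK

theorem Good_congr {N e : ℕ} {z : List Bool} {O O' : Lang} (he : Adeq e) (h : Ext N O O')
    (hN : alen e z < N) (hg : Good O e z) : Good O' e z := by
  obtain ⟨q, h1, h2, h3⟩ := hg
  have hw : ∀ w : List Bool, w.length < N → O' w = O w := fun w hw => h w ((key_le w).trans_lt hw)
  refine ⟨q, h1, fun b c => ?_, ?_⟩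
  · rw [h _ (by rw [key_taddr]; exact hN), h2]
  · rw [NL_congr (iC e) O' O q fun w hl => hw w (by omega),
      NL_congr (iN e) O' O z fun w hl => hw w ?_, h3]
    have h4 : (z.length + 2) ^ (iN e + 2) ≤ (z.length + 2) ^ (iN e + 3) :=
      Nat.pow_le_pow_right (by omega) (by omega)
    have h5 := iN_bound he z
    omega

theorem legal_ext {G : Finset (ℕ × ℕ × ℕ)} {n L : ℕ} (hnL : n ≤ L) {O O1 : Lang}
    (hNT : NT G n O) (hO : Ext n O O1) (hL : LegalTo G L O1) :
    ∃ O', Ext L O1 O' ∧ Legal G O' := by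
  obtain ⟨O', h1, h2⟩ := full_ext L O1
  refine ⟨O', h1, fun e he z => ?_⟩
  rcases Nat.lt_or_ge (alen e z) L with h | h
  · exact Good_congr he.1 h1 h (hL e he z h)
  · refine h2 e z he.1 h ?_
    obtain ⟨-, g, hg, hC, -, ha⟩ := he
    obtain ⟨hn, q0, q1, l0, l1, v0, v1⟩ := hNT g hg
    have hw : ∀ w : List Bool, w.length < n → O' w = O w := fun w hw => by
      have hk := key_le w
      rw [h1 w (by omega), hO w (by omega)]
    have hq : ∀ q : List Bool, q.length ≤ g.2.2 → NL (iC e) O' q = NL g.1 O q := by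
      intro q hq
      rw [hC]
      refine NL_congr g.1 O' O q fun w hl => hw w ?_
      have h3 : (q.length + 2) ^ (g.1 + 2) ≤ (g.2.2 + 2) ^ (g.1 + 2) :=
        Nat.pow_le_pow_left (by omega) _
      omega
    exact ⟨q0, q1, l0.trans ha, l1.trans ha, by rw [hq q0 l0, v0], by rw [hq q1 l1, v1]⟩

end Pool.Agent.NPC
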