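import Pool.Agent.Lib_helper64.NPC.Defs2
import Pool.Agent.Lib_helper64.NPC.Blk.F5b

/-!
# NPC, block F5c: the reductions are correct for the oracles of the family
-/

set_option autoImplicit false

namespace Pool.Agent.NPC

open Pool.Agent.CK

theorem f5c_num (N k j : ℕ) (hN : 2 ≤ N) (hk : k ≤ j) : N + N ^ k ≤ N ^ (j + 2) := by
  have h1 : N ^ k ≤ N ^ j := Nat.pow_le_pow_right (by omega) hk
  have h0 : 1 ≤ N ^ j := Nat.one_le_pow _ _ (by omega)
  have h2 : N ^ (j + 2) = N ^ j * N * N := by ring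
  have h3 : 2 * N ^ j ≤ N ^ j * N := by nlinarith
  have h4 : N ≤ N ^ j * N := by nlinarith
  have h5 : 2 * (N ^ j * N) ≤ N ^ j * N * N := by nlinarith
  omega

/-- the reductions in `M` are correct for the oracles of the family -/
theorem fam_cor {G : Finset (ℕ × ℕ × ℕ)} {M : Finset (ℕ × ℕ)} {n L : ℕ} (hnL : n ≤ L) {O : Lang}
    (hNT : NT G n O) (hU : Unk G M n O) (A : Fam L) (hA : FamOK G n O A) (m : ℕ × ℕ) (hm : m ∈ M)
    (x : List Bool) (hx : (x.length + 2) ^ ((m.2 + 2) * (m.1 + 2)) ≤ L) (ω : St) :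
    PL m.2 (join (A.F ω) (NL m.1 (A.F ω))) x = V (A.F ω) x := by
  obtain ⟨O', hE, hLeg⟩ := legal_ext hnL hNT (hA.1 ω) (hA.2 ω)
  have hE2 : Ext n O O' := by
    intro w hw
    rw [hE w (by omega), hA.1 ω w hw]
  have hc : Cor m.1 m.2 O' := hU O' hE2 hLeg m hm
  have hagree : ∀ w : List Bool, w.length < L → O' w = A.F ω w := by
    intro w hw
    exact hE w (by have := key_le w; omega)
  set N := x.length + 2 with hN
  have hN2 : 2 ≤ N := by omega
  have hk : ex m.2 ≤ m.2 := Nat.unpair_right_le m.2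
  have hnum := f5c_num N (ex m.2) m.2 hN2 hk
  have hpow : N ^ (m.2 + 2) ≤ N ^ ((m.2 + 2) * (m.1 + 2)) :=
    Nat.pow_le_pow_right (by omega) (Nat.le_mul_of_pos_right _ (by omega))
  have hV : V O' x = V (A.F ω) x := by
    apply V_congr
    intro w hw
    apply hagree
    have h1 : 2 * N ≤ N ^ (m.2 + 2) := by
      have h2 : N ^ 2 ≤ N ^ (m.2 + 2) := Nat.pow_le_pow_right (by omega) (by omega)
      nlinarith
    omega
  rw [← hV, ← hc x, ← eval_PT, ← eval_PT]
  refine DT.eval_join_congr _ _ (allQ_PT m.2 x) ?_ ?_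
  · intro w hw
    rw [List.length_cons, ← hN] at hw
    exact (hagree w (by omega)).symm
  · intro w hw
    rw [List.length_cons, ← hN] at hw
    apply NL_congr
    intro u hu
    refine (hagree u (hu.trans_le ?_)).symm
    calc (w.length + 2) ^ (m.1 + 2) ≤ (N ^ (m.2 + 2)) ^ (m.1 + 2) :=
          Nat.pow_le_pow_left (by omega) _
      _ = N ^ ((m.2 + 2) * (m.1 + 2)) := by rw [← pow_mul]
      _ ≤ L := hx

end Pool.Agent.NPC
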