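import Pool.Agent.Lib_helper64.NPC.Defs2

/-! # NPC, block A5: product weights -/

set_option autoImplicit false

namespace Pool.Agent.NPC

open Pool.Agent.CK

variable {ι Λ : Type} [DecidableEq ι] [DecidableEq Λ]

theorem wt_prod [Fintype ι] (H : ι → Finset Λ) (p : ι → Bool × Finset Λ → ℝ)
    (φ : ι → Bool × Finset Λ → ℝ) :
    ∑ ρ ∈ RS H, wt p ρ * ∏ r, φ r (ρ r) =
      ∏ r, ∑ x ∈ (Finset.univ : Finset Bool) ×ˢ (H r).powerset, p r x * φ r x := by
  unfold RS wt
  rw [Finset.prod_univ_sum]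
  refine Finset.sum_congr rfl fun ρ _ => ?_
  rw [Finset.prod_mul_distrib]

theorem wt_sum_one [Fintype ι] (H : ι → Finset Λ) (p : ι → Bool × Finset Λ → ℝ)
    (hp : ∀ r, ∑ x ∈ (Finset.univ : Finset Bool) ×ˢ (H r).powerset, p r x = 1) :
    ∑ ρ ∈ RS H, wt p ρ = 1 := by
  have h := wt_prod H p (fun _ _ => 1)
  simp only [Finset.prod_const_one, mul_one] at h
  rw [h]
  exact Finset.prod_eq_one fun r _ => hp r

/-- the product of the weights of all coordinates but one -/
noncomputable def a5_W [Fintype ι] (p : ι → Bool × Finset Λ → ℝ) (u : ι) (ρ : Rst ι Λ) : ℝ :=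
  ∏ r ∈ Finset.univ.erase u, p r (ρ r)

omit [DecidableEq Λ] in
theorem a5_wt_update [Fintype ι] (p : ι → Bool × Finset Λ → ℝ) (u : ι) (ρ : Rst ι Λ)
    (x : Bool × Finset Λ) : wt p (Function.update ρ u x) = p u x * a5_W p u ρ := by
  unfold wt a5_W
  rw [← Finset.mul_prod_erase Finset.univ _ (Finset.mem_univ u), Function.update_self]
  congr 1
  refine Finset.prod_congr rfl fun r hr => ?_
  rw [Function.update_of_ne (Finset.ne_of_mem_erase hr)]

omit [DecidableEq Λ] in
theorem a5_W_update [Fintype ι] (p : ι → Bool × Finset Λ → ℝ) (u : ι) (ρ : Rst ι Λ)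
    (q : Bool × Finset Λ → ℝ) : a5_W (Function.update p u q) u ρ = a5_W p u ρ := by
  unfold a5_W
  refine Finset.prod_congr rfl fun r hr => ?_
  rw [Function.update_of_ne (Finset.ne_of_mem_erase hr)]

omit [DecidableEq Λ] in
theorem a5_mem_RS [Fintype ι] (H : ι → Finset Λ) (ρ : Rst ι Λ) :
    ρ ∈ RS H ↔ ∀ r, (ρ r).2 ⊆ H r := by
  unfold RS
  simp [Fintype.mem_piFinset]

/-- splitting off one coordinate -/
theorem a5_split [Fintype ι] (H : ι → Finset Λ) (u : ι) (F : Rst ι Λ → ℝ) :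
    ∑ ρ ∈ RS H, F ρ =
      ∑ x ∈ (Finset.univ : Finset Bool) ×ˢ (H u).powerset,
        ∑ ρ ∈ (RS H).filter (fun ρ => ρ u = (true, ∅)), F (Function.update ρ u x) := by
  rw [← Finset.sum_product']
  refine Finset.sum_nbij' (fun ρ => (ρ u, Function.update ρ u (true, ∅)))
    (fun y => Function.update y.2 u y.1) ?_ ?_ ?_ ?_ ?_
  · intro ρ hρ
    rw [a5_mem_RS] at hρ
    rw [Finset.mem_product, Finset.mem_filter, a5_mem_RS]
    refine ⟨?_, ?_, ?_⟩
    · rw [Finset.mem_product]
      exact ⟨Finset.mem_univ _, Finset.mem_powerset.2 (hρ u)⟩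
    · intro r
      by_cases hr : r = u
      · subst hr
        simp
      · simp only [Function.update_of_ne hr]
        exact hρ r
    · simp
  · intro y hy
    rw [Finset.mem_product, Finset.mem_filter, a5_mem_RS, Finset.mem_product] at hy
    obtain ⟨⟨-, h1⟩, h2, -⟩ := hy
    rw [a5_mem_RS]
    intro r
    by_cases hr : r = u
    · subst hr
      simp only [Function.update_self]
      exact Finset.mem_powerset.1 h1
    · simp only [Function.update_of_ne hr]
      exact h2 r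
  · intro ρ _
    simp
  · intro y hy
    rw [Finset.mem_product, Finset.mem_filter] at hy
    obtain ⟨-, -, h3⟩ := hy
    refine Prod.ext ?_ ?_
    · simp
    · simp only [Function.update_idem]
      rw [← h3, Function.update_eq_self]
  · intro ρ _
    simp

theorem a5_sum [Fintype ι] (H : ι → Finset Λ) (p : ι → Bool × Finset Λ → ℝ) (u : ι)
    (G : Bool × Finset Λ → ℝ) (K : Rst ι Λ → ℝ) (F : Rst ι Λ → ℝ)
    (hF : ∀ ρ x, F (Function.update ρ u x) = G x * K ρ) :
    ∑ ρ ∈ RS H, wt p ρ * F ρ =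
      (∑ x ∈ (Finset.univ : Finset Bool) ×ˢ (H u).powerset, p u x * G x) *
        ∑ ρ ∈ (RS H).filter (fun ρ => ρ u = (true, ∅)), a5_W p u ρ * K ρ := by
  rw [a5_split H u, Finset.sum_mul_sum]
  refine Finset.sum_congr rfl fun x _ => Finset.sum_congr rfl fun ρ _ => ?_
  rw [a5_wt_update, hF]
  ring

/-- independence of one coordinate from the others -/
theorem wt_indep [Fintype ι] (H : ι → Finset Λ) (p : ι → Bool × Finset Λ → ℝ)
    (hp : ∀ r, ∑ x ∈ (Finset.univ : Finset Bool) ×ˢ (H r).powerset, p r x = 1)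
    (u : ι) (φ : Bool × Finset Λ → ℝ) (ψ : Rst ι Λ → ℝ)
    (hψ : ∀ ρ x, ψ (Function.update ρ u x) = ψ ρ) :
    ∑ ρ ∈ RS H, wt p ρ * (φ (ρ u) * ψ ρ) =
      (∑ x ∈ (Finset.univ : Finset Bool) ×ˢ (H u).powerset, p u x * φ x) *
        ∑ ρ ∈ RS H, wt p ρ * ψ ρ := by
  have h1 := a5_sum H p u φ ψ (fun ρ => φ (ρ u) * ψ ρ) (by
    intro ρ x
    simp only [Function.update_self, hψ])
  have h2 := a5_sum H p u (fun _ => 1) ψ ψ (by
    intro ρ x
    rw [hψ, one_mul])
  simp only [mul_one] at h2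
  rw [hp u, one_mul] at h2
  rw [h1, h2]

open Classical in
/-- pinning one coordinate -/
theorem wt_pin [Fintype ι] (H : ι → Finset Λ) (p : ι → Bool × Finset Λ → ℝ)
    (hp : ∀ r, ∑ x ∈ (Finset.univ : Finset Bool) ×ˢ (H r).powerset, p r x = 1)
    (u : ι) (a : Bool × Finset Λ) (ha : a.2 ⊆ H u) (ψ : Rst ι Λ → ℝ) :
    ∑ ρ ∈ RS H, wt p ρ * ψ (Function.update ρ u a) =
      ∑ ρ ∈ RS H, wt (Function.update p u (fun x => if x = a then 1 else 0)) ρ * ψ ρ := by
  have h1 := a5_sum H p u (fun _ => 1) (fun ρ => ψ (Function.update ρ u a))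
    (fun ρ => ψ (Function.update ρ u a)) (by
    intro ρ x
    simp only [Function.update_idem, one_mul])
  simp only [mul_one] at h1
  rw [hp u, one_mul] at h1
  rw [h1, a5_split H u]
  have hmem : a ∈ (Finset.univ : Finset Bool) ×ˢ (H u).powerset := by
    rw [Finset.mem_product]
    exact ⟨Finset.mem_univ _, Finset.mem_powerset.2 ha⟩
  rw [Finset.sum_eq_single_of_mem a hmem]
  · refine Finset.sum_congr rfl fun ρ _ => ?_
    rw [a5_wt_update, a5_W_update, Function.update_self, if_pos rfl, one_mul]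
  · intro x _ hx
    refine Finset.sum_eq_zero fun ρ _ => ?_
    rw [a5_wt_update, Function.update_self, if_neg hx, zero_mul, zero_mul]

end Pool.Agent.NPC
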