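import Pool.Agent.Lib_helper64.NPC.Defs2

/-! # NPC, block A4: lower tails of the binomial distribution -/

set_option autoImplicit false

namespace Pool.Agent.NPC

/-- the weights of the random subset -/
theorem sub_sum_one {α : Type} [DecidableEq α] (P : Finset α) (η : ℝ) :
    ∑ S ∈ P.powerset, η ^ S.card * (1 - η) ^ (P.card - S.card) = 1 := by
  rw [Finset.sum_pow_mul_eq_add_pow]
  simp

/-- exponential moment of the part of the random subset in `P` -/
theorem A4_moment {α : Type} [DecidableEq α] (H P : Finset α) (hP : P ⊆ H) (η y : ℝ) :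
    ∑ S ∈ H.powerset, η ^ S.card * (1 - η) ^ (H.card - S.card) * y ^ (S ∩ P).card =
      (η * y + (1 - η)) ^ P.card := by
  have h1 := Finset.prod_add (fun i => η * (if i ∈ P then y else 1)) (fun _ : α => 1 - η) H
  have h2 : ∀ S ∈ H.powerset,
      (∏ i ∈ S, η * (if i ∈ P then y else 1)) * ∏ i ∈ H \ S, (1 - η) =
        η ^ S.card * (1 - η) ^ (H.card - S.card) * y ^ (S ∩ P).card := by
    intro S hS
    rw [Finset.mem_powerset] at hS
    rw [Finset.prod_mul_distrib, Finset.prod_const, Finset.prod_const, Finset.card_sdiff_of_subset hS,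
      Finset.prod_ite_mem, Finset.prod_const]
    ring
  rw [Finset.sum_congr rfl h2] at h1
  rw [← h1]
  have h3 : ∀ i ∈ H, η * (if i ∈ P then y else 1) + (1 - η) =
      if i ∈ P then η * y + (1 - η) else 1 := by
    intro i _
    split_ifs <;> ring
  rw [Finset.prod_congr rfl h3, Finset.prod_ite_mem, Finset.prod_const,
    Finset.inter_eq_right.2 hP]

open Classical in
/-- the same for the part of a random subset of `H` that lies in `P` -/
theorem tail_inter {α : Type} [DecidableEq α] (H P : Finset α) (hP : P ⊆ H) (η : ℝ) (h0 : 0 ≤ η)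
    (h1 : η ≤ 1) :
    ∑ S ∈ H.powerset.filter (fun S => 4 * ((S ∩ P).card : ℝ) < η * P.card),
      η ^ S.card * (1 - η) ^ (H.card - S.card) ≤ Real.exp (-(η * P.card / 4)) := by
  have hw : ∀ S : Finset α, 0 ≤ η ^ S.card * (1 - η) ^ (H.card - S.card) := fun S =>
    mul_nonneg (pow_nonneg h0 _) (pow_nonneg (by linarith) _)
  set y : ℝ := Real.exp (-1) with hy
  have hy0 : 0 < y := Real.exp_pos _
  have hy1 : y ≤ 1 / 2 := by
    rw [hy, Real.exp_neg]
    have : (2 : ℝ) ≤ Real.exp 1 := by
      have := Real.add_one_le_exp (1 : ℝ)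
      linarith
    rw [one_div]
    exact inv_anti₀ (by norm_num) this
  calc ∑ S ∈ H.powerset.filter (fun S => 4 * ((S ∩ P).card : ℝ) < η * P.card),
        η ^ S.card * (1 - η) ^ (H.card - S.card)
      ≤ ∑ S ∈ H.powerset.filter (fun S => 4 * ((S ∩ P).card : ℝ) < η * P.card),
        Real.exp (η * P.card / 4) *
          (η ^ S.card * (1 - η) ^ (H.card - S.card) * y ^ (S ∩ P).card) := by
        refine Finset.sum_le_sum fun S hS => ?_
        rw [Finset.mem_filter] at hS
        have h2 : 1 ≤ Real.exp (η * P.card / 4) * y ^ (S ∩ P).card := by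
          rw [hy, ← Real.exp_nat_mul, ← Real.exp_add]
          apply Real.one_le_exp
          linarith [hS.2]
        have := mul_le_mul_of_nonneg_left h2 (hw S)
        linarith [this]
    _ ≤ ∑ S ∈ H.powerset, Real.exp (η * P.card / 4) *
          (η ^ S.card * (1 - η) ^ (H.card - S.card) * y ^ (S ∩ P).card) := by
        refine Finset.sum_le_sum_of_subset_of_nonneg (Finset.filter_subset _ _) fun S _ _ => ?_
        exact mul_nonneg (Real.exp_pos _).le (mul_nonneg (hw S) (pow_nonneg hy0.le _))
    _ = Real.exp (η * P.card / 4) * (η * y + (1 - η)) ^ P.card := by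
        rw [← Finset.mul_sum, A4_moment H P hP]
    _ ≤ Real.exp (η * P.card / 4) * Real.exp (-(η / 2)) ^ P.card := by
        refine mul_le_mul_of_nonneg_left ?_ (Real.exp_pos _).le
        refine pow_le_pow_left₀ ?_ ?_ _
        · have := mul_nonneg h0 hy0.le
          linarith
        · have h3 := Real.add_one_le_exp (-(η / 2))
          have h4 := mul_le_mul_of_nonneg_left hy1 h0
          linarith
    _ = Real.exp (-(η * P.card / 4)) := by
        rw [← Real.exp_nat_mul, ← Real.exp_add]
        congr 1
        ring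

open Classical in
/-- lower tail of the binomial distribution -/
theorem tail {α : Type} [DecidableEq α] (P : Finset α) (η : ℝ) (h0 : 0 ≤ η) (h1 : η ≤ 1) :
    ∑ S ∈ P.powerset.filter (fun S => 4 * (S.card : ℝ) < η * P.card),
      η ^ S.card * (1 - η) ^ (P.card - S.card) ≤ Real.exp (-(η * P.card / 4)) := by
  have h := tail_inter P P (Finset.Subset.refl P) η h0 h1
  have h2 : P.powerset.filter (fun S => 4 * (S.card : ℝ) < η * P.card) =
      P.powerset.filter (fun S => 4 * ((S ∩ P).card : ℝ) < η * P.card) := by
    apply Finset.filter_congr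
    intro S hS
    rw [Finset.inter_eq_left.2 (Finset.mem_powerset.1 hS)]
  rw [h2]
  exact h

end Pool.Agent.NPC
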