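import Pool.Agent.Lib_helper64.NPC.Defs2
import Pool.Agent.Lib_helper64.NPC.Blk.A4

set_option autoImplicit false
set_option linter.unusedSectionVars false

namespace Pool.Agent.NPC

open Pool.Agent.CK

variable {ι Λ : Type} [DecidableEq ι] [DecidableEq Λ]

theorem pw_nonneg (θ : ℝ) (h0 : 0 ≤ θ) (h1 : θ ≤ 1) (η : ι → ℝ) (hη : ∀ r, 0 ≤ η r)
    (hη' : ∀ r, η r ≤ 1) (H : ι → Finset Λ) (r : ι) (x : Bool × Finset Λ) :
    0 ≤ pw θ η H r x := by
  have h2 : 0 ≤ 1 - η r := sub_nonneg.mpr (hη' r)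
  have h3 := hη r
  unfold pw
  split_ifs
  · positivity
  · have h4 : 0 ≤ 1 - θ := sub_nonneg.mpr h1
    positivity

theorem pw_sum (θ : ℝ) (η : ι → ℝ) (H : ι → Finset Λ) (r : ι) (φ : Bool → ℝ)
    (χ : Finset Λ → ℝ) :
    ∑ x ∈ (Finset.univ : Finset Bool) ×ˢ (H r).powerset, pw θ η H r x * (φ x.1 * χ x.2) =
      (θ * φ true + (1 - θ) * φ false) *
        ∑ S ∈ (H r).powerset, η r ^ S.card * (1 - η r) ^ ((H r).card - S.card) * χ S := by
  rw [Finset.sum_product, Fintype.sum_bool, add_mul, Finset.mul_sum, Finset.mul_sum]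
  congr 1
  · refine Finset.sum_congr rfl fun S _ => ?_
    unfold pw
    rw [if_pos rfl]
    ring
  · refine Finset.sum_congr rfl fun S _ => ?_
    unfold pw
    rw [if_neg (by simp)]
    ring

theorem pw_sum_one (θ : ℝ) (η : ι → ℝ) (H : ι → Finset Λ) (r : ι) :
    ∑ x ∈ (Finset.univ : Finset Bool) ×ˢ (H r).powerset, pw θ η H r x = 1 := by
  have h1 := pw_sum θ η H r (fun _ => 1) (fun _ => 1)
  simp only [mul_one] at h1
  rw [h1, sub_sum_one]
  ring

theorem pw_mem (η : ι → ℝ) (H : ι → Finset Λ) (r : ι) (l : Λ) (hl : l ∈ H r) :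
    ∑ S ∈ (H r).powerset, η r ^ S.card * (1 - η r) ^ ((H r).card - S.card) *
      (if l ∈ S then 1 else 0) = η r := by
  have hnot : l ∉ (H r).erase l := Finset.notMem_erase l _
  have hH : H r = insert l ((H r).erase l) := (Finset.insert_erase hl).symm
  have hcard : (H r).card = ((H r).erase l).card + 1 := by
    conv_lhs => rw [hH]
    rw [Finset.card_insert_of_notMem hnot]
  have key : ∀ f : Finset Λ → ℝ, ∑ S ∈ (H r).powerset, f S =
      ∑ S ∈ ((H r).erase l).powerset, f S + ∑ S ∈ ((H r).erase l).powerset, f (insert l S) := by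
    intro f
    conv_lhs => rw [hH]
    exact Finset.sum_powerset_insert hnot f
  rw [key]
  have h1 : ∑ S ∈ ((H r).erase l).powerset, η r ^ S.card * (1 - η r) ^ ((H r).card - S.card) *
      (if l ∈ S then 1 else 0) = 0 := by
    refine Finset.sum_eq_zero fun S hS => ?_
    rw [if_neg (fun h => hnot (Finset.mem_powerset.mp hS h)), mul_zero]
  rw [h1, zero_add]
  have h2 : ∀ S ∈ ((H r).erase l).powerset, η r ^ (insert l S).card *
      (1 - η r) ^ ((H r).card - (insert l S).card) * (if l ∈ insert l S then 1 else 0) =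
      η r * (η r ^ S.card * (1 - η r) ^ (((H r).erase l).card - S.card)) := by
    intro S hS
    have hlS : l ∉ S := fun h => hnot (Finset.mem_powerset.mp hS h)
    rw [if_pos (Finset.mem_insert_self l S), Finset.card_insert_of_notMem hlS, hcard,
      Nat.add_sub_add_right, pow_succ]
    ring
  rw [Finset.sum_congr rfl h2, ← Finset.mul_sum, sub_sum_one, mul_one]

theorem pw_ratio (θ : ℝ) (h0 : 0 ≤ θ) (h1 : θ ≤ 1 / 2) (η : ι → ℝ) (hη : ∀ r, 0 ≤ η r)
    (hη' : ∀ r, η r ≤ 1 / 2) (x : ℝ) (hx : ∀ r, 2 * η r ≤ x) (H : ι → Finset Λ) (r : ι)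
    (S Z : Finset Λ) (hS : S ∪ Z ⊆ H r) (hd : Disjoint S Z) :
    pw θ η H r (true, S ∪ Z) ≤ (2 * θ) * x ^ Z.card * pw θ η H r (false, S) := by
  have hc : (S ∪ Z).card = S.card + Z.card := Finset.card_union_of_disjoint hd
  have hle : S.card + Z.card ≤ (H r).card := by rw [← hc]; exact Finset.card_le_card hS
  obtain ⟨k, hk⟩ := Nat.exists_eq_add_of_le hle
  have e1 : (H r).card - (S.card + Z.card) = k := by omega
  have e2 : (H r).card - S.card = Z.card + k := by omega
  unfold pw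
  simp only [if_true]
  rw [hc, e1, e2, if_neg (by simp)]
  have ha := hη r
  have hb := hη' r
  have hx1 := hx r
  have h2 : 0 ≤ 1 - η r := by linarith
  have hx0 : 0 ≤ x := by linarith
  have h3 : η r ≤ x * (1 - η r) := by nlinarith
  have h4 : η r ^ Z.card ≤ (x * (1 - η r)) ^ Z.card := pow_le_pow_left₀ ha h3 _
  rw [mul_pow] at h4
  have h5 : 0 ≤ η r ^ S.card * (1 - η r) ^ k := by positivity
  have h6 : θ ≤ 2 * θ * (1 - θ) := by nlinarith
  have h7 : 0 ≤ x ^ Z.card * (1 - η r) ^ Z.card := by positivity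
  have h8 : θ * η r ^ Z.card ≤ (2 * θ * (1 - θ)) * (x ^ Z.card * (1 - η r) ^ Z.card) :=
    mul_le_mul h6 h4 (by positivity) (le_trans h0 h6)
  calc θ * (η r ^ (S.card + Z.card) * (1 - η r) ^ k)
      = (θ * η r ^ Z.card) * (η r ^ S.card * (1 - η r) ^ k) := by rw [pow_add]; ring
    _ ≤ ((2 * θ * (1 - θ)) * (x ^ Z.card * (1 - η r) ^ Z.card)) *
        (η r ^ S.card * (1 - η r) ^ k) := mul_le_mul_of_nonneg_right h8 h5
    _ = 2 * θ * x ^ Z.card * ((1 - θ) * (η r ^ S.card * (1 - η r) ^ (Z.card + k))) := by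
        rw [pow_add]; ring

end Pool.Agent.NPC
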