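import Pool.Agent.Lib_helper64.NPC.Defs2
import Pool.Agent.Lib_helper64.NPC.Blk.A4
import Pool.Agent.Lib_helper64.NPC.Blk.A5
import Pool.Agent.Lib_helper64.NPC.Blk.A6

set_option autoImplicit false
set_option linter.unusedSectionVars false

namespace Pool.Agent.NPC

open Pool.Agent.CK

variable {ι Λ : Type} [DecidableEq ι] [DecidableEq Λ]

open Classical in
theorem alive_tail [Fintype ι] (H : ι → Finset Λ) (θ : ℝ) (h0 : 0 ≤ θ) (h1 : θ ≤ 1)
    (η : ι → ℝ) (hη : ∀ r, 0 ≤ η r) (hη' : ∀ r, η r ≤ 1) (R : Finset ι) :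
    ∑ ρ ∈ (RS H).filter (fun ρ => 4 * ((R.filter fun r => (ρ r).1 = true).card : ℝ) < θ * R.card),
      wt (pw θ η H) ρ ≤ Real.exp (-(θ * R.card / 4)) := by
  have hwt : ∀ ρ : Rst ι Λ, 0 ≤ wt (pw θ η H) ρ := fun ρ =>
    Finset.prod_nonneg fun r _ => pw_nonneg θ h0 h1 η hη hη' H r (ρ r)
  let φ : ι → Bool × Finset Λ → ℝ := fun r x =>
    if r ∈ R then (if x.1 = true then 1 / 2 else 1) else 1
  have hprod : ∀ ρ : Rst ι Λ, ∏ r, φ r (ρ r) =
      (1 / 2 : ℝ) ^ (R.filter fun r => (ρ r).1 = true).card := by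
    intro ρ
    have e1 : ∏ r, φ r (ρ r) = ∏ r ∈ R, (if (ρ r).1 = true then (1 / 2 : ℝ) else 1) := by
      rw [← Finset.prod_filter_mul_prod_filter_not Finset.univ (fun r => r ∈ R)]
      have e2 : ∏ r ∈ Finset.univ.filter (fun r => ¬ r ∈ R), φ r (ρ r) = 1 := by
        refine Finset.prod_eq_one fun r hr => ?_
        exact if_neg (Finset.mem_filter.mp hr).2
      rw [e2, mul_one, Finset.filter_mem_eq_inter, Finset.univ_inter]
      refine Finset.prod_congr rfl fun r hr => ?_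
      exact if_pos hr
    rw [e1, Finset.prod_ite, Finset.prod_const, Finset.prod_const_one, mul_one]
  have hE0 : 0 ≤ Real.exp (θ * R.card / 4) := (Real.exp_pos _).le
  have hhalf : Real.exp (-1) ≤ 1 / 2 := by
    have h3 := Real.add_one_le_exp (1 : ℝ)
    rw [Real.exp_neg, inv_eq_one_div]
    exact one_div_le_one_div_of_le (by norm_num) (by linarith)
  have hle : ∀ ρ ∈ (RS H).filter
      (fun ρ => 4 * ((R.filter fun r => (ρ r).1 = true).card : ℝ) < θ * R.card),
      wt (pw θ η H) ρ ≤ Real.exp (θ * R.card / 4) * (wt (pw θ η H) ρ * ∏ r, φ r (ρ r)) := by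
    intro ρ hρ
    have h2 := (Finset.mem_filter.mp hρ).2
    rw [hprod]
    set N := (R.filter fun r => (ρ r).1 = true).card
    have h4 : Real.exp (-(N : ℝ)) ≤ (1 / 2 : ℝ) ^ N := by
      have : Real.exp (-(N : ℝ)) = Real.exp (-1) ^ N := by
        rw [← Real.exp_nat_mul]; congr 1; ring
      rw [this]
      exact pow_le_pow_left₀ (Real.exp_pos _).le hhalf N
    have h5 : 1 ≤ Real.exp (θ * R.card / 4) * (1 / 2 : ℝ) ^ N := by
      calc (1 : ℝ) ≤ Real.exp (θ * R.card / 4 + -(N : ℝ)) := by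
            rw [← Real.exp_zero]
            exact Real.exp_le_exp.mpr (by linarith)
        _ = Real.exp (θ * R.card / 4) * Real.exp (-(N : ℝ)) := Real.exp_add _ _
        _ ≤ _ := mul_le_mul_of_nonneg_left h4 hE0
    calc wt (pw θ η H) ρ = wt (pw θ η H) ρ * 1 := (mul_one _).symm
      _ ≤ wt (pw θ η H) ρ * (Real.exp (θ * R.card / 4) * (1 / 2 : ℝ) ^ N) :=
          mul_le_mul_of_nonneg_left h5 (hwt ρ)
      _ = _ := by ring
  have hφ0 : ∀ (r : ι) (x : Bool × Finset Λ), 0 ≤ φ r x := by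
    intro r x
    show 0 ≤ (if r ∈ R then (if x.1 = true then (1 / 2 : ℝ) else 1) else 1)
    split_ifs <;> norm_num
  have hsum : ∑ ρ ∈ RS H, wt (pw θ η H) ρ * ∏ r, φ r (ρ r) = (1 - θ / 2) ^ R.card := by
    rw [wt_prod]
    have e3 : ∀ r, ∑ x ∈ (Finset.univ : Finset Bool) ×ˢ (H r).powerset,
        pw θ η H r x * φ r x = if r ∈ R then 1 - θ / 2 else 1 := by
      intro r
      split_ifs with hr
      · have h6 := pw_sum θ η H r (fun b => if b = true then 1 / 2 else 1) (fun _ => 1)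
        simp only [mul_one, if_true, sub_sum_one] at h6
        rw [if_neg (by simp)] at h6
        have h7 : ∀ x ∈ (Finset.univ : Finset Bool) ×ˢ (H r).powerset,
            pw θ η H r x * φ r x = pw θ η H r x * (if x.1 = true then 1 / 2 else 1) := by
          intro x _
          congr 1
          exact if_pos hr
        rw [Finset.sum_congr rfl h7, h6]
        ring
      · have h7 : ∀ x ∈ (Finset.univ : Finset Bool) ×ˢ (H r).powerset,
            pw θ η H r x * φ r x = pw θ η H r x := by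
          intro x _
          have : φ r x = 1 := if_neg hr
          rw [this, mul_one]
        rw [Finset.sum_congr rfl h7, pw_sum_one]
    rw [Finset.prod_congr rfl fun r _ => e3 r, Finset.prod_ite, Finset.prod_const,
      Finset.prod_const_one, mul_one, Finset.filter_mem_eq_inter, Finset.univ_inter]
  calc ∑ ρ ∈ (RS H).filter
        (fun ρ => 4 * ((R.filter fun r => (ρ r).1 = true).card : ℝ) < θ * R.card),
        wt (pw θ η H) ρ
      ≤ ∑ ρ ∈ (RS H).filter
        (fun ρ => 4 * ((R.filter fun r => (ρ r).1 = true).card : ℝ) < θ * R.card),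
        Real.exp (θ * R.card / 4) * (wt (pw θ η H) ρ * ∏ r, φ r (ρ r)) := Finset.sum_le_sum hle
    _ ≤ ∑ ρ ∈ RS H, Real.exp (θ * R.card / 4) * (wt (pw θ η H) ρ * ∏ r, φ r (ρ r)) :=
        Finset.sum_le_sum_of_subset_of_nonneg (Finset.filter_subset _ _) fun ρ _ _ =>
          mul_nonneg hE0 (mul_nonneg (hwt ρ) (Finset.prod_nonneg fun r _ => hφ0 r (ρ r)))
    _ = Real.exp (θ * R.card / 4) * (1 - θ / 2) ^ R.card := by rw [← Finset.mul_sum, hsum]
    _ ≤ Real.exp (θ * R.card / 4) * Real.exp (-(θ * R.card / 2)) := by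
        refine mul_le_mul_of_nonneg_left ?_ hE0
        have h8 : 1 - θ / 2 ≤ Real.exp (-(θ / 2)) := by
          have := Real.add_one_le_exp (-(θ / 2)); linarith
        have h9 : Real.exp (-(θ * R.card / 2)) = Real.exp (-(θ / 2)) ^ R.card := by
          rw [← Real.exp_nat_mul]; congr 1; ring
        rw [h9]
        exact pow_le_pow_left₀ (by linarith) h8 _
    _ = Real.exp (-(θ * R.card / 4)) := by
        rw [← Real.exp_add]; congr 1; ring

open Classical in
theorem hbig_tail [Fintype ι] (H : ι → Finset Λ) (cls : ι → Finset (Finset Λ))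
    (hcls : ∀ r, ∀ P ∈ cls r, P ⊆ H r) (θ : ℝ) (h0 : 0 ≤ θ) (h1 : θ ≤ 1)
    (η : ι → ℝ) (hη : ∀ r, 0 ≤ η r) (hη' : ∀ r, η r ≤ 1) (u : ι) :
    ∑ ρ ∈ (RS H).filter (fun ρ => (ρ u).1 = true ∧ ¬ HBig η cls ρ u),
      wt (pw θ η H) ρ ≤ θ * ∑ P ∈ cls u, Real.exp (-(η u * P.card / 4)) := by
  have hwt : ∀ ρ : Rst ι Λ, 0 ≤ wt (pw θ η H) ρ := fun ρ =>
    Finset.prod_nonneg fun r _ => pw_nonneg θ h0 h1 η hη hη' H r (ρ r)
  let φ : Finset Λ → Bool × Finset Λ → ℝ := fun P x =>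
    (if x.1 = true then 1 else 0) *
      (if 4 * ((x.2 ∩ P).card : ℝ) < η u * P.card then 1 else 0)
  have hφ0 : ∀ P x, 0 ≤ φ P x := by
    intro P x
    show 0 ≤ (if x.1 = true then (1 : ℝ) else 0) *
      (if 4 * ((x.2 ∩ P).card : ℝ) < η u * P.card then 1 else 0)
    split_ifs <;> norm_num
  have hle : ∀ ρ ∈ (RS H).filter (fun ρ => (ρ u).1 = true ∧ ¬ HBig η cls ρ u),
      wt (pw θ η H) ρ ≤ ∑ P ∈ cls u, wt (pw θ η H) ρ * (φ P (ρ u) * 1) := by
    intro ρ hρ
    obtain ⟨_, ha, hb⟩ := Finset.mem_filter.mp hρ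
    unfold HBig at hb
    push Not at hb
    obtain ⟨P, hP, hlt⟩ := hb
    have h2 : wt (pw θ η H) ρ * (φ P (ρ u) * 1) = wt (pw θ η H) ρ := by
      have : φ P (ρ u) = 1 := by
        show (if (ρ u).1 = true then (1 : ℝ) else 0) *
          (if 4 * (((ρ u).2 ∩ P).card : ℝ) < η u * P.card then 1 else 0) = 1
        rw [if_pos ha, if_pos hlt, mul_one]
      rw [this, mul_one, mul_one]
    calc wt (pw θ η H) ρ = wt (pw θ η H) ρ * (φ P (ρ u) * 1) := h2.symm
      _ ≤ _ := Finset.single_le_sum (f := fun P => wt (pw θ η H) ρ * (φ P (ρ u) * 1))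
          (fun Q _ => mul_nonneg (hwt ρ) (mul_nonneg (hφ0 Q _) zero_le_one)) hP
  have hone : ∀ r, ∑ x ∈ (Finset.univ : Finset Bool) ×ˢ (H r).powerset, pw θ η H r x = 1 :=
    fun r => pw_sum_one θ η H r
  have hP : ∀ P ∈ cls u, ∑ ρ ∈ RS H, wt (pw θ η H) ρ * (φ P (ρ u) * 1) ≤
      θ * Real.exp (-(η u * P.card / 4)) := by
    intro P hP
    have h3 := wt_indep H (pw θ η H) hone u (φ P) (fun _ => 1) (fun _ _ => rfl)
    simp only [mul_one] at h3 ⊢
    rw [h3, wt_sum_one H (pw θ η H) hone, mul_one]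
    have h4 := pw_sum θ η H u (fun b => if b = true then 1 else 0)
      (fun S => if 4 * ((S ∩ P).card : ℝ) < η u * P.card then 1 else 0)
    have h5 : ∑ x ∈ (Finset.univ : Finset Bool) ×ˢ (H u).powerset, pw θ η H u x * φ P x =
        θ * ∑ S ∈ (H u).powerset, η u ^ S.card * (1 - η u) ^ ((H u).card - S.card) *
          (if 4 * ((S ∩ P).card : ℝ) < η u * P.card then 1 else 0) := by
      refine Eq.trans ?_ (h4.trans ?_)
      · rfl
      · rw [if_pos rfl, if_neg (by simp)]; ring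
    rw [h5]
    refine mul_le_mul_of_nonneg_left ?_ h0
    have h6 := tail_inter (H u) P (hcls u P hP) (η u) (hη u) (hη' u)
    rw [Finset.sum_filter] at h6
    refine le_trans (le_of_eq ?_) h6
    refine Finset.sum_congr rfl fun S _ => ?_
    split_ifs
    · rw [mul_one]
    · rw [mul_zero]
  calc ∑ ρ ∈ (RS H).filter (fun ρ => (ρ u).1 = true ∧ ¬ HBig η cls ρ u), wt (pw θ η H) ρ
      ≤ ∑ ρ ∈ (RS H).filter (fun ρ => (ρ u).1 = true ∧ ¬ HBig η cls ρ u),
        ∑ P ∈ cls u, wt (pw θ η H) ρ * (φ P (ρ u) * 1) := Finset.sum_le_sum hle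
    _ ≤ ∑ ρ ∈ RS H, ∑ P ∈ cls u, wt (pw θ η H) ρ * (φ P (ρ u) * 1) :=
        Finset.sum_le_sum_of_subset_of_nonneg (Finset.filter_subset _ _) fun ρ _ _ =>
          Finset.sum_nonneg fun P _ => mul_nonneg (hwt ρ) (mul_nonneg (hφ0 P _) zero_le_one)
    _ = ∑ P ∈ cls u, ∑ ρ ∈ RS H, wt (pw θ η H) ρ * (φ P (ρ u) * 1) := Finset.sum_comm
    _ ≤ ∑ P ∈ cls u, θ * Real.exp (-(η u * P.card / 4)) := Finset.sum_le_sum hP
    _ = θ * ∑ P ∈ cls u, Real.exp (-(η u * P.card / 4)) := by rw [Finset.mul_sum]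

end Pool.Agent.NPC
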