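import Pool.Agent.Lib_helper64.NPC.Defs2

/-! # NPC, block A2: the one-slot switching lemma -/

set_option autoImplicit false
set_option linter.unusedSectionVars false

namespace Pool.Agent.NPC

open Pool.Agent.CK

section A2

variable {ι Λ : Type} [DecidableEq ι] [DecidableEq Λ]

open Classical in
/-- the first non-falsified term -/
noncomputable def a2F (ρ : Rst ι Λ) : List (Term ι Λ × Bool) → Option (Term ι Λ)
  | [] => none
  | a :: L => if a.1.Fals ρ then a2F ρ L else some a.1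

theorem a2F_spec (ρ : Rst ι Λ) (q : List (Term ι Λ × Bool)) (π : Term ι Λ)
    (h : a2F ρ q = some π) : ¬ π.Fals ρ ∧ ∃ a ∈ q, a.1 = π := by
  induction q with
  | nil => simp [a2F] at h
  | cons a L ih =>
    unfold a2F at h
    split_ifs at h with hf
    · obtain ⟨h1, b, hb, h2⟩ := ih h
      exact ⟨h1, b, List.mem_cons_of_mem _ hb, h2⟩
    · have h1 : a.1 = π := Option.some.inj h
      exact ⟨h1 ▸ hf, a, List.mem_cons_self, h1⟩

theorem a2F_none (ρ : Rst ι Λ) (q : List (Term ι Λ × Bool)) (h : res ρ q = none) :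
    ∃ π, a2F ρ q = some π ∧ ¬ π.Sat ρ := by
  induction q with
  | nil => simp [res] at h
  | cons a L ih =>
    unfold res at h
    unfold a2F
    split_ifs at h ⊢ with hf hs
    · exact ih h
    · exact ⟨a.1, rfl, hs⟩

theorem a2F_upd (ρ ρ' : Rst ι Λ) (hm : ∀ π : Term ι Λ, π.Fals ρ → π.Fals ρ')
    (q : List (Term ι Λ × Bool)) (π : Term ι Λ) (h : a2F ρ q = some π) (hn : ¬ π.Fals ρ') :
    a2F ρ' q = some π := by
  induction q with
  | nil => simp [a2F] at h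
  | cons a L ih =>
    unfold a2F at h ⊢
    split_ifs at h with hf
    · rw [if_pos (hm _ hf)]
      exact ih h
    · have h1 : a.1 = π := Option.some.inj h
      rw [h1, if_neg hn]

theorem a2_fals_mono (ρ : Rst ι Λ) (r : ι) (hr : (ρ r).1 = true) (Z : Finset Λ)
    (π : Term ι Λ) (h : π.Fals ρ) : π.Fals (Function.update ρ r (false, (ρ r).2 \ Z)) := by
  rcases h with h | ⟨p, hp, h⟩ | ⟨p, hp, h1, h2⟩
  · exact Or.inl h
  · refine Or.inr (Or.inl ⟨p, hp, ?_⟩)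
    by_cases hpr : p.1 = r
    · rw [hpr, Function.update_self]
      rw [hpr] at h
      exact fun h' => h (Finset.mem_sdiff.1 h').1
    · rw [Function.update_of_ne hpr]
      exact h
  · refine Or.inr (Or.inr ⟨p, hp, ?_⟩)
    by_cases hpr : p.1 = r
    · rw [hpr, hr] at h1
      exact absurd h1 (by decide)
    · rw [Function.update_of_ne hpr]
      exact ⟨h1, h2⟩

/-- an open term has a literal at an alive root -/
theorem a2_open (ρ : Rst ι Λ) (π : Term ι Λ) (h1 : ¬ π.Fals ρ) (h2 : ¬ π.Sat ρ) :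
    ∃ r, (ρ r).1 = true ∧ ((∃ p ∈ π.pos, p.1 = r) ∨ ∃ p ∈ π.neg, p.1 = r) := by
  by_contra hcon
  push Not at hcon
  apply h2
  constructor
  · intro p hp
    have h3 : (ρ p.1).1 ≠ true := fun h => (hcon p.1 h).1 p hp rfl
    refine ⟨by simpa using h3, ?_⟩
    by_contra h4
    exact h1 (Or.inr (Or.inl ⟨p, hp, h4⟩))
  · intro p hp h4
    have h3 : (ρ p.1).1 ≠ true := fun h => (hcon p.1 h).2 p hp rfl
    exact h1 (Or.inr (Or.inr ⟨p, hp, by simpa using h3, h4⟩))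

/-- the slots of a term -/
def a2S (π : Term ι Λ) : Finset ι := π.pos.image Prod.fst ∪ π.neg.image Prod.fst

/-- the labels of the negative literals at `r` -/
def a2N (π : Term ι Λ) (r : ι) : Finset Λ := (π.neg.filter fun p => p.1 = r).image Prod.snd

theorem a2S_card (π : Term ι Λ) : (a2S π).card ≤ π.size := by
  refine (Finset.card_union_le _ _).trans ?_
  exact Nat.add_le_add Finset.card_image_le Finset.card_image_le

theorem a2N_card (π : Term ι Λ) (r : ι) : (a2N π r).card ≤ π.size := by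
  refine Finset.card_image_le.trans ?_
  refine (Finset.card_le_card (Finset.filter_subset _ _)).trans ?_
  unfold Term.size
  omega

theorem a2N_mem (π : Term ι Λ) (r : ι) (l : Λ) : l ∈ a2N π r ↔ (r, l) ∈ π.neg := by
  unfold a2N
  rw [Finset.mem_image]
  constructor
  · rintro ⟨p, hp, rfl⟩
    rw [Finset.mem_filter] at hp
    rw [← hp.2]
    exact hp.1
  · intro h
    exact ⟨(r, l), Finset.mem_filter.2 ⟨h, rfl⟩, rfl⟩

theorem a2_notfals (ρ : Rst ι Λ) (r : ι) (π : Term ι Λ) (h : ¬ π.Fals ρ) :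
    ¬ π.Fals (Function.update ρ r (false, (ρ r).2 \ a2N π r)) := by
  rintro (h' | ⟨p, hp, h'⟩ | ⟨p, hp, h1, h2⟩)
  · exact h (Or.inl h')
  · by_cases hpr : p.1 = r
    · rw [hpr, Function.update_self] at h'
      apply h'
      rw [Finset.mem_sdiff, a2N_mem]
      refine ⟨?_, ?_⟩
      · by_contra h3
        exact h (Or.inr (Or.inl ⟨p, hp, by rw [hpr]; exact h3⟩))
      · intro h3
        refine h (Or.inl ⟨p, hp, ?_⟩)
        rw [← hpr] at h3
        exact h3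
    · rw [Function.update_of_ne hpr] at h'
      exact h (Or.inr (Or.inl ⟨p, hp, h'⟩))
  · by_cases hpr : p.1 = r
    · rw [hpr, Function.update_self] at h2
      rw [Finset.mem_sdiff, a2N_mem] at h2
      apply h2.2
      rw [← hpr]
      exact hp
    · rw [Function.update_of_ne hpr] at h1 h2
      exact h (Or.inr (Or.inr ⟨p, hp, h1, h2⟩))

open Classical in
/-- slots of the first non-falsified term -/
noncomputable def a2SL (q : List (Term ι Λ × Bool)) (ρ : Rst ι Λ) : Finset ι :=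
  (a2F ρ q).elim ∅ a2S

open Classical in
noncomputable def a2NL (q : List (Term ι Λ × Bool)) (ρ : Rst ι Λ) (r : ι) : Finset Λ :=
  (a2F ρ q).elim ∅ (fun π => a2N π r)

theorem mem_RS [Fintype ι] (H : ι → Finset Λ) (ρ : Rst ι Λ) :
    ρ ∈ RS H ↔ ∀ r, (ρ r).2 ⊆ H r := by
  unfold RS
  rw [Fintype.mem_piFinset]
  refine forall_congr' fun r => ?_
  rw [Finset.mem_product, Finset.mem_powerset]
  exact ⟨fun h => h.2, fun h => ⟨Finset.mem_univ _, h⟩⟩

open Classical in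
theorem sw1 [Fintype ι] (H : ι → Finset Λ) (p : ι → Bool × Finset Λ → ℝ) (hp : ∀ r x, 0 ≤ p r x)
    (c x : ℝ) (hc : 0 ≤ c) (hx : 0 ≤ x)
    (hr : ∀ r (S Z : Finset Λ), S ∪ Z ⊆ H r → Disjoint S Z →
      p r (true, S ∪ Z) ≤ c * x ^ Z.card * p r (false, S))
    (q : List (Term ι Λ × Bool)) (W : ℕ) (hq : ∀ a ∈ q, a.1.size ≤ W)
    (E : Rst ι Λ → Prop) (hE : Closed E) :
    ∑ ρ ∈ (RS H).filter (fun ρ => E ρ ∧ res ρ q = none), wt p ρ ≤
      W * c * (1 + x) ^ W * ∑ ρ ∈ (RS H).filter E, wt p ρ := by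
  have hwt : ∀ ρ, 0 ≤ wt p ρ := fun ρ => Finset.prod_nonneg fun r _ => hp r _
  set A := (RS H).filter (fun ρ => E ρ ∧ res ρ q = none) with hA
  set B := (RS H).filter E with hB
  -- the encoding
  have hex : ∀ ρ : Rst ι Λ, ρ ∈ A → ∃ (π : Term ι Λ) (r : ι), a2F ρ q = some π ∧ r ∈ a2S π ∧
      (ρ r).1 = true ∧ ¬ π.Fals ρ := by
    intro ρ hρ
    have h1 := (Finset.mem_filter.1 hρ).2.2
    obtain ⟨π, h2, h3⟩ := a2F_none ρ q h1
    have h4 := (a2F_spec ρ q π h2).1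
    obtain ⟨r, h5, h6⟩ := a2_open ρ π h4 h3
    refine ⟨π, r, h2, ?_, h5, h4⟩
    unfold a2S
    rw [Finset.mem_union, Finset.mem_image, Finset.mem_image]
    exact h6
  have hnn : 0 ≤ W * c * (1 + x) ^ W * ∑ ρ ∈ B, wt p ρ :=
    mul_nonneg (mul_nonneg (mul_nonneg (Nat.cast_nonneg _) hc) (pow_nonneg (by linarith) _))
      (Finset.sum_nonneg fun ρ _ => hwt ρ)
  rcases A.eq_empty_or_nonempty with hAe | ⟨ρ₀, hρ₀⟩
  · rw [hAe, Finset.sum_empty]
    exact hnn
  obtain ⟨π₀, r₀, -⟩ := hex ρ₀ hρ₀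
  have hni : Nonempty ι := ⟨r₀⟩
  have hnt : Nonempty (Term ι Λ) := ⟨π₀⟩
  choose! π r hπ hrS hra hnf using hex
  let Zf : Rst ι Λ → Finset Λ := fun ρ => (ρ (r ρ)).2 ∩ a2N (π ρ) (r ρ)
  let st : Rst ι Λ → Rst ι Λ := fun ρ =>
    Function.update ρ (r ρ) (false, (ρ (r ρ)).2 \ a2N (π ρ) (r ρ))
  let T : Finset (Σ _ : Rst ι Λ, Σ _ : ι, Finset Λ) :=
    B.sigma fun ρ => (a2SL q ρ).sigma fun s => (a2NL q ρ s).powerset
  let g : (Σ _ : Rst ι Λ, Σ _ : ι, Finset Λ) → ℝ := fun τ =>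
    if (τ.1 τ.2.1).1 = false ∧ Disjoint (τ.1 τ.2.1).2 τ.2.2 ∧ (τ.1 τ.2.1).2 ∪ τ.2.2 ⊆ H τ.2.1 then
      wt p (Function.update τ.1 τ.2.1 (true, (τ.1 τ.2.1).2 ∪ τ.2.2)) else 0
  let Φ : Rst ι Λ → (Σ _ : Rst ι Λ, Σ _ : ι, Finset Λ) := fun ρ => ⟨st ρ, r ρ, Zf ρ⟩
  have hg0 : ∀ τ, 0 ≤ g τ := by
    intro τ
    show 0 ≤ ite _ _ _
    split_ifs
    · exact hwt _
    · exact le_rfl
  have hdec : ∀ ρ ∈ A, Function.update (st ρ) (r ρ) (true, (st ρ (r ρ)).2 ∪ Zf ρ) = ρ := by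
    intro ρ hρ
    have h1 : st ρ (r ρ) = (false, (ρ (r ρ)).2 \ a2N (π ρ) (r ρ)) := Function.update_self _ _ _
    rw [h1]
    show Function.update (Function.update ρ (r ρ) _) (r ρ) _ = ρ
    rw [Function.update_idem]
    have h2 : ((ρ (r ρ)).2 \ a2N (π ρ) (r ρ)) ∪ Zf ρ = (ρ (r ρ)).2 :=
      Finset.sdiff_union_inter _ _
    have h3 : ((true, ((ρ (r ρ)).2 \ a2N (π ρ) (r ρ)) ∪ Zf ρ) : Bool × Finset Λ) = ρ (r ρ) := by
      rw [h2]
      exact Prod.ext (hra ρ hρ).symm rfl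
    show Function.update ρ (r ρ) (true, ((ρ (r ρ)).2 \ a2N (π ρ) (r ρ)) ∪ Zf ρ) = ρ
    rw [h3, Function.update_eq_self]
  have hsub : ∀ ρ ∈ A, (ρ (r ρ)).2 ⊆ H (r ρ) := by
    intro ρ hρ
    exact (mem_RS H ρ).1 (Finset.mem_filter.1 hρ).1 _
  have hgΦ : ∀ ρ ∈ A, g (Φ ρ) = wt p ρ := by
    intro ρ hρ
    have h1 : st ρ (r ρ) = (false, (ρ (r ρ)).2 \ a2N (π ρ) (r ρ)) := Function.update_self _ _ _
    show ite _ _ _ = _
    rw [if_pos]
    · show wt p (Function.update (st ρ) (r ρ) (true, (st ρ (r ρ)).2 ∪ Zf ρ)) = _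
      rw [hdec ρ hρ]
    · show (st ρ (r ρ)).1 = false ∧ Disjoint (st ρ (r ρ)).2 (Zf ρ) ∧
        (st ρ (r ρ)).2 ∪ Zf ρ ⊆ H (r ρ)
      rw [h1]
      refine ⟨rfl, ?_, ?_⟩
      · exact Finset.disjoint_sdiff_inter _ _
      · have h2 : ((ρ (r ρ)).2 \ a2N (π ρ) (r ρ)) ∪ Zf ρ = (ρ (r ρ)).2 :=
          Finset.sdiff_union_inter _ _
        show ((ρ (r ρ)).2 \ a2N (π ρ) (r ρ)) ∪ Zf ρ ⊆ H (r ρ)
        rw [h2]
        exact hsub ρ hρ
  have hΦinj : Set.InjOn Φ A := by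
    intro ρ hρ ρ' hρ' h
    have h1 : st ρ = st ρ' :=
      congrArg (fun τ : (Σ _ : Rst ι Λ, Σ _ : ι, Finset Λ) => τ.1) h
    have h2 : r ρ = r ρ' :=
      congrArg (fun τ : (Σ _ : Rst ι Λ, Σ _ : ι, Finset Λ) => τ.2.1) h
    have h3 : Zf ρ = Zf ρ' :=
      congrArg (fun τ : (Σ _ : Rst ι Λ, Σ _ : ι, Finset Λ) => τ.2.2) h
    rw [← hdec ρ hρ, ← hdec ρ' hρ', h1, h2, h3]
  have hΦT : ∀ ρ ∈ A, Φ ρ ∈ T := by
    intro ρ hρ
    have hEρ := (Finset.mem_filter.1 hρ).2.1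
    have h0 : a2F (st ρ) q = some (π ρ) :=
      a2F_upd ρ (st ρ) (fun π' => a2_fals_mono ρ (r ρ) (hra ρ hρ) _ π') q (π ρ) (hπ ρ hρ)
        (a2_notfals ρ (r ρ) (π ρ) (hnf ρ hρ))
    rw [Finset.mem_sigma, Finset.mem_sigma, Finset.mem_powerset]
    refine ⟨?_, ?_, ?_⟩
    · rw [hB, Finset.mem_filter]
      refine ⟨?_, hE ρ (r ρ) _ (hra ρ hρ) hEρ⟩
      rw [mem_RS]
      intro s
      by_cases hs : s = r ρ
      · subst hs
        show (st ρ (r ρ)).2 ⊆ _
        have h1 : st ρ (r ρ) = (false, (ρ (r ρ)).2 \ a2N (π ρ) (r ρ)) :=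
          Function.update_self _ _ _
        rw [h1]
        exact Finset.sdiff_subset.trans (hsub ρ hρ)
      · have h1 : st ρ s = ρ s := Function.update_of_ne hs _ _
        show (st ρ s).2 ⊆ _
        rw [h1]
        exact (mem_RS H ρ).1 (Finset.mem_filter.1 hρ).1 s
    · show r ρ ∈ a2SL q (st ρ)
      unfold a2SL
      rw [h0]
      exact hrS ρ hρ
    · show Zf ρ ⊆ a2NL q (st ρ) (r ρ)
      unfold a2NL
      rw [h0]
      exact Finset.inter_subset_right
  have hbound : ∀ τ ∈ T, g τ ≤ c * x ^ τ.2.2.card * wt p τ.1 := by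
    rintro ⟨ρ, s, Z⟩ _
    show ite _ _ _ ≤ c * x ^ Z.card * wt p ρ
    have hpos : 0 ≤ c * x ^ Z.card * wt p ρ :=
      mul_nonneg (mul_nonneg hc (pow_nonneg hx _)) (hwt ρ)
    split_ifs with h
    · obtain ⟨h1, h2, h3⟩ := h
      dsimp only at h1 h2 h3
      show wt p (Function.update ρ s (true, (ρ s).2 ∪ Z)) ≤ _
      unfold wt
      rw [← Finset.mul_prod_erase Finset.univ _ (Finset.mem_univ s),
        ← Finset.mul_prod_erase Finset.univ (fun r => p r (ρ r)) (Finset.mem_univ s)]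
      rw [Function.update_self]
      have h4 : ∏ r ∈ Finset.univ.erase s, p r (Function.update ρ s (true, (ρ s).2 ∪ Z) r) =
          ∏ r ∈ Finset.univ.erase s, p r (ρ r) := by
        refine Finset.prod_congr rfl fun t ht => ?_
        rw [Function.update_of_ne (Finset.ne_of_mem_erase ht)]
      rw [h4, ← mul_assoc]
      refine mul_le_mul_of_nonneg_right ?_ (Finset.prod_nonneg fun t _ => hp t _)
      have h5 := hr s (ρ s).2 Z h3 h2
      have h6 : ρ s = (false, (ρ s).2) := Prod.ext h1 rfl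
      rw [← h6] at h5
      exact h5
    · exact hpos
  calc ∑ ρ ∈ A, wt p ρ = ∑ ρ ∈ A, g (Φ ρ) := Finset.sum_congr rfl fun ρ hρ => (hgΦ ρ hρ).symm
    _ = ∑ τ ∈ A.image Φ, g τ := (Finset.sum_image hΦinj).symm
    _ ≤ ∑ τ ∈ T, g τ := by
        refine Finset.sum_le_sum_of_subset_of_nonneg ?_ fun τ _ _ => hg0 τ
        intro τ hτ
        obtain ⟨ρ, hρ, rfl⟩ := Finset.mem_image.1 hτ
        exact hΦT ρ hρ
    _ ≤ ∑ τ ∈ T, c * x ^ τ.2.2.card * wt p τ.1 := Finset.sum_le_sum hbound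
    _ = ∑ ρ ∈ B, ∑ s ∈ a2SL q ρ, ∑ Z ∈ (a2NL q ρ s).powerset, c * x ^ Z.card * wt p ρ := by
        show ∑ τ ∈ B.sigma (fun ρ => (a2SL q ρ).sigma fun s => (a2NL q ρ s).powerset),
          c * x ^ τ.2.2.card * wt p τ.1 = _
        rw [Finset.sum_sigma]
        refine Finset.sum_congr rfl fun ρ _ => ?_
        rw [Finset.sum_sigma]
    _ ≤ ∑ ρ ∈ B, W * c * (1 + x) ^ W * wt p ρ := by
        refine Finset.sum_le_sum fun ρ _ => ?_
        have h1 : ∀ s, ∑ Z ∈ (a2NL q ρ s).powerset, c * x ^ Z.card * wt p ρ =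
            c * (1 + x) ^ (a2NL q ρ s).card * wt p ρ := by
          intro s
          rw [← Finset.sum_mul, ← Finset.mul_sum]
          congr 2
          have h2 := Finset.sum_pow_mul_eq_add_pow x 1 (a2NL q ρ s)
          simp only [one_pow, mul_one] at h2
          rw [h2, add_comm]
        rw [Finset.sum_congr rfl fun s _ => h1 s]
        have h1x : (1 : ℝ) ≤ 1 + x := by linarith
        cases hf : a2F ρ q with
        | none =>
          have h2 : a2SL q ρ = ∅ := by unfold a2SL; rw [hf]; rfl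
          rw [h2, Finset.sum_empty]
          exact mul_nonneg (mul_nonneg (mul_nonneg (Nat.cast_nonneg _) hc)
            (pow_nonneg (by linarith) _)) (hwt ρ)
        | some π' =>
          obtain ⟨-, a, ha, h3⟩ := a2F_spec ρ q π' hf
          have hsz : π'.size ≤ W := by rw [← h3]; exact hq a ha
          have h2 : a2SL q ρ = a2S π' := by unfold a2SL; rw [hf]; rfl
          have h4 : ∀ s, a2NL q ρ s = a2N π' s := fun s => by unfold a2NL; rw [hf]; rfl
          rw [h2]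
          have h5 : ∀ s ∈ a2S π', c * (1 + x) ^ (a2NL q ρ s).card * wt p ρ ≤
              c * (1 + x) ^ W * wt p ρ := by
            intro s _
            rw [h4]
            refine mul_le_mul_of_nonneg_right ?_ (hwt ρ)
            refine mul_le_mul_of_nonneg_left ?_ hc
            exact pow_le_pow_right₀ h1x ((a2N_card π' s).trans hsz)
          refine (Finset.sum_le_sum h5).trans ?_
          rw [Finset.sum_const, nsmul_eq_mul]
          have h6 : ((a2S π').card : ℝ) ≤ W := by exact_mod_cast (a2S_card π').trans hsz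
          have h7 : 0 ≤ c * (1 + x) ^ W * wt p ρ :=
            mul_nonneg (mul_nonneg hc (pow_nonneg (by linarith) _)) (hwt ρ)
          calc ((a2S π').card : ℝ) * (c * (1 + x) ^ W * wt p ρ) ≤
              W * (c * (1 + x) ^ W * wt p ρ) := mul_le_mul_of_nonneg_right h6 h7
            _ = W * c * (1 + x) ^ W * wt p ρ := by ring
    _ = W * c * (1 + x) ^ W * ∑ ρ ∈ B, wt p ρ := by rw [Finset.mul_sum]

end A2

end Pool.Agent.NPC
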