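import Pool.Agent.Lib_helper64.NPC.Defs2
import Pool.Agent.Lib_helper64.NPC.Blk.A1
import Pool.Agent.Lib_helper64.NPC.Blk.A2

/-! # NPC, block A3: the switching lemma for a computation -/

set_option autoImplicit false

namespace Pool.Agent.NPC

open Pool.Agent.CK

variable {ι Λ : Type} [DecidableEq ι] [DecidableEq Λ]

omit [DecidableEq ι] [DecidableEq Λ] in
theorem A3_wt_nonneg [Fintype ι] (p : ι → Bool × Finset Λ → ℝ) (hp : ∀ r x, 0 ≤ p r x)
    (ρ : Rst ι Λ) : 0 ≤ wt p ρ :=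
  Finset.prod_nonneg fun r _ => hp r (ρ r)

theorem A3_sum_or {α : Type} (s : Finset α) (f : α → ℝ) (hf : ∀ a, 0 ≤ f a)
    (A B C P : α → Prop) [DecidablePred A] [DecidablePred B] [DecidablePred C] [DecidablePred P]
    (h : ∀ a, P a → A a ∨ B a ∨ C a) :
    ∑ a ∈ s.filter P, f a ≤
      ∑ a ∈ s.filter A, f a + (∑ a ∈ s.filter B, f a + ∑ a ∈ s.filter C, f a) := by
  simp only [Finset.sum_filter]
  rw [← Finset.sum_add_distrib, ← Finset.sum_add_distrib]
  refine Finset.sum_le_sum fun a _ => ?_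
  have := hf a
  by_cases hP : P a
  · rw [if_pos hP]
    rcases h a hP with h | h | h
    · rw [if_pos h]
      split_ifs <;> linarith
    · rw [if_pos h]
      split_ifs <;> linarith
    · rw [if_pos h]
      split_ifs <;> linarith
  · rw [if_neg hP]
    split_ifs <;> linarith

theorem A3_sum_disj {α : Type} (s : Finset α) (f : α → ℝ) (hf : ∀ a, 0 ≤ f a)
    (B C E : α → Prop) [DecidablePred B] [DecidablePred C] [DecidablePred E] (hB : ∀ a, B a → E a) (hC : ∀ a, C a → E a)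
    (hd : ∀ a, B a → C a → False) :
    ∑ a ∈ s.filter B, f a + ∑ a ∈ s.filter C, f a ≤ ∑ a ∈ s.filter E, f a := by
  simp only [Finset.sum_filter]
  rw [← Finset.sum_add_distrib]
  refine Finset.sum_le_sum fun a _ => ?_
  have := hf a
  by_cases h1 : B a
  · have h2 : ¬ C a := fun h2 => hd a h1 h2
    rw [if_pos h1, if_neg h2, if_pos (hB a h1), add_zero]
  · rw [if_neg h1, zero_add]
    by_cases h2 : C a
    · rw [if_pos h2, if_pos (hC a h2)]
    · rw [if_neg h2]
      split_ifs <;> linarith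

theorem A3_closed_and (E F : Rst ι Λ → Prop) (hE : Closed E) (hF : Closed F) :
    Closed (fun ρ => E ρ ∧ F ρ) :=
  fun ρ r Z ha h => ⟨hE ρ r Z ha h.1, hF ρ r Z ha h.2⟩

open Classical in
/-- the switching lemma for a computation -/
theorem swt [Fintype ι] (H : ι → Finset Λ) (p : ι → Bool × Finset Λ → ℝ) (hp : ∀ r x, 0 ≤ p r x)
    (c x : ℝ) (hc : 0 ≤ c) (hx : 0 ≤ x)
    (hr : ∀ r (S Z : Finset Λ), S ∪ Z ⊆ H r → Disjoint S Z →
      p r (true, S ∪ Z) ≤ c * x ^ Z.card * p r (false, S))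
    (qs : List Bool → List (Term ι Λ × Bool)) (W : ℕ) (hq : ∀ w, ∀ a ∈ qs w, a.1.size ≤ W)
    (t : DT Bool) (m : ℕ) (ht : t.depth ≤ m) (E : Rst ι Λ → Prop) (hE : Closed E) :
    ∑ ρ ∈ (RS H).filter (fun ρ => E ρ ∧ Stuck (fun w => res ρ (qs w)) t), wt p ρ ≤
      m * (W * c * (1 + x) ^ W) * ∑ ρ ∈ (RS H).filter E, wt p ρ := by
  have hD : 0 ≤ (W : ℝ) * c * (1 + x) ^ W := by positivity
  have hw := A3_wt_nonneg (ι := ι) p hp
  have hpos : ∀ F : Rst ι Λ → Prop, 0 ≤ ∑ ρ ∈ (RS H).filter F, wt p ρ :=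
    fun F => Finset.sum_nonneg fun ρ _ => hw ρ
  induction t generalizing m E with
  | leaf b =>
    have : (RS H).filter (fun ρ => E ρ ∧ Stuck (fun w => res ρ (qs w)) (DT.leaf b)) = ∅ := by
      apply Finset.filter_false_of_mem
      intro ρ _ h
      exact h.2
    rw [this, Finset.sum_empty]
    have := hpos E
    positivity
  | node w n0 n1 h0 h1 =>
    rw [DT.depth_node] at ht
    obtain ⟨m', rfl⟩ : ∃ m', m = m' + 1 := ⟨m - 1, by omega⟩
    have hE0 : Closed (fun ρ : Rst ι Λ => E ρ ∧ res ρ (qs w) = some false) :=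
      A3_closed_and E _ hE (res_closed (qs w) false)
    have hE1 : Closed (fun ρ : Rst ι Λ => E ρ ∧ res ρ (qs w) = some true) :=
      A3_closed_and E _ hE (res_closed (qs w) true)
    have i0 := h0 m' (by omega) _ hE0
    have i1 := h1 m' (by omega) _ hE1
    have i2 := sw1 H p hp c x hc hx hr (qs w) W (hq w) E hE
    have i3 := A3_sum_or (RS H) (wt p) hw
      (fun ρ => E ρ ∧ res ρ (qs w) = none)
      (fun ρ => (E ρ ∧ res ρ (qs w) = some false) ∧ Stuck (fun w => res ρ (qs w)) n0)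
      (fun ρ => (E ρ ∧ res ρ (qs w) = some true) ∧ Stuck (fun w => res ρ (qs w)) n1)
      (fun ρ => E ρ ∧ Stuck (fun w => res ρ (qs w)) (DT.node w n0 n1)) (by
        rintro ρ ⟨h, hs⟩
        rcases hs with hs | ⟨hs, hs'⟩ | ⟨hs, hs'⟩
        · exact Or.inl ⟨h, hs⟩
        · exact Or.inr (Or.inl ⟨⟨h, hs⟩, hs'⟩)
        · exact Or.inr (Or.inr ⟨⟨h, hs⟩, hs'⟩))
    have i4 := A3_sum_disj (RS H) (wt p) hw
      (fun ρ => E ρ ∧ res ρ (qs w) = some false)
      (fun ρ => E ρ ∧ res ρ (qs w) = some true) E (fun ρ h => h.1) (fun ρ h => h.1) (by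
        rintro ρ ⟨_, h⟩ ⟨_, h'⟩
        rw [h] at h'
        cases h')
    have hm : (0 : ℝ) ≤ (m' : ℝ) * (W * c * (1 + x) ^ W) := by positivity
    have i5 := mul_le_mul_of_nonneg_left i4 hm
    have i6 : ∀ a b c d a' b' c' : ℝ, d ≤ a + (b + c) → a ≤ a' → b ≤ b' → c ≤ c' →
        d ≤ a' + (b' + c') := by intros; linarith
    have i7 := i6 _ _ _ _ _ _ _ i3 (by convert i2) (by convert i0) (by convert i1)
    have fin : ∀ T S0 S1 S D m : ℝ, T ≤ D * S + (m * D * S0 + m * D * S1) →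
        m * D * (S0 + S1) ≤ m * D * S → T ≤ (m + 1) * D * S := by
      intro T S0 S1 S D m h h'
      nlinarith
    rw [Nat.cast_succ]
    exact fin _ (∑ ρ ∈ (RS H).filter (fun ρ => E ρ ∧ res ρ (qs w) = some false), wt p ρ)
      (∑ ρ ∈ (RS H).filter (fun ρ => E ρ ∧ res ρ (qs w) = some true), wt p ρ) _ _ _
      (by convert i7) (by convert i5)

end Pool.Agent.NPC
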