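import Pool.Agent.Lib_helper64.NPC.Defs2
import Pool.Agent.Lib_helper64.NPC.Blk.A3
import Pool.Agent.Lib_helper64.NPC.Blk.A5
import Pool.Agent.Lib_helper64.NPC.Blk.A6

set_option autoImplicit false

namespace Pool.Agent.NPC

open Pool.Agent.CK

variable {ι Λ : Type} [DecidableEq ι] [DecidableEq Λ]

open Classical in
theorem stuck_pin [Fintype ι] (H : ι → Finset Λ) (θ : ℝ) (h0 : 0 ≤ θ) (h1 : θ ≤ 1 / 2)
    (η : ι → ℝ) (hη : ∀ r, 0 ≤ η r) (hη' : ∀ r, η r ≤ 1 / 2) (x : ℝ) (hηx : ∀ r, 2 * η r ≤ x)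
    (W : ℕ) (hx : (1 + x) ^ W ≤ 2) (t : DT Bool) (m : ℕ) (ht : t.depth ≤ m)
    (qs : List Bool → List (Term ι Λ × Bool)) (hW : ∀ w, ∀ a ∈ qs w, a.1.size ≤ W)
    (u : ι) (T : Finset Λ) (hT : T ⊆ H u) :
    ∑ ρ ∈ (RS H).filter (fun ρ =>
        Stuck (fun w => res (Function.update ρ u (false, T)) (qs w)) t),
      wt (pw θ η H) ρ ≤ 4 * m * W * θ := by
  classical
  have hx0 : 0 ≤ x := le_trans (by have := hη u; linarith) (hηx u)
  have hθ1 : θ ≤ 1 := by linarith
  have hη1 : ∀ r, η r ≤ 1 := fun r => by have := hη' r; linarith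
  set p' : ι → Bool × Finset Λ → ℝ :=
    Function.update (pw θ η H) u (fun y => if y = (false, T) then 1 else 0) with hp'
  have hp'0 : ∀ r y, 0 ≤ p' r y := by
    intro r y
    rw [hp']
    by_cases hr : r = u
    · subst hr
      rw [Function.update_self]
      split_ifs <;> norm_num
    · rw [Function.update_of_ne hr]
      exact pw_nonneg θ h0 hθ1 η hη hη1 H r y
  have hp'1 : ∀ r, ∑ y ∈ (Finset.univ : Finset Bool) ×ˢ (H r).powerset, p' r y = 1 := by
    intro r
    rw [hp']
    by_cases hr : r = u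
    · subst hr
      rw [Function.update_self, Finset.sum_ite_eq']
      rw [if_pos]
      simp [hT]
    · rw [Function.update_of_ne hr]
      exact pw_sum_one θ η H r
  have hratio : ∀ r (S Z : Finset Λ), S ∪ Z ⊆ H r → Disjoint S Z →
      p' r (true, S ∪ Z) ≤ (2 * θ) * x ^ Z.card * p' r (false, S) := by
    intro r S Z hSZ hd
    by_cases hr : r = u
    · have e : p' r (true, S ∪ Z) = 0 := by
        rw [hp', hr, Function.update_self]
        simp
      rw [e]
      exact mul_nonneg (mul_nonneg (by linarith) (pow_nonneg hx0 _)) (hp'0 _ _)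
    · rw [hp', Function.update_of_ne hr]
      exact pw_ratio θ h0 h1 η hη hη' x hηx H r S Z hSZ hd
  have key := swt H p' hp'0 (2 * θ) x (by linarith) hx0 hratio qs W hW t m ht
    (fun _ => True) (fun _ _ _ _ _ => trivial)
  have hpin := wt_pin H (pw θ η H) (fun r => pw_sum_one θ η H r) u (false, T) hT
    (fun ρ => if Stuck (fun w => res ρ (qs w)) t then (1 : ℝ) else 0)
  have hL : ∑ ρ ∈ (RS H).filter (fun ρ =>
        Stuck (fun w => res (Function.update ρ u (false, T)) (qs w)) t), wt (pw θ η H) ρ =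
      ∑ ρ ∈ RS H, wt (pw θ η H) ρ *
        (if Stuck (fun w => res (Function.update ρ u (false, T)) (qs w)) t then (1 : ℝ) else 0) := by
    rw [Finset.sum_filter]
    refine Finset.sum_congr rfl fun ρ _ => ?_
    split_ifs <;> simp
  rw [hL]
  refine le_trans (le_of_eq hpin) ?_
  have key2 : ∑ ρ ∈ RS H, wt p' ρ * (if Stuck (fun w => res ρ (qs w)) t then (1 : ℝ) else 0) ≤
      m * (W * (2 * θ) * (1 + x) ^ W) := by
    refine le_trans (le_of_eq ?_) (le_trans key (le_of_eq ?_))
    · rw [Finset.sum_filter]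
      refine Finset.sum_congr rfl fun ρ _ => ?_
      by_cases h : Stuck (fun w => res ρ (qs w)) t
      · simp [h]
      · simp [h]
    · have e2 : ∀ (i : DecidablePred fun _ : Rst ι Λ => True),
          ∑ ρ ∈ @Finset.filter _ (fun _ => True) i (RS H), wt p' ρ = 1 := by
        intro i
        have e3 : @Finset.filter (Rst ι Λ) (fun _ => True) i (RS H) = RS H := by
          ext ρ
          simp
        rw [e3]
        exact wt_sum_one H p' hp'1
      rw [e2, mul_one]
  refine le_trans key2 ?_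
  have hm : (0 : ℝ) ≤ m := Nat.cast_nonneg _
  have hWn : (0 : ℝ) ≤ W := Nat.cast_nonneg _
  calc (m : ℝ) * (W * (2 * θ) * (1 + x) ^ W) ≤ m * (W * (2 * θ) * 2) := by
        apply mul_le_mul_of_nonneg_left _ hm
        apply mul_le_mul_of_nonneg_left hx
        positivity
    _ = 4 * m * W * θ := by ring

end Pool.Agent.NPC
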