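import Pool.Agent.Lib_helper64.NPC.Defs2
import Pool.Agent.Lib_helper64.NPC.Blk.A5
import Pool.Agent.Lib_helper64.NPC.Blk.A6
import Pool.Agent.Lib_helper64.NPC.Blk.A8

/-! # A9 (MP_675993_lc): a root is bad with small probability -/

set_option autoImplicit false

namespace Pool.Agent.NPC

open Pool.Agent.CK

variable {ι Λ : Type} [DecidableEq ι] [DecidableEq Λ]

open Classical in
/-- indicator of the event that the computation is stuck if the state of `u` is `T` -/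
noncomputable def A9psi (t : DT Bool) (qs : List Bool → List (Term ι Λ × Bool)) (u : ι)
    (T : Finset Λ) (ρ : Rst ι Λ) : ℝ :=
  if Stuck (fun w => res (Function.update ρ u (false, T)) (qs w)) t then 1 else 0

open Classical in
theorem A9_psi_sum [Fintype ι] (H : ι → Finset Λ) (θ : ℝ) (h0 : 0 ≤ θ) (h1 : θ ≤ 1 / 2)
    (η : ι → ℝ) (hη : ∀ r, 0 ≤ η r) (hη' : ∀ r, η r ≤ 1 / 2) (x : ℝ) (hηx : ∀ r, 2 * η r ≤ x)
    (W : ℕ) (hx : (1 + x) ^ W ≤ 2) (t : DT Bool) (m : ℕ) (ht : t.depth ≤ m)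
    (qs : List Bool → List (Term ι Λ × Bool)) (hW : ∀ w, ∀ a ∈ qs w, a.1.size ≤ W)
    (u : ι) (T : Finset Λ) (hT : T ⊆ H u) :
    ∑ ρ ∈ RS H, wt (pw θ η H) ρ * A9psi t qs u T ρ ≤ 4 * m * W * θ := by
  have h := stuck_pin H θ h0 h1 η hη hη' x hηx W hx t m ht qs hW u T hT
  rw [Finset.sum_filter] at h
  refine le_trans (le_of_eq (Finset.sum_congr rfl fun ρ _ => ?_)) h
  unfold A9psi
  rw [mul_ite, mul_one, mul_zero]

open Classical in
theorem A9_event [Fintype ι] (H : ι → Finset Λ) (θ : ℝ) (h0 : 0 ≤ θ) (h1 : θ ≤ 1 / 2)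
    (η : ι → ℝ) (hη : ∀ r, 0 ≤ η r) (hη' : ∀ r, η r ≤ 1 / 2) (x : ℝ) (hηx : ∀ r, 2 * η r ≤ x)
    (W : ℕ) (hx : (1 + x) ^ W ≤ 2) (t : DT Bool) (m : ℕ) (ht : t.depth ≤ m)
    (qs : List Bool → List (Term ι Λ × Bool)) (hW : ∀ w, ∀ a ∈ qs w, a.1.size ≤ W)
    (u : ι) (T : Finset Λ) (hT : T ⊆ H u) (φ : Bool × Finset Λ → ℝ) (c : ℝ) (hc : 0 ≤ c)
    (hφ : ∑ x ∈ (Finset.univ : Finset Bool) ×ˢ (H u).powerset, pw θ η H u x * φ x = c) :
    ∑ ρ ∈ RS H, wt (pw θ η H) ρ * (φ (ρ u) * A9psi t qs u T ρ) ≤ c * (4 * m * W * θ) := by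
  rw [wt_indep H (pw θ η H) (fun r => pw_sum_one θ η H r) u φ (A9psi t qs u T), hφ]
  · exact mul_le_mul_of_nonneg_left
      (A9_psi_sum H θ h0 h1 η hη hη' x hηx W hx t m ht qs hW u T hT) hc
  · intro ρ y
    unfold A9psi
    simp only [Function.update_idem]

theorem A9_sub_one (θ : ℝ) (η : ι → ℝ) (H : ι → Finset Λ) (r : ι) :
    ∑ S ∈ (H r).powerset, η r ^ S.card * (1 - η r) ^ ((H r).card - S.card) = 1 := by
  have h := pw_sum θ η H r (fun _ => 1) (fun _ => 1)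
  have h' := pw_sum_one θ η H r
  simp only [mul_one] at h
  rw [h'] at h
  have : θ + (1 - θ) = 1 := by ring
  rw [this, one_mul] at h
  exact h.symm

theorem A9_alive (θ : ℝ) (η : ι → ℝ) (H : ι → Finset Λ) (r : ι) :
    ∑ x ∈ (Finset.univ : Finset Bool) ×ˢ (H r).powerset,
      pw θ η H r x * (if x.1 = true then 1 else 0) = θ := by
  have h := pw_sum θ η H r (fun b => if b = true then 1 else 0) (fun _ => 1)
  simp only [mul_one] at h
  rw [h, A9_sub_one θ η H r]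
  simp

theorem A9_mem (θ : ℝ) (η : ι → ℝ) (H : ι → Finset Λ) (r : ι) (l : Λ) (hl : l ∈ H r) :
    ∑ x ∈ (Finset.univ : Finset Bool) ×ˢ (H r).powerset,
      pw θ η H r x * ((if x.1 = true then 1 else 0) * (if l ∈ x.2 then 1 else 0)) = θ * η r := by
  have h := pw_sum θ η H r (fun b => if b = true then 1 else 0) (fun S => if l ∈ S then 1 else 0)
  rw [h, pw_mem η H r l hl]
  simp

open Classical in
theorem A9_point [Fintype ι] (H : ι → Finset Λ) (η : ι → ℝ) (hη : ∀ r, 0 < η r) (t : DT Bool)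
    (qs : List Bool → List (Term ι Λ × Bool)) (u : ι) (ρ : Rst ι Λ) (hρ : ρ ∈ RS H)
    (ha : (ρ u).1 = true) (hb : η u * (H u).card ≤ 4 * ((ρ u).2).card)
    (hg : ¬ GoodRoot ρ u t qs) :
    1 ≤ (if (ρ u).1 = true then (1 : ℝ) else 0) * A9psi t qs u ∅ ρ +
      8 / (η u * (H u).card) * ∑ l ∈ H u,
        ((if (ρ u).1 = true then (1 : ℝ) else 0) * (if l ∈ (ρ u).2 then 1 else 0)) *
          A9psi t qs u {l} ρ := by
  have hsub : (ρ u).2 ⊆ H u := by
    have := (Fintype.mem_piFinset.1 hρ) u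
    exact Finset.mem_powerset.1 (Finset.mem_product.1 this).2
  have hterm : ∀ l ∈ H u, 0 ≤ ((if (ρ u).1 = true then (1 : ℝ) else 0) *
      (if l ∈ (ρ u).2 then 1 else 0)) * A9psi t qs u {l} ρ := by
    intro l _
    unfold A9psi
    positivity
  have hK : 0 ≤ 8 / (η u * (H u).card) := by
    have := (hη u).le
    positivity
  by_cases hs : Stuck (fun w => res (Function.update ρ u (false, ∅)) (qs w)) t
  · have h1 : (if (ρ u).1 = true then (1 : ℝ) else 0) * A9psi t qs u ∅ ρ = 1 := by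
      unfold A9psi
      rw [if_pos ha, if_pos hs, one_mul]
    rw [h1]
    have := mul_nonneg hK (Finset.sum_nonneg hterm)
    linarith
  · -- the bad labels
    set B : Finset Λ := (ρ u).2.filter fun l =>
      Stuck (fun w => res (Function.update ρ u (false, {l})) (qs w)) t with hB
    have hBc : ¬ (2 * B.card ≤ (ρ u).2.card) := by
      intro h
      refine hg ⟨ha, hs, B, h, ?_⟩
      intro l hl hlB hst
      exact hlB (Finset.mem_filter.2 ⟨hl, hst⟩)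
    have hBH : B ⊆ H u := (Finset.filter_subset _ _).trans hsub
    have hsum : ∑ l ∈ H u, ((if (ρ u).1 = true then (1 : ℝ) else 0) *
        (if l ∈ (ρ u).2 then 1 else 0)) * A9psi t qs u {l} ρ = B.card := by
      rw [Finset.card_eq_sum_ones, Nat.cast_sum]
      symm
      rw [← Finset.sum_subset hBH]
      · refine Finset.sum_congr rfl fun l hl => ?_
        obtain ⟨hl1, hl2⟩ := Finset.mem_filter.1 hl
        unfold A9psi
        rw [if_pos ha, if_pos hl1, if_pos hl2]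
        norm_num
      · intro l _ hlB
        unfold A9psi
        by_cases hl1 : l ∈ (ρ u).2
        · have hl2 : ¬ Stuck (fun w => res (Function.update ρ u (false, {l})) (qs w)) t := by
            intro h
            exact hlB (Finset.mem_filter.2 ⟨hl1, h⟩)
          rw [if_neg hl2, mul_zero]
        · rw [if_neg hl1, mul_zero, zero_mul]
    rw [hsum]
    have h1 : 0 ≤ (if (ρ u).1 = true then (1 : ℝ) else 0) * A9psi t qs u ∅ ρ := by
      unfold A9psi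
      positivity
    have hBpos : 0 < B.card := by omega
    have hHpos : 0 < (H u).card := lt_of_lt_of_le hBpos (Finset.card_le_card hBH)
    have hd : 0 < η u * ((H u).card : ℝ) := mul_pos (hη u) (by exact_mod_cast hHpos)
    have hBr : ((ρ u).2.card : ℝ) < 2 * B.card := by
      have : (ρ u).2.card < 2 * B.card := by omega
      exact_mod_cast this
    have h2 : 1 ≤ 8 / (η u * (H u).card) * (B.card : ℝ) := by
      rw [div_mul_eq_mul_div, le_div_iff₀ hd]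
      linarith
    linarith

open Classical in
theorem bad_bound [Fintype ι] (H : ι → Finset Λ) (θ : ℝ) (h0 : 0 ≤ θ) (h1 : θ ≤ 1 / 2)
    (η : ι → ℝ) (hη : ∀ r, 0 < η r) (hη' : ∀ r, η r ≤ 1 / 2) (x : ℝ) (hηx : ∀ r, 2 * η r ≤ x)
    (W : ℕ) (hx : (1 + x) ^ W ≤ 2) (t : DT Bool) (m : ℕ) (ht : t.depth ≤ m)
    (qs : List Bool → List (Term ι Λ × Bool)) (hW : ∀ w, ∀ a ∈ qs w, a.1.size ≤ W) (u : ι) :
    ∑ ρ ∈ (RS H).filter (fun ρ => (ρ u).1 = true ∧ η u * (H u).card ≤ 4 * ((ρ u).2).card ∧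
        ¬ GoodRoot ρ u t qs),
      wt (pw θ η H) ρ ≤ 36 * m * W * θ ^ 2 := by
  have hη0 : ∀ r, 0 ≤ η r := fun r => (hη r).le
  have hwt : ∀ ρ : Rst ι Λ, 0 ≤ wt (pw θ η H) ρ := fun ρ =>
    Finset.prod_nonneg fun r _ => pw_nonneg θ h0 (by linarith) η hη0
      (fun r => by linarith [hη' r]) H r (ρ r)
  set K : ℝ := 8 / (η u * (H u).card) with hK
  have hK0 : 0 ≤ K := by
    have := hη0 u
    positivity
  set φ1 : Bool × Finset Λ → ℝ := fun x => if x.1 = true then 1 else 0 with hφ1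
  set φ2 : Λ → Bool × Finset Λ → ℝ := fun l x =>
    (if x.1 = true then 1 else 0) * (if l ∈ x.2 then 1 else 0) with hφ2
  have hnn : ∀ ρ : Rst ι Λ, 0 ≤ φ1 (ρ u) * A9psi t qs u ∅ ρ +
      K * ∑ l ∈ H u, φ2 l (ρ u) * A9psi t qs u {l} ρ := by
    intro ρ
    have e1 : 0 ≤ φ1 (ρ u) * A9psi t qs u ∅ ρ := by
      simp only [hφ1]
      unfold A9psi
      positivity
    have e2 : 0 ≤ ∑ l ∈ H u, φ2 l (ρ u) * A9psi t qs u {l} ρ := by
      refine Finset.sum_nonneg fun l _ => ?_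
      simp only [hφ2]
      unfold A9psi
      positivity
    have := mul_nonneg hK0 e2
    linarith
  have key : ∀ ρ ∈ RS H, (if (ρ u).1 = true ∧ η u * (H u).card ≤ 4 * ((ρ u).2).card ∧
        ¬ GoodRoot ρ u t qs then wt (pw θ η H) ρ else 0) ≤
      wt (pw θ η H) ρ * (φ1 (ρ u) * A9psi t qs u ∅ ρ) +
        K * ∑ l ∈ H u, wt (pw θ η H) ρ * (φ2 l (ρ u) * A9psi t qs u {l} ρ) := by
    intro ρ hρ
    have hre : wt (pw θ η H) ρ * (φ1 (ρ u) * A9psi t qs u ∅ ρ) +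
        K * ∑ l ∈ H u, wt (pw θ η H) ρ * (φ2 l (ρ u) * A9psi t qs u {l} ρ) =
        wt (pw θ η H) ρ * (φ1 (ρ u) * A9psi t qs u ∅ ρ +
          K * ∑ l ∈ H u, φ2 l (ρ u) * A9psi t qs u {l} ρ) := by
      rw [← Finset.mul_sum]
      ring
    rw [hre]
    split_ifs with hb
    · have h := A9_point H η hη t qs u ρ hρ hb.1 hb.2.1 hb.2.2
      calc wt (pw θ η H) ρ = wt (pw θ η H) ρ * 1 := (mul_one _).symm
        _ ≤ _ := mul_le_mul_of_nonneg_left h (hwt ρ)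
    · exact mul_nonneg (hwt ρ) (hnn ρ)
  have ha : ∑ ρ ∈ RS H, wt (pw θ η H) ρ * (φ1 (ρ u) * A9psi t qs u ∅ ρ) ≤
      θ * (4 * m * W * θ) :=
    A9_event H θ h0 h1 η hη0 hη' x hηx W hx t m ht qs hW u ∅ (Finset.empty_subset _) φ1 θ h0
      (A9_alive θ η H u)
  have hb : ∀ l ∈ H u, ∑ ρ ∈ RS H, wt (pw θ η H) ρ * (φ2 l (ρ u) * A9psi t qs u {l} ρ) ≤
      θ * η u * (4 * m * W * θ) := fun l hl =>
    A9_event H θ h0 h1 η hη0 hη' x hηx W hx t m ht qs hW u {l}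
      (Finset.singleton_subset_iff.2 hl) (φ2 l) (θ * η u) (mul_nonneg h0 (hη0 u))
      (A9_mem θ η H u l hl)
  have hmW : 0 ≤ (m : ℝ) * W * θ ^ 2 := by positivity
  have hKH : K * ((H u).card : ℝ) * η u ≤ 8 := by
    rcases Nat.eq_zero_or_pos (H u).card with h | h
    · rw [h]
      norm_num
    · have hd : 0 < η u * ((H u).card : ℝ) := mul_pos (hη u) (by exact_mod_cast h)
      rw [hK, div_mul_eq_mul_div, div_mul_eq_mul_div, div_le_iff₀ hd]
      linarith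
  calc ∑ ρ ∈ (RS H).filter (fun ρ => (ρ u).1 = true ∧ η u * (H u).card ≤ 4 * ((ρ u).2).card ∧
        ¬ GoodRoot ρ u t qs), wt (pw θ η H) ρ
      = ∑ ρ ∈ RS H, (if (ρ u).1 = true ∧ η u * (H u).card ≤ 4 * ((ρ u).2).card ∧
        ¬ GoodRoot ρ u t qs then wt (pw θ η H) ρ else 0) := Finset.sum_filter _ _
    _ ≤ ∑ ρ ∈ RS H, (wt (pw θ η H) ρ * (φ1 (ρ u) * A9psi t qs u ∅ ρ) +
        K * ∑ l ∈ H u, wt (pw θ η H) ρ * (φ2 l (ρ u) * A9psi t qs u {l} ρ)) :=
        Finset.sum_le_sum key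
    _ = ∑ ρ ∈ RS H, wt (pw θ η H) ρ * (φ1 (ρ u) * A9psi t qs u ∅ ρ) +
        K * ∑ l ∈ H u, ∑ ρ ∈ RS H, wt (pw θ η H) ρ * (φ2 l (ρ u) * A9psi t qs u {l} ρ) := by
        rw [Finset.sum_add_distrib, ← Finset.mul_sum, Finset.sum_comm]
    _ ≤ θ * (4 * m * W * θ) + K * ∑ l ∈ H u, θ * η u * (4 * m * W * θ) :=
        add_le_add ha (mul_le_mul_of_nonneg_left (Finset.sum_le_sum hb) hK0)
    _ = 4 * (m * W * θ ^ 2) + K * ((H u).card : ℝ) * η u * (4 * (m * W * θ ^ 2)) := by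
        rw [Finset.sum_const, nsmul_eq_mul]
        ring
    _ ≤ 4 * (m * W * θ ^ 2) + 8 * (4 * (m * W * θ ^ 2)) :=
        add_le_add le_rfl (mul_le_mul_of_nonneg_right hKH (by linarith))
    _ = 36 * m * W * θ ^ 2 := by ring

end Pool.Agent.NPC
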