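import Pool.Agent.Lib_helper64.NPC.Defs2
import Pool.Agent.Lib_helper64.NPC.Blk.A5
import Pool.Agent.Lib_helper64.NPC.Blk.A6
import Pool.Agent.Lib_helper64.NPC.Blk.A7
import Pool.Agent.Lib_helper64.NPC.Blk.A9

/-! # NPC, block A10: the random restriction makes many roots good -/

set_option autoImplicit false
set_option linter.unusedSectionVars false

namespace Pool.Agent.NPC

open Pool.Agent.CK

section A10

variable {ι Λ : Type} [DecidableEq ι] [DecidableEq Λ]

theorem a10_swap {α β : Type} (S : Finset α) (R : Finset β) (w : α → ℝ) (Q : α → β → Prop)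
    [∀ a, DecidablePred (Q a)] [∀ b, DecidablePred fun a => Q a b] :
    ∑ a ∈ S, w a * ((R.filter (Q a)).card : ℝ) =
      ∑ b ∈ R, ∑ a ∈ S.filter (fun a => Q a b), w a := by
  have h1 : ∀ a ∈ S, w a * ((R.filter (Q a)).card : ℝ) =
      ∑ b ∈ R, if Q a b then w a else 0 := by
    intro a _
    rw [Finset.card_filter, Nat.cast_sum, Finset.mul_sum]
    refine Finset.sum_congr rfl fun b _ => ?_
    split_ifs <;> simp
  rw [Finset.sum_congr rfl h1, Finset.sum_comm]
  refine Finset.sum_congr rfl fun b _ => ?_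
  rw [Finset.sum_filter]

open Classical in
theorem prob_main {K : Type} [Fintype ι] [Fintype K] (H : ι → Finset Λ)
    (cls : ι → Finset (Finset Λ)) (hcls : ∀ r, H r ∈ cls r) (hcls' : ∀ r, ∀ P ∈ cls r, P ⊆ H r)
    (θ : ℝ) (hθ : 0 < θ) (hθ' : θ ≤ 1 / 2) (η : ι → ℝ) (hη : ∀ r, 0 < η r) (hη' : ∀ r, η r ≤ 1 / 2)
    (Rk : K → Finset ι) (t : K → ι → DT Bool)
    (qs : K → ι → List Bool → List (Term ι Λ × Bool))
    (m W : ℕ) (ht : ∀ k, ∀ r ∈ Rk k, (t k r).depth ≤ m)
    (hW : ∀ k r w, ∀ a ∈ qs k r w, a.1.size ≤ W)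
    (x : ℝ) (hηx : ∀ r, 2 * η r ≤ x) (hx : (1 + x) ^ W ≤ 2)
    (h1 : 2304 * (Fintype.card K : ℝ) * m * W * θ ≤ 1)
    (h2 : ∀ k, 4 * (Fintype.card K : ℝ) * Real.exp (-(θ * (Rk k).card / 4)) ≤ 1)
    (h3 : ∀ r, 64 * (Fintype.card K : ℝ) * ∑ P ∈ cls r, Real.exp (-(η r * P.card / 4)) ≤ 1) :
    ∃ ρ ∈ RS H, ∀ k, θ * (Rk k).card ≤ 8 * ((Rk k).filter fun r =>
      (ρ r).1 = true ∧ HBig η cls ρ r ∧ GoodRoot ρ r (t k r) (qs k r)).card := by
  rcases isEmpty_or_nonempty K with hK | hK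
  · refine ⟨fun _ => (true, ∅), ?_, fun k => hK.elim k⟩
    unfold RS
    rw [Fintype.mem_piFinset]
    intro r
    rw [Finset.mem_product, Finset.mem_powerset]
    exact ⟨Finset.mem_univ _, Finset.empty_subset _⟩
  have hη0 : ∀ r, 0 ≤ η r := fun r => (hη r).le
  have hη1 : ∀ r, η r ≤ 1 := fun r => (hη' r).trans (by norm_num)
  have hθ1 : θ ≤ 1 := hθ'.trans (by norm_num)
  set w : Rst ι Λ → ℝ := wt (pw θ η H) with hw
  have hw0 : ∀ ρ, 0 ≤ w ρ := fun ρ =>
    Finset.prod_nonneg fun r _ => pw_nonneg θ hθ.le hθ1 η hη0 hη1 H r _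
  have hw1 : ∑ ρ ∈ RS H, w ρ = 1 := wt_sum_one H _ fun r => pw_sum_one θ η H r
  have hKc : (1 : ℝ) ≤ Fintype.card K := by exact_mod_cast Fintype.card_pos
  have hKp : (0 : ℝ) < Fintype.card K := by linarith
  have hN : ∀ k, (0 : ℝ) < (Rk k).card := by
    intro k
    rcases Nat.eq_zero_or_pos (Rk k).card with h | h
    · exfalso
      have h4 := h2 k
      rw [h] at h4
      simp only [Nat.cast_zero, mul_zero, zero_div, neg_zero, Real.exp_zero, mul_one] at h4
      linarith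
    · exact_mod_cast h
  by_contra hcon
  push Not at hcon
  -- the three counts
  let F : K → Rst ι Λ → ℝ := fun k ρ =>
    (if 4 * (((Rk k).filter fun r => (ρ r).1 = true).card : ℝ) < θ * (Rk k).card then 1 else 0) +
    (16 / (θ * (Rk k).card)) *
      (((Rk k).filter fun r => (ρ r).1 = true ∧ ¬ HBig η cls ρ r).card : ℝ) +
    (16 / (θ * (Rk k).card)) *
      (((Rk k).filter fun r => (ρ r).1 = true ∧ HBig η cls ρ r ∧
        ¬ GoodRoot ρ r (t k r) (qs k r)).card : ℝ)
  have hF0 : ∀ k ρ, 0 ≤ F k ρ := by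
    intro k ρ
    have h4 : 0 ≤ 16 / (θ * (Rk k).card) := by
      have := hN k
      positivity
    refine add_nonneg (add_nonneg ?_ (mul_nonneg h4 (Nat.cast_nonneg _)))
      (mul_nonneg h4 (Nat.cast_nonneg _))
    split_ifs
    · exact zero_le_one
    · exact le_rfl
  have hF1 : ∀ ρ ∈ RS H, 1 ≤ ∑ k, F k ρ := by
    intro ρ hρ
    obtain ⟨k, hk⟩ := hcon ρ hρ
    refine le_trans ?_ (Finset.single_le_sum (fun k _ => hF0 k ρ) (Finset.mem_univ k))
    set N : ℝ := ((Rk k).card : ℝ) with hNd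
    have hNp : 0 < N := hN k
    set a := ((Rk k).filter fun r => (ρ r).1 = true) with ha
    set b := ((Rk k).filter fun r => (ρ r).1 = true ∧ ¬ HBig η cls ρ r) with hb
    set c := ((Rk k).filter fun r => (ρ r).1 = true ∧ HBig η cls ρ r ∧
        ¬ GoodRoot ρ r (t k r) (qs k r)) with hc
    set d := ((Rk k).filter fun r => (ρ r).1 = true ∧ HBig η cls ρ r ∧
        GoodRoot ρ r (t k r) (qs k r)) with hd
    have hsub : a ⊆ b ∪ (c ∪ d) := by
      intro r hr
      rw [ha, Finset.mem_filter] at hr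
      rw [Finset.mem_union, Finset.mem_union, hb, hc, hd, Finset.mem_filter, Finset.mem_filter,
        Finset.mem_filter]
      by_cases h5 : HBig η cls ρ r
      · by_cases h6 : GoodRoot ρ r (t k r) (qs k r)
        · exact Or.inr (Or.inr ⟨hr.1, hr.2, h5, h6⟩)
        · exact Or.inr (Or.inl ⟨hr.1, hr.2, h5, h6⟩)
      · exact Or.inl ⟨hr.1, hr.2, h5⟩
    have hcard : (a.card : ℝ) ≤ b.card + (c.card + d.card) := by
      have h5 := (Finset.card_le_card hsub).trans (Finset.card_union_le _ _)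
      have h6 := Finset.card_union_le c d
      exact_mod_cast h5.trans (Nat.add_le_add_left h6 _)
    show 1 ≤ (if 4 * (a.card : ℝ) < θ * N then (1 : ℝ) else 0) + (16 / (θ * N)) * (b.card : ℝ) +
      (16 / (θ * N)) * (c.card : ℝ)
    have hb0 : (0 : ℝ) ≤ b.card := Nat.cast_nonneg _
    have hc0 : (0 : ℝ) ≤ c.card := Nat.cast_nonneg _
    have hθN : 0 < θ * N := mul_pos hθ hNp
    have h16 : 0 ≤ 16 / (θ * N) := by positivity
    split_ifs with h5
    · have := mul_nonneg h16 hb0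
      have := mul_nonneg h16 hc0
      linarith
    · push Not at h5
      have h6 : θ * N / 16 ≤ b.card + c.card := by
        have h7 : 8 * (d.card : ℝ) < θ * N := hk
        linarith
      rw [zero_add, ← mul_add]
      calc (1 : ℝ) = 16 / (θ * N) * (θ * N / 16) := by field_simp
        _ ≤ 16 / (θ * N) * (b.card + c.card) := mul_le_mul_of_nonneg_left h6 h16
  -- expectations
  have hE : ∀ k, ∑ ρ ∈ RS H, w ρ * F k ρ ≤ 3 / (4 * Fintype.card K) := by
    intro k
    set N : ℝ := ((Rk k).card : ℝ) with hNd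
    have hNp : 0 < N := hN k
    have hθN : 0 < θ * N := mul_pos hθ hNp
    have e1 : ∑ ρ ∈ RS H, w ρ *
        (if 4 * (((Rk k).filter fun r => (ρ r).1 = true).card : ℝ) < θ * N then (1 : ℝ) else 0) ≤
        1 / (4 * Fintype.card K) := by
      have h4 := alive_tail H θ hθ.le hθ1 η hη0 hη1 (Rk k)
      have h5 : Real.exp (-(θ * (Rk k).card / 4)) ≤ 1 / (4 * Fintype.card K) := by
        rw [le_div_iff₀ (by positivity)]
        have := h2 k
        linarith
      refine le_trans (le_of_eq ?_) (h4.trans h5)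
      rw [Finset.sum_filter]
      refine Finset.sum_congr rfl fun ρ _ => ?_
      rw [mul_ite, mul_one, mul_zero]
    have e2 : ∑ ρ ∈ RS H, w ρ *
        (((Rk k).filter fun r => (ρ r).1 = true ∧ ¬ HBig η cls ρ r).card : ℝ) ≤
        N * (θ * (1 / (64 * Fintype.card K))) := by
      rw [a10_swap]
      have h4 : ∀ r ∈ Rk k, ∑ ρ ∈ (RS H).filter (fun ρ => (ρ r).1 = true ∧ ¬ HBig η cls ρ r),
          w ρ ≤ θ * (1 / (64 * Fintype.card K)) := by
        intro r _
        refine (hbig_tail H cls hcls' θ hθ.le hθ1 η hη0 hη1 r).trans ?_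
        refine mul_le_mul_of_nonneg_left ?_ hθ.le
        rw [le_div_iff₀ (by positivity)]
        have := h3 r
        linarith
      refine (Finset.sum_le_sum h4).trans (le_of_eq ?_)
      rw [Finset.sum_const, nsmul_eq_mul]
    have e3 : ∑ ρ ∈ RS H, w ρ *
        (((Rk k).filter fun r => (ρ r).1 = true ∧ HBig η cls ρ r ∧
          ¬ GoodRoot ρ r (t k r) (qs k r)).card : ℝ) ≤
        N * (36 * m * W * θ ^ 2) := by
      rw [a10_swap]
      have h4 : ∀ r ∈ Rk k, ∑ ρ ∈ (RS H).filter (fun ρ => (ρ r).1 = true ∧ HBig η cls ρ r ∧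
          ¬ GoodRoot ρ r (t k r) (qs k r)), w ρ ≤ 36 * m * W * θ ^ 2 := by
        intro r hr
        refine le_trans ?_ (bad_bound H θ hθ.le hθ' η hη hη' x hηx W hx (t k r) m (ht k r hr)
          (qs k r) (hW k r) r)
        refine Finset.sum_le_sum_of_subset_of_nonneg ?_ fun ρ _ _ => hw0 ρ
        intro ρ hρ
        rw [Finset.mem_filter] at hρ ⊢
        obtain ⟨hρ1, hρ2, hρ3, hρ4⟩ := hρ
        refine ⟨hρ1, hρ2, ?_, hρ4⟩
        refine (hρ3 (H r) (hcls r)).trans ?_
        have h5 : ((ρ r).2 ∩ H r).card ≤ ((ρ r).2).card := Finset.card_le_card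
          Finset.inter_subset_left
        have h6 : ((((ρ r).2 ∩ H r).card : ℕ) : ℝ) ≤ (((ρ r).2).card : ℝ) := by exact_mod_cast h5
        linarith
      refine (Finset.sum_le_sum h4).trans (le_of_eq ?_)
      rw [Finset.sum_const, nsmul_eq_mul]
    have h16 : 0 ≤ 16 / (θ * N) := by positivity
    have hsplit : ∑ ρ ∈ RS H, w ρ * F k ρ =
        ∑ ρ ∈ RS H, w ρ *
          (if 4 * (((Rk k).filter fun r => (ρ r).1 = true).card : ℝ) < θ * N then (1 : ℝ) else 0) +
        (16 / (θ * N)) * ∑ ρ ∈ RS H, w ρ *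
          (((Rk k).filter fun r => (ρ r).1 = true ∧ ¬ HBig η cls ρ r).card : ℝ) +
        (16 / (θ * N)) * ∑ ρ ∈ RS H, w ρ *
          (((Rk k).filter fun r => (ρ r).1 = true ∧ HBig η cls ρ r ∧
            ¬ GoodRoot ρ r (t k r) (qs k r)).card : ℝ) := by
      rw [Finset.mul_sum, Finset.mul_sum, ← Finset.sum_add_distrib, ← Finset.sum_add_distrib]
      refine Finset.sum_congr rfl fun ρ _ => ?_
      show w ρ * ((if 4 * (((Rk k).filter fun r => (ρ r).1 = true).card : ℝ) <
        θ * (Rk k).card then (1 : ℝ) else 0) + _ + _) = _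
      ring
    rw [hsplit]
    have e2' := mul_le_mul_of_nonneg_left e2 h16
    have e3' := mul_le_mul_of_nonneg_left e3 h16
    have g2 : 16 / (θ * N) * (N * (θ * (1 / (64 * Fintype.card K)))) =
        1 / (4 * Fintype.card K) := by
      field_simp
      norm_num
    have g3 : 16 / (θ * N) * (N * (36 * m * W * θ ^ 2)) ≤ 1 / (4 * Fintype.card K) := by
      have g4 : 16 / (θ * N) * (N * (36 * m * W * θ ^ 2)) = 576 * m * W * θ := by
        rw [div_mul_eq_mul_div, div_eq_iff hθN.ne']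
        ring
      rw [g4, le_div_iff₀ (by positivity)]
      calc 576 * (m : ℝ) * W * θ * (4 * Fintype.card K) =
          2304 * (Fintype.card K : ℝ) * m * W * θ := by ring
        _ ≤ 1 := h1
    have g5 : 3 / (4 * (Fintype.card K : ℝ)) = 1 / (4 * Fintype.card K) +
        1 / (4 * Fintype.card K) + 1 / (4 * Fintype.card K) := by ring
    rw [g5]
    linarith
  have hsum : ∑ ρ ∈ RS H, w ρ * ∑ k, F k ρ ≤ 3 / 4 := by
    have h4 : ∑ ρ ∈ RS H, w ρ * ∑ k, F k ρ = ∑ k, ∑ ρ ∈ RS H, w ρ * F k ρ := by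
      rw [Finset.sum_comm]
      exact Finset.sum_congr rfl fun ρ _ => Finset.mul_sum _ _ _
    rw [h4]
    refine (Finset.sum_le_sum fun k _ => hE k).trans (le_of_eq ?_)
    rw [Finset.sum_const, nsmul_eq_mul, Finset.card_univ]
    field_simp
  have hge : 1 ≤ ∑ ρ ∈ RS H, w ρ * ∑ k, F k ρ := by
    rw [← hw1]
    refine Finset.sum_le_sum fun ρ hρ => ?_
    calc w ρ = w ρ * 1 := (mul_one _).symm
      _ ≤ w ρ * ∑ k, F k ρ := mul_le_mul_of_nonneg_left (hF1 ρ hρ) (hw0 ρ)
  linarith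

end A10

end Pool.Agent.NPC
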