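import Pool.Agent.Lib_helper64.NPC.Defs2

/-! NPC block F6: restriction of a family. -/

set_option autoImplicit false

namespace Pool.Agent.NPC

open Pool.Agent.CK

theorem f6_keep {keep : Finset (List Bool)} {ρ : List Bool → Bool × Finset (List Bool)}
    {ω : St} {p : Lit} (h : p.1 ∈ keep) :
    rstate keep ρ ω p = (ω p && decide (p.2 ∈ (ρ p.1).2)) := by
  unfold rstate
  rw [if_pos h]

theorem f6_agree {keep : Finset (List Bool)} {ρ : List Bool → Bool × Finset (List Bool)}
    {ω ω' : St} {p : Lit} (h : p.1 ∈ keep → p.2 ∈ (ρ p.1).2 → ω' p = ω p) :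
    rstate keep ρ ω' p = rstate keep ρ ω p := by
  unfold rstate
  by_cases h1 : p.1 ∈ keep
  · rw [if_pos h1, if_pos h1]
    by_cases h2 : p.2 ∈ (ρ p.1).2
    · rw [h h1 h2]
    · simp [h2]
  · rw [if_neg h1, if_neg h1]

theorem restrict {L : ℕ} (A : Fam L) (keep : Finset (List Bool)) (hk : keep ⊆ A.R)
    (ρ : List Bool → Bool × Finset (List Bool)) (hρ : ∀ r ∈ A.R, (ρ r).2 ⊆ A.H r) :
    ∃ B : Fam L, Sub B A ∧ B.R = keep ∧ (∀ r ∈ keep, B.H r = (ρ r).2) ∧
      ∀ ω, B.F ω = A.F (rstate keep ρ ω) := by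
  classical
  let B : Fam L :=
    { R := keep
      H := fun r => if r ∈ keep then (ρ r).2 else ∅
      F := fun ω => A.F (rstate keep ρ ω)
      hR := fun r hr => A.hR r (hk hr)
      hH := fun r l hl => by
        by_cases h : r ∈ keep
        · rw [if_pos h] at hl
          exact A.hH r l (hρ r (hk h) hl)
        · rw [if_neg h] at hl
          simp at hl
      free := fun r hr l hl ω => by
        rw [A.free r (hk hr) l hl, f6_keep (p := (r, l)) hr, if_pos hr]
        by_cases h : l ∈ (ρ r).2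
        · have h2 : l ∈ A.H r := hρ r (hk hr) h
          simp [h, h2]
        · simp [h]
      cert := fun ω w hw => by
        obtain ⟨T, h1, h2, h3⟩ := A.cert (rstate keep ρ ω) w hw
        refine ⟨T.filter (fun p => p.1 ∈ keep ∧ p.2 ∈ (ρ p.1).2), ?_, ?_, ?_⟩
        · intro p hp
          rw [Finset.mem_filter] at hp
          refine ⟨hp.2.1, ?_⟩
          rw [if_pos hp.2.1]
          exact hp.2.2
        · refine le_trans ?_ h2
          unfold tw
          exact Finset.sum_le_sum_of_subset (Finset.filter_subset _ _)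
        · intro ω' hω'
          refine h3 (rstate keep ρ ω') fun p hp => f6_agree fun ha hb => ?_
          exact hω' p (Finset.mem_filter.2 ⟨hp, ha, hb⟩) }
  refine ⟨B, ⟨hk, ?_, rstate keep ρ, fun _ => rfl, ?_⟩, rfl, ?_, fun _ => rfl⟩
  · intro r hr
    have hr' : r ∈ keep := hr
    show (if r ∈ keep then (ρ r).2 else ∅) ⊆ A.H r
    rw [if_pos hr']
    exact hρ r (hk hr')
  · intro r hr l hl ω
    have hr' : r ∈ keep := hr
    have hl' : l ∈ (if r ∈ keep then (ρ r).2 else ∅) := hl
    rw [if_pos hr'] at hl'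
    rw [f6_keep (p := (r, l)) hr']
    simp [hl']
  · intro r hr
    show (if r ∈ keep then (ρ r).2 else ∅) = (ρ r).2
    rw [if_pos hr]

end Pool.Agent.NPC
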