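import Pool.Agent.Lib_helper64.NPC.Defs2
import Pool.Agent.Lib_helper64.NPC.Blk.A10
import Pool.Agent.Lib_helper64.NPC.Blk.A13
import Pool.Agent.Lib_helper64.NPC.Blk.F1
import Pool.Agent.Lib_helper64.NPC.Blk.F5c
import Pool.Agent.Lib_helper64.NPC.Blk.F6
import Pool.Agent.Lib_helper64.NPC.Blk.F7
import Pool.Agent.Lib_helper64.NPC.Blk.F8n


/-!
# F8: the random restriction of a family (MP_675993_lc)
-/

set_option autoImplicit false

namespace Pool.Agent.NPC

open Pool.Agent.CK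

/-! ### Numbers -/

theorem F8_ex_le (j : ℕ) : ex j ≤ j := Nat.unpair_right_le j

/-- `a + 2 ≤ (b + 2) ^ (j + 2)` -/
theorem F8_a (b j : ℕ) : b + (b + 2) ^ ex j + 2 ≤ (b + 2) ^ (j + 2) := by
  have h1 : (b + 2) ^ ex j ≤ (b + 2) ^ (j + 1) :=
    Nat.pow_le_pow_right (by omega) ((F8_ex_le j).trans (by omega))
  have h2 : (b + 2) ^ 1 ≤ (b + 2) ^ (j + 1) := Nat.pow_le_pow_right (by omega) (by omega)
  have h3 : (b + 2) ^ (j + 2) = (b + 2) ^ (j + 1) * (b + 2) := pow_succ _ _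
  have h4 : (b + 2) ^ (j + 1) * 2 ≤ (b + 2) ^ (j + 1) * (b + 2) :=
    Nat.mul_le_mul_left _ (by omega)
  rw [h3]
  rw [pow_one] at h2
  omega

theorem F8_a_lt {b i j L : ℕ} (h : (b + 2) ^ ((j + 2) * (i + 2)) ≤ L) :
    b + (b + 2) ^ ex j < L ∧ (b + (b + 2) ^ ex j + 2) ^ (i + 2) ≤ L ∧ 2 * b + 2 < L ∧
      (b + 2) ^ ex j ≤ L := by
  have h1 := F8_a b j
  have h2 : (b + (b + 2) ^ ex j + 2) ^ (i + 2) ≤ (b + 2) ^ ((j + 2) * (i + 2)) := by
    rw [pow_mul]
    exact Nat.pow_le_pow_left h1 _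
  have h3 : (b + 2) ^ (j + 2) ≤ (b + 2) ^ ((j + 2) * (i + 2)) :=
    Nat.pow_le_pow_right (by omega) (Nat.le_mul_of_pos_right _ (by omega))
  have h4 : (b + 2) ^ 2 ≤ (b + 2) ^ (j + 2) := Nat.pow_le_pow_right (by omega) (by omega)
  have h5 : 2 * b + 2 < (b + 2) ^ 2 := by nlinarith
  exact ⟨by omega, h2.trans h, by omega, by omega⟩

theorem F8_num1 {L : ℕ} (h : 16 ≤ L) : 4 * L * (2 * L ^ 2 + 1) ≤ L ^ 4 := by
  have h1 : L ^ 4 = L * L ^ 3 := by ring
  have h2 : 16 * L ^ 3 ≤ L * L ^ 3 := Nat.mul_le_mul_right _ h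
  have h3 : L ≤ L ^ 3 := Nat.le_self_pow (by norm_num) L
  rw [h1]
  nlinarith

theorem F8_num2 {L : ℕ} (h : 16 ≤ L) : 4 * L * L ^ 2 < L ^ 100 := by
  have h1 : 4 * L * L ^ 2 = 4 * L ^ 3 := by ring
  have h2 : L ^ 4 ≤ L ^ 100 := Nat.pow_le_pow_right (by omega) (by norm_num)
  have h3 : L ^ 4 = L * L ^ 3 := by ring
  have h4 : 16 * L ^ 3 ≤ L * L ^ 3 := Nat.mul_le_mul_right _ h
  have h5 : 0 < L ^ 3 := by positivity
  rw [h1]
  omega

/-- the lower bound for the number of slots -/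
theorem F8_count {L : ℕ} (hL : 16 ≤ L) {b N g : ℕ} (h1 : 2 ^ b ≤ L ^ 20 * N)
    (h2 : 1 / (L : ℝ) ^ 8 * (N : ℝ) ≤ 8 * (g : ℝ)) : 2 ^ b ≤ 8 * L ^ 28 * g := by
  have hL0 : (0 : ℝ) < (L : ℝ) ^ 8 := by positivity
  have h3 : (N : ℝ) ≤ 8 * g * (L : ℝ) ^ 8 := by
    have := mul_le_mul_of_nonneg_left h2 hL0.le
    calc (N : ℝ) = (L : ℝ) ^ 8 * (1 / (L : ℝ) ^ 8 * N) := by field_simp
      _ ≤ (L : ℝ) ^ 8 * (8 * g) := this
      _ = 8 * g * (L : ℝ) ^ 8 := by ring
  have h4 : N ≤ 8 * g * L ^ 8 := by exact_mod_cast h3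
  calc 2 ^ b ≤ L ^ 20 * N := h1
    _ ≤ L ^ 20 * (8 * g * L ^ 8) := Nat.mul_le_mul_left _ h4
    _ = 8 * L ^ 28 * g := by ring

/-- the size of a class of hidden labels -/
theorem F8_class {J j n L : ℕ} (hJ : 1 ≤ J) (hj : j < J) (hNC : NC J n L) {b : ℕ}
    (hb : n ≤ 2 * b + 2) {P s : ℕ} (hP : 2 ^ hx J j b ≤ P)
    (h : (1 / 2 : ℝ) ^ te J b * (P : ℝ) ≤ 4 * (s : ℝ)) : 2 ^ hx J (j + 1) b ≤ s := by
  obtain ⟨h1, -⟩ := hx_step hJ hj hNC hb
  have h2 : (2 : ℝ) ^ hx J j b ≤ P := by exact_mod_cast hP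
  rw [h1, pow_add, pow_add] at h2
  have h3 : (1 / 2 : ℝ) ^ te J b * ((2 : ℝ) ^ hx J (j + 1) b * (2 ^ te J b * 2 ^ 2)) ≤
      (1 / 2 : ℝ) ^ te J b * P := mul_le_mul_of_nonneg_left h2 (by positivity)
  have h4 : (1 / 2 : ℝ) ^ te J b * ((2 : ℝ) ^ hx J (j + 1) b * (2 ^ te J b * 2 ^ 2)) =
      4 * (2 : ℝ) ^ hx J (j + 1) b := by
    have : (1 / 2 : ℝ) ^ te J b * 2 ^ te J b = 1 := by
      rw [← mul_pow]; norm_num
    linear_combination (4 * (2 : ℝ) ^ hx J (j + 1) b) * this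
  have h5 : (2 : ℝ) ^ hx J (j + 1) b ≤ s := by linarith
  exact_mod_cast h5

/-! ### Translation -/

/-- the restriction as a function on strings -/
noncomputable def F8_rho {L : ℕ} (A : Fam L) (ρ : Rst {r // r ∈ A.R} (List Bool)) :
    List Bool → Bool × Finset (List Bool) := fun r =>
  if h : r ∈ A.R then ρ ⟨r, h⟩ else (true, ∅)

theorem F8_rho_mem {L : ℕ} (A : Fam L) (ρ : Rst {r // r ∈ A.R} (List Bool)) {r : List Bool}
    (h : r ∈ A.R) : F8_rho A ρ r = ρ ⟨r, h⟩ := by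
  rw [F8_rho, dif_pos h]

theorem F8_rho_not {L : ℕ} (A : Fam L) (ρ : Rst {r // r ∈ A.R} (List Bool)) {r : List Bool}
    (h : r ∉ A.R) : F8_rho A ρ r = (true, ∅) := by
  rw [F8_rho, dif_neg h]

/-- the state of the abstract layer -/
noncomputable def F8_st {L : ℕ} (A : Fam L) (ρ : Rst {r // r ∈ A.R} (List Bool))
    (keep : Finset (List Bool)) (ω : St) : {r // r ∈ A.R} × List Bool → Bool := fun p =>
  rstate keep (F8_rho A ρ) ω (p.1.1, p.2)

theorem F8_est {L : ℕ} (A : Fam L) (ρ : Rst {r // r ∈ A.R} (List Bool))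
    (keep : Finset (List Bool)) (hk : keep ⊆ A.R) (ω : St) :
    est A (F8_st A ρ keep ω) = rstate keep (F8_rho A ρ) ω := by
  funext p
  unfold est
  split_ifs with h
  · rfl
  · have h1 : p.1 ∉ keep := fun h' => h (hk h')
    unfold rstate
    rw [if_neg h1, F8_rho_not A ρ h]
    rfl

theorem F8_comp {L : ℕ} (A : Fam L) (ρ : Rst {r // r ∈ A.R} (List Bool))
    (keep : Finset (List Bool)) (hk : ∀ r ∈ keep, (F8_rho A ρ r).1 = true) (ω : St) :
    Comp ρ (F8_st A ρ keep ω) := by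
  intro r l
  have e : F8_rho A ρ r.1 = ρ r := F8_rho_mem A ρ r.2
  refine ⟨fun hl => ?_, fun hr hl => ?_⟩
  · unfold F8_st rstate
    simp only [e]
    split_ifs
    · simp [hl]
    · rfl
    · simp [hl]
  · unfold F8_st rstate
    simp only [e]
    have h1 : r.1 ∉ keep := by
      intro h
      have := hk _ h
      rw [e, hr] at this
      exact absurd this (by decide)
    rw [if_neg h1, hr]
    simp [hl]

theorem F8_good {L : ℕ} (hL : 16 ≤ L) {G : Finset (ℕ × ℕ × ℕ)} {M : Finset (ℕ × ℕ)} {n : ℕ}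
    (hnL : n ≤ L) {O : Lang} (hNT : NT G n O) (hU : Unk G M n O) (A B : Fam L)
    (hA : FamOK G n O A) (ρ : Rst {r // r ∈ A.R} (List Bool)) (hρ : ∀ r, (ρ r).2 ⊆ A.H r.1)
    (keep : Finset (List Bool)) (hk : keep ⊆ A.R) (hk' : ∀ r ∈ keep, (F8_rho A ρ r).1 = true)
    (hBH : ∀ r ∈ keep, B.H r = (F8_rho A ρ r).2)
    (hBF : ∀ ω, B.F ω = A.F (rstate keep (F8_rho A ρ) ω)) (m : ℕ × ℕ) (hm : m ∈ M) (b : ℕ)
    (hb : (b + 2) ^ ((m.2 + 2) * (m.1 + 2)) ≤ L)
    (qs : List Bool → List (Term {r // r ∈ A.R} (List Bool) × Bool))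
    (hq1 : ∀ w, ∀ t ∈ qs w, t.1.size ≤ L ^ 2)
    (hq2 : ∀ w, ∀ t ∈ qs w, ∀ ω, t.1.Holds ω → nf A m.1 w ω = t.2)
    (hq3 : ∀ w : List Bool, w.length ≤ b + (b + 2) ^ ex m.2 → ∀ ω, nf A m.1 w ω = true →
      ∃ t ∈ qs w, t.1.Holds ω)
    (hq4 : ∀ w : List Bool, w.length ≤ b + (b + 2) ^ ex m.2 → (¬ ∃ q, w = true :: q) →
      ∀ ω, ∃ t ∈ qs w, t.1.Holds ω)
    (u : {r // r ∈ A.R}) (hub : u.1.length = b) (huk : u.1 ∈ keep)
    (hg : GoodRoot ρ u (PT m.2 u.1) qs) (hbig : 4 * L * L ^ 2 < (ρ u).2.card) :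
    ∃ (q : List Bool) (S : Finset (List Bool)),
      (q.length + 2) ^ (m.1 + 2) ≤ (b + 2) ^ ((m.2 + 2) * (m.1 + 2)) ∧
      (ρ u).2.card ≤ L ^ 4 * S.card ∧ HGood B m.1 u.1 q S := by
  have hnum := F8_a_lt hb
  have hall : (PT m.2 u.1).AllQ (fun w => w.length ≤ b + (b + 2) ^ ex m.2) := by
    have := allQ_PT m.2 u.1
    rwa [hub] at this
  have hdep : (PT m.2 u.1).depth ≤ L := by
    have := depth_PT m.2 u.1
    rw [hub] at this
    exact this.trans hnum.2.2.2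
  have hcor : ∀ ω, Comp ρ ω → ((PT m.2 u.1).eval (fun w => nf A m.1 w ω) = true ↔
      ∃ l, ω (u, l) = true) := by
    intro ω hω
    have e1 : (PT m.2 u.1).eval (fun w => nf A m.1 w ω) = V (A.F (est A ω)) u.1 := by
      have e2 : (fun w => nf A m.1 w ω) = join (A.F (est A ω)) (NL m.1 (A.F (est A ω))) := rfl
      rw [e2, eval_PT]
      exact fam_cor hnL hNT hU A hA m hm u.1 (by rw [hub]; exact hb) (est A ω)
    rw [e1, V_free A u.2]
    have e3 : ∀ l, est A ω (u.1, l) = ω (u, l) := by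
      intro l
      unfold est
      rw [dif_pos u.2]
    constructor
    · rintro ⟨l, -, hl⟩
      exact ⟨l, by rw [← e3]; exact hl⟩
    · rintro ⟨l, hl⟩
      refine ⟨l, ?_, by rw [e3]; exact hl⟩
      by_contra hcon
      have h1 := (hω u l).1 (fun h => hcon (hρ u h))
      rw [h1] at hl
      exact absurd hl (by decide)
  obtain ⟨q, hqP, S, hS, hcard, hgood⟩ := good_slot ρ u (PT m.2 u.1) qs (nf A m.1)
    (fun w => w.length ≤ b + (b + 2) ^ ex m.2) hall L (L ^ 2) hdep (fun w _ => hq1 w)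
    (fun w _ => hq2 w) hq3 hq4 hcor hg hbig
  have eu : F8_rho A ρ u.1 = ρ u := F8_rho_mem A ρ u.2
  refine ⟨q, S, ?_, ?_, ?_, ?_⟩
  · have h1 : q.length + 2 ≤ (b + 2) ^ (m.2 + 2) := by
      have := F8_a b m.2
      simp only [List.length_cons] at hqP
      omega
    rw [pow_mul]
    exact Nat.pow_le_pow_left h1 _
  · refine hcard.trans ?_
    rw [mul_comm]
    exact Nat.mul_le_mul_right _ (F8_num1 hL)
  · rw [hBH u.1 huk, eu]
    exact hS
  · intro ω hω
    have e0 : F8_st A ρ keep ω = fun p => rstate keep (F8_rho A ρ) ω (p.1.1, p.2) := rfl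
    have e1 : ∀ l, F8_st A ρ keep ω (u, l) = (ω (u.1, l) && decide (l ∈ (ρ u).2)) := by
      intro l
      rw [e0]
      unfold rstate
      simp only [if_pos huk, eu]
    have e2 := hgood (F8_st A ρ keep ω) (F8_comp A ρ keep hk' ω) (by
      intro l hl
      rw [e1, Bool.and_eq_true, decide_eq_true_iff] at hl
      refine hω l ?_ hl.1
      rw [hBH u.1 huk, eu]
      exact hl.2)
    have e3 : nf A m.1 (true :: q) (F8_st A ρ keep ω) = NL m.1 (B.F ω) q := by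
      unfold nf
      rw [F8_est A ρ keep hk, ← hBF]
      rfl
    rw [e3] at e2
    rw [e2]
    constructor
    · rintro ⟨l, hl⟩
      rw [e1, Bool.and_eq_true, decide_eq_true_iff] at hl
      refine ⟨l, hω l ?_ hl.1, hl.1⟩
      rw [hBH u.1 huk, eu]
      exact hl.2
    · rintro ⟨l, hl, hl'⟩
      refine ⟨l, ?_⟩
      rw [e1, hl']
      simp [hS hl]

/-! ### The random restriction -/

/-- the classes of labels of a slot -/
def F8_cls {L : ℕ} (A : Fam L) (labs' : Finset (List Bool)) (r : List Bool) :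
    Finset (Finset (List Bool)) :=
  insert (A.H r) (labs'.image fun κ => cl r.length κ (A.H r))

/-- the computations that are considered -/
def F8_V {M : Finset (ℕ × ℕ)} (n L : ℕ) (k : Option {m // m ∈ M} × Fin L) : Prop :=
  n ≤ 2 * k.2.1 + 2 ∧ 2 * k.2.1 + 2 < L ∧
    ∀ m, k.1 = some m → (k.2.1 + 2) ^ ((m.1.2 + 2) * (m.1.1 + 2)) ≤ L

theorem restr_good {J j n L : ℕ} (hJ : 1 ≤ J) (hj : j < J) (hNC : NC J n L)
    {G : Finset (ℕ × ℕ × ℕ)} {M : Finset (ℕ × ℕ)} (hM : M.card + 1 ≤ L) {O : Lang}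
    (hNT : NT G n O) (hU : Unk G M n O) (A : Fam L) (hA : FamOK G n O A)
    (hB : FamBig n (hx J j) A) :
    ∃ B : Fam L, Sub B A ∧
      (∀ b, n ≤ 2 * b + 2 → 2 * b + 2 < L →
        2 ^ b ≤ 8 * L ^ 28 * (B.R.filter fun r => r.length = b).card) ∧
      (∀ r ∈ B.R, ∀ κ : List Bool, κ.length = r.length / 4 →
        2 ^ hx J (j + 1) r.length ≤ (cl r.length κ (B.H r)).card) ∧
      ∀ m ∈ M, ∀ b, n ≤ 2 * b + 2 → (b + 2) ^ ((m.2 + 2) * (m.1 + 2)) ≤ L →
        ∃ Gd : Finset (List Bool), 2 ^ b ≤ 8 * L ^ 28 * Gd.card ∧ ∀ r ∈ Gd, r ∈ B.R ∧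
          r.length = b ∧ ∃ (q : List Bool) (S : Finset (List Bool)),
            (q.length + 2) ^ (m.1 + 2) ≤ (b + 2) ^ ((m.2 + 2) * (m.1 + 2)) ∧
            2 ^ (b / 2) ≤ L ^ 4 * S.card ∧ HGood B m.1 r q S := by
  classical
  obtain ⟨hL, hnL, hbig⟩ := id hNC
  obtain ⟨hB1, hB2, hB3⟩ := hB
  have hLr : (16 : ℝ) ≤ L := by exact_mod_cast hL
  have hL8 : (16 : ℝ) ≤ (L : ℝ) ^ 8 :=
    hLr.trans (le_self_pow₀ (by linarith) (by norm_num))
  -- the index type
  let K : Type := {k : Option {m // m ∈ M} × Fin L // F8_V n L k}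
  have hKcard : Fintype.card K ≤ L ^ 2 := by
    have h1 : Fintype.card K ≤ Fintype.card (Option {m // m ∈ M} × Fin L) :=
      Fintype.card_subtype_le _
    have h2 : Fintype.card (Option {m // m ∈ M} × Fin L) = (M.card + 1) * L := by
      simp
    rw [h2] at h1
    refine h1.trans ?_
    rw [sq]
    exact Nat.mul_le_mul_right _ hM
  -- queries
  have hqex : ∀ k : K, ∃ qs : List Bool → List (Term {r // r ∈ A.R} (List Bool) × Bool),
      (∀ w, ∀ t ∈ qs w, t.1.size ≤ L ^ 2) ∧ ∀ m, k.1.1 = some m →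
      (∀ w, ∀ t ∈ qs w, ∀ ω, t.1.Holds ω → nf A m.1.1 w ω = t.2) ∧
      (∀ w : List Bool, w.length ≤ k.1.2.1 + (k.1.2.1 + 2) ^ ex m.1.2 →
        ∀ ω, nf A m.1.1 w ω = true → ∃ t ∈ qs w, t.1.Holds ω) ∧
      (∀ w : List Bool, w.length ≤ k.1.2.1 + (k.1.2.1 + 2) ^ ex m.1.2 →
        (¬ ∃ q, w = true :: q) → ∀ ω, ∃ t ∈ qs w, t.1.Holds ω) := by
    rintro ⟨⟨o, b⟩, hk⟩
    cases o with
    | none => exact ⟨fun _ => [], by simp, by simp⟩
    | some m =>
      have hb := hk.2.2 m rfl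
      have hnum := F8_a_lt hb
      obtain ⟨qs, h1, h2, h3, h4⟩ := queries A m.1.1 _ hnum.1 hnum.2.1
      refine ⟨qs, h1, ?_⟩
      intro m' hm'
      simp only [Option.some.injEq] at hm'
      subst hm'
      exact ⟨h2, h3, h4⟩
  choose qs hqs1 hqs2 using hqex
  -- the data of the random restriction
  let H : {r // r ∈ A.R} → Finset (List Bool) := fun r => A.H r.1
  let cls : {r // r ∈ A.R} → Finset (Finset (List Bool)) := fun r =>
    F8_cls A (labs (r.1.length / 4)) r.1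
  let θ : ℝ := 1 / (L : ℝ) ^ 8
  let η : {r // r ∈ A.R} → ℝ := fun r => (1 / 2 : ℝ) ^ te J r.1.length
  let Rk : K → Finset {r // r ∈ A.R} := fun k =>
    Finset.univ.filter fun r => r.1.length = k.1.2.1
  let t : K → {r // r ∈ A.R} → DT Bool := fun k r =>
    match k.1.1 with
    | none => DT.leaf false
    | some m => PT m.1.2 r.1
  have hRk : ∀ k : K, (Rk k).card = (A.R.filter fun r => r.length = k.1.2.1).card := by
    intro k
    have h1 : A.R.filter (fun r => r.length = k.1.2.1) = (Rk k).image Subtype.val := by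
      ext r
      simp only [Finset.mem_filter, Finset.mem_image, Finset.mem_univ, true_and, Rk,
        Subtype.exists, exists_and_right, exists_eq_right]
      constructor
      · rintro ⟨h, h'⟩
        exact ⟨h, h'⟩
      · rintro ⟨h, h'⟩
        exact ⟨h, h'⟩
    rw [h1, Finset.card_image_of_injective _ Subtype.val_injective]
  have hclass : ∀ r : {r // r ∈ A.R}, ∀ P ∈ cls r, 2 ^ hx J j r.1.length ≤ P.card := by
    intro r P hP
    have h0 := hB3 r.1 r.2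
    have hex : ∃ κ : List Bool, κ.length = r.1.length / 4 :=
      ⟨List.replicate _ false, List.length_replicate⟩
    obtain ⟨κ, hκ⟩ := hex
    rcases Finset.mem_insert.1 hP with h1 | h1
    · rw [h1]
      exact (h0 κ hκ).trans (Finset.card_le_card (Finset.filter_subset _ _))
    · obtain ⟨κ', hκ', rfl⟩ := Finset.mem_image.1 h1
      exact h0 κ' (mem_labs.1 hκ')
  have hclscard : ∀ r : {r // r ∈ A.R}, (cls r).card ≤ 2 ^ (r.1.length / 4) + 1 := by
    intro r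
    refine (Finset.card_insert_le _ _).trans ?_
    have := (Finset.card_image_le (s := labs (r.1.length / 4))
      (f := fun κ => cl r.1.length κ (A.H r.1)))
    rw [card_labs] at this
    omega
  have hη1 : ∀ r : {r // r ∈ A.R}, η r ≤ 1 / 2 := by
    intro r
    have h1 := (nc_big hJ hNC (hB2 r.1 r.2)).1
    have h2 : 1 ≤ te J r.1.length := by
      unfold te
      omega
    calc η r ≤ (1 / 2 : ℝ) ^ 1 := pow_le_pow_of_le_one (by norm_num) (by norm_num) h2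
      _ = 1 / 2 := pow_one _
  have hθ0 : 0 < θ := by positivity
  obtain ⟨ρ, hρ, hmain⟩ := prob_main (K := K) H cls (fun r => Finset.mem_insert_self _ _)
    (by
      intro r P hP
      rcases Finset.mem_insert.1 hP with h1 | h1
      · rw [h1]
      · obtain ⟨κ, -, rfl⟩ := Finset.mem_image.1 h1
        exact Finset.filter_subset _ _)
    θ hθ0 (by
      rw [div_le_div_iff₀ (by positivity) (by norm_num)]
      linarith) η (fun r => by positivity) hη1 Rk t (fun k _ => qs k) L (L ^ 2)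
    (by
      rintro ⟨⟨o, b⟩, hk⟩ r hr
      have hr' : r.1.length = b.1 := (Finset.mem_filter.1 hr).2
      cases o with
      | none => exact Nat.zero_le _
      | some m =>
        change (PT m.1.2 r.1).depth ≤ L
        have h1 := depth_PT m.1.2 r.1
        rw [hr'] at h1
        exact h1.trans (F8_a_lt (hk.2.2 m rfl)).2.2.2)
    (fun k _ => hqs1 k) (8 / (L : ℝ) ^ 100) (fun r => num_x hJ hNC (hB2 r.1 r.2)) (num_W hL)
    (num_h1 hL hKcard)
    (by
      intro k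
      refine num_h2 hJ hNC hKcard k.2.1 ?_
      rw [hRk]
      exact hB1 _ k.2.1 k.2.2.1)
    (by
      intro r
      exact num_h3 hJ hj hNC hKcard (hB2 r.1 r.2) (cls r) Finset.card (hclscard r) (hclass r))
  have hρH : ∀ r, (ρ r).2 ⊆ A.H r.1 := by
    intro r
    have h1 := Fintype.mem_piFinset.1 hρ r
    exact Finset.mem_powerset.1 (Finset.mem_product.1 h1).2
  -- the slots that are kept
  let keep : Finset (List Bool) :=
    (Finset.univ.filter fun r : {r // r ∈ A.R} =>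
      (ρ r).1 = true ∧ HBig η cls ρ r).image Subtype.val
  have hkeep : ∀ r : {r // r ∈ A.R}, r.1 ∈ keep ↔ (ρ r).1 = true ∧ HBig η cls ρ r := by
    intro r
    simp only [keep, Finset.mem_image, Finset.mem_filter, Finset.mem_univ, true_and]
    constructor
    · rintro ⟨r', h1, h2⟩
      have : r' = r := Subtype.ext h2
      rw [← this]; exact h1
    · intro h1
      exact ⟨r, h1, rfl⟩
  have hk : keep ⊆ A.R := by
    intro r hr
    obtain ⟨r', -, rfl⟩ := Finset.mem_image.1 hr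
    exact r'.2
  have hk' : ∀ r ∈ keep, (F8_rho A ρ r).1 = true := by
    intro r hr
    rw [F8_rho_mem A ρ (hk hr)]
    exact ((hkeep ⟨r, hk hr⟩).1 hr).1
  obtain ⟨B, hBsub, hBR, hBH, hBF⟩ := restrict A keep hk (F8_rho A ρ) (by
    intro r hr
    rw [F8_rho_mem A ρ hr]
    exact hρH ⟨r, hr⟩)
  -- the classes
  have hcls2 : ∀ r ∈ keep, ∀ κ : List Bool, κ.length = r.length / 4 →
      2 ^ hx J (j + 1) r.length ≤ (cl r.length κ (F8_rho A ρ r).2).card := by
    intro r hr κ hκ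
    have hrA := hk hr
    rw [F8_rho_mem A ρ hrA]
    have h1 := ((hkeep ⟨r, hrA⟩).1 hr).2 (cl r.length κ (A.H r))
      (Finset.mem_insert_of_mem (Finset.mem_image.2 ⟨κ, mem_labs.2 hκ, rfl⟩))
    have h2 : (ρ ⟨r, hrA⟩).2 ∩ cl r.length κ (A.H r) = cl r.length κ (ρ ⟨r, hrA⟩).2 := by
      ext l
      simp only [cl, Finset.mem_inter, Finset.mem_filter]
      constructor
      · rintro ⟨h3, -, h4⟩
        exact ⟨h3, h4⟩
      · rintro ⟨h3, h4⟩
        exact ⟨h3, hρH ⟨r, hrA⟩ h3, h4⟩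
    rw [h2] at h1
    exact F8_class hJ hj hNC (hB2 r hrA) (hB3 r hrA κ hκ) h1
  refine ⟨B, hBsub, ?_, ?_, ?_⟩
  · intro b hb1 hb2
    have hbL : b < L := by omega
    let k : K := ⟨(none, ⟨b, hbL⟩), hb1, hb2, by simp⟩
    have h1 := hmain k
    refine (F8_count hL (hB1 b hb1 hb2) ((le_of_eq ?_).trans h1)).trans ?_
    · rw [hRk k]
    · refine Nat.mul_le_mul_left _ ?_
      refine Finset.card_le_card_of_injOn Subtype.val ?_ Subtype.val_injective.injOn
      intro r hr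
      have hr' := Finset.mem_filter.1 (Finset.mem_coe.1 hr)
      refine Finset.mem_coe.2 (Finset.mem_filter.2 ⟨?_, ?_⟩)
      · rw [hBR]
        exact (hkeep r).2 ⟨hr'.2.1, hr'.2.2.1⟩
      · exact (Finset.mem_filter.1 hr'.1).2
  · intro r hr κ hκ
    rw [hBR] at hr
    rw [hBH r hr]
    exact hcls2 r hr κ hκ
  · intro m hm b hb1 hb2
    have hnum := F8_a_lt hb2
    have hbL : b < L := by omega
    let k : K := ⟨(some ⟨m, hm⟩, ⟨b, hbL⟩), hb1, hnum.2.2.1, by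
      intro m' hm'
      simp only [Option.some.injEq] at hm'
      rw [← hm']
      exact hb2⟩
    have h1 := hmain k
    obtain ⟨hq2, hq3, hq4⟩ := hqs2 k ⟨m, hm⟩ rfl
    refine ⟨((Rk k).filter fun r => (ρ r).1 = true ∧ HBig η cls ρ r ∧
      GoodRoot ρ r (t k r) (qs k)).image Subtype.val, ?_, ?_⟩
    · rw [Finset.card_image_of_injective _ Subtype.val_injective]
      refine F8_count hL (hB1 b hb1 hnum.2.2.1) ((le_of_eq ?_).trans h1)
      rw [hRk k]
    · intro r hr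
      obtain ⟨u, hu, rfl⟩ := Finset.mem_image.1 hr
      obtain ⟨hu1, hu2, hu3, hu4⟩ := Finset.mem_filter.1 hu
      have hub : u.1.length = b := (Finset.mem_filter.1 hu1).2
      have huk : u.1 ∈ keep := (hkeep u).2 ⟨hu2, hu3⟩
      have hcard : 2 ^ (b / 2) ≤ (ρ u).2.card := by
        have h3 := hcls2 u.1 huk (List.replicate (u.1.length / 4) false)
          List.length_replicate
        rw [F8_rho_mem A ρ u.2, hub] at h3
        have h4 := (hx_step hJ hj hNC hb1).2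
        calc 2 ^ (b / 2) ≤ 2 ^ hx J (j + 1) b := Nat.pow_le_pow_right (by norm_num) h4
          _ ≤ _ := h3
          _ ≤ _ := Finset.card_le_card (Finset.filter_subset _ _)
      have hbig2 : 4 * L * L ^ 2 < (ρ u).2.card := by
        have h3 := (nc_big hJ hNC hb1).2.2
        have h4 : 2 ^ (b / 4) ≤ 2 ^ (b / 2) := Nat.pow_le_pow_right (by norm_num) (by omega)
        exact (F8_num2 hL).trans_le (h3.trans (h4.trans hcard))
      obtain ⟨q, S, h3, h4, h5⟩ := F8_good hL hnL hNT hU A B hA ρ hρH keep hk hk' hBH hBF m hm b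
        hb2 (qs k) (hqs1 k) hq2 hq3 hq4 u hub huk hu4 hbig2
      exact ⟨by rw [hBR]; exact huk, hub, q, S, h3, hcard.trans h4, h5⟩

end Pool.Agent.NPC
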