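import Pool.Agent.Lib_helper64.NPC.Defs2

namespace Pool.Agent.NPC

open Asymptotics Filter in
theorem f10a_exp (C P : ℕ) : ∃ q0, ∀ q ≥ q0, (C * (q + 1)) ^ P ≤ 2 ^ q := by
  have h := isLittleO_pow_const_const_pow_of_one_lt (R := ℝ) P (r := (2 : ℝ)) (by norm_num)
  have hc : (0 : ℝ) < 1 / (2 * ((C : ℝ) + 1) ^ P) := by positivity
  have h2 := h.bound hc
  rw [eventually_atTop] at h2
  obtain ⟨a, ha⟩ := h2
  refine ⟨a, fun q hq => ?_⟩
  have h3 := ha (q + 1) (by omega)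
  rw [Real.norm_of_nonneg (by positivity), Real.norm_of_nonneg (by positivity)] at h3
  have hC : (0 : ℝ) < ((C : ℝ) + 1) ^ P := by positivity
  have h4 : ((C : ℝ) + 1) ^ P * ((q + 1 : ℕ) : ℝ) ^ P ≤ 2 ^ q := by
    calc ((C : ℝ) + 1) ^ P * ((q + 1 : ℕ) : ℝ) ^ P
        ≤ ((C : ℝ) + 1) ^ P * (1 / (2 * ((C : ℝ) + 1) ^ P) * 2 ^ (q + 1)) :=
          mul_le_mul_of_nonneg_left h3 hC.le
      _ = 2 ^ q := by
          rw [pow_succ]
          field_simp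
  have h5 : ((C : ℝ) * ((q : ℝ) + 1)) ^ P ≤ 2 ^ q := by
    refine le_trans ?_ h4
    rw [← mul_pow]
    apply pow_le_pow_left₀ (by positivity)
    push_cast
    apply mul_le_mul_of_nonneg_right _ (by positivity)
    linarith
  exact_mod_cast h5

theorem nc_ev (J : ℕ) (hJ : 1 ≤ J) : ∃ n0, ∀ n ≥ n0, ∀ j ≤ J, NC J n (n ^ (2 ^ j)) := by
  obtain ⟨q0, hq0⟩ := f10a_exp (10 * J) (2 ^ J * 100)
  refine ⟨8 * J * (q0 + 1) + 16, fun n hn j hj => ?_⟩
  have hn16 : 16 ≤ n := le_trans (by omega) hn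
  have hle : n ≤ n ^ (2 ^ j) := Nat.le_self_pow (by positivity) n
  refine ⟨le_trans hn16 hle, hle, fun b hb => ?_⟩
  have hJ4 : 0 < 4 * J := by omega
  have hq : q0 ≤ b / (4 * J) := by
    rw [Nat.le_div_iff_mul_le hJ4]
    have : 8 * J * (q0 + 1) + 16 ≤ 2 * b + 2 := le_trans hn hb
    nlinarith
  have h1 : b < 4 * J * (b / (4 * J) + 1) := by
    have := Nat.lt_mul_div_succ b hJ4
    simpa using this
  have h2 : n ≤ 10 * J * (b / (4 * J) + 1) := by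
    have h3 : 1 ≤ J * (b / (4 * J) + 1) := Nat.one_le_iff_ne_zero.mpr (by positivity)
    have h4 : 4 * J * (b / (4 * J) + 1) = 4 * (J * (b / (4 * J) + 1)) := by ring
    have h5 : 10 * J * (b / (4 * J) + 1) = 10 * (J * (b / (4 * J) + 1)) := by ring
    omega
  calc (n ^ (2 ^ j)) ^ 100 = n ^ (2 ^ j * 100) := by rw [← pow_mul]
    _ ≤ n ^ (2 ^ J * 100) := by
        apply Nat.pow_le_pow_right (by omega)
        exact Nat.mul_le_mul_right _ (Nat.pow_le_pow_right (by norm_num) hj)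
    _ ≤ (10 * J * (b / (4 * J) + 1)) ^ (2 ^ J * 100) := Nat.pow_le_pow_left h2 _
    _ ≤ 2 ^ (b / (4 * J)) := hq0 _ hq

end Pool.Agent.NPC
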