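import Pool.Agent.Lib_helper64.NPC.Defs2

/-! # F4 (MP_675993_lc): new tables and new slots -/

set_option autoImplicit false

namespace Pool.Agent.NPC

open Pool.Agent.CK

/-- the new free slots -/
noncomputable def F4new (L L' : ℕ) : Finset (List Bool) :=
  ((List.finite_length_le Bool L').toFinset).filter fun r =>
    L ≤ 2 * r.length + 2 ∧ 2 * r.length + 2 < L'

theorem F4_mem_new {L L' : ℕ} {r : List Bool} :
    r ∈ F4new L L' ↔ L ≤ 2 * r.length + 2 ∧ 2 * r.length + 2 < L' := by
  unfold F4new
  rw [Finset.mem_filter]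
  refine ⟨fun h => h.2, fun h => ⟨?_, h⟩⟩
  simp only [Set.Finite.mem_toFinset, Set.mem_ofPred_eq]
  omega

/-- the new hidden labels -/
noncomputable def F4H {L : ℕ} (A : Fam L) (r : List Bool) : Finset (List Bool) :=
  if L ≤ 2 * r.length + 2 then labs r.length else A.H r

/-- the new oracles -/
noncomputable def F4F {L : ℕ} (L' : ℕ) (A : Fam L) (T : ℕ → List Bool → List Bool) (ω : St) :
    Lang := fun w =>
  if key w < L then A.F ω w else
    match tdec w with
    | some p => bit (T p.1.1 p.1.2) p.2
    | none =>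
      match sdec w with
      | some p => p.2.2 && (decide (2 * p.1.length + 2 < L') && ω (p.1, p.2.1))
      | none => false

theorem F4F_old {L : ℕ} (L' : ℕ) (A : Fam L) (T : ℕ → List Bool → List Bool) (ω : St)
    {w : List Bool} (h : key w < L) : F4F L' A T ω w = A.F ω w := by
  unfold F4F
  rw [if_pos h]

theorem F4F_tab {L : ℕ} (L' : ℕ) (A : Fam L) (T : ℕ → List Bool → List Bool) (ω : St)
    {w : List Bool} (h : ¬ key w < L) {p : (ℕ × List Bool) × (ℕ × Bool)} (hp : tdec w = some p) :
    F4F L' A T ω w = bit (T p.1.1 p.1.2) p.2 := by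
  unfold F4F
  rw [if_neg h, hp]

theorem F4F_sec {L : ℕ} (L' : ℕ) (A : Fam L) (T : ℕ → List Bool → List Bool) (ω : St)
    {w : List Bool} (h : ¬ key w < L) (ht : tdec w = none) {p : List Bool × (List Bool × Bool)}
    (hp : sdec w = some p) :
    F4F L' A T ω w = (p.2.2 && (decide (2 * p.1.length + 2 < L') && ω (p.1, p.2.1))) := by
  unfold F4F
  rw [if_neg h, ht, hp]

theorem F4F_none {L : ℕ} (L' : ℕ) (A : Fam L) (T : ℕ → List Bool → List Bool) (ω : St)
    {w : List Bool} (h : ¬ key w < L) (ht : tdec w = none) (hp : sdec w = none) :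
    F4F L' A T ω w = false := by
  unfold F4F
  rw [if_neg h, ht, hp]

theorem F4_mem_labs {b : ℕ} {l : List Bool} : l ∈ labs b ↔ l.length = b := by
  unfold labs
  simp

theorem F4H_old {L : ℕ} (A : Fam L) {r : List Bool} (hr : r ∈ A.R) : F4H A r = A.H r := by
  unfold F4H
  rw [if_neg (not_le.2 (A.hR r hr))]

theorem F4H_new {L : ℕ} (A : Fam L) {r : List Bool} (hr : L ≤ 2 * r.length + 2) :
    F4H A r = labs r.length := by
  unfold F4H
  rw [if_pos hr]

/-- the new family -/
noncomputable def F4fam {L L' : ℕ} (hL : L ≤ L') (A : Fam L) (T : ℕ → List Bool → List Bool) :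
    Fam L' where
  R := A.R ∪ F4new L L'
  H := F4H A
  F := F4F L' A T
  hR := by
    intro r hr
    rcases Finset.mem_union.1 hr with hr | hr
    · exact lt_of_lt_of_le (A.hR r hr) hL
    · exact (F4_mem_new.1 hr).2
  hH := by
    intro r l hl
    unfold F4H at hl
    split_ifs at hl with h
    · exact F4_mem_labs.1 hl
    · exact A.hH r l hl
  free := by
    intro r hr l hl ω
    rcases Finset.mem_union.1 hr with hr | hr
    · have hk : key (saddr r l true) < L := by
        rw [key_saddr r l true hl.symm]
        exact A.hR r hr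
      rw [F4F_old L' A T ω hk, A.free r hr l hl ω, F4H_old A hr]
    · obtain ⟨h1, h2⟩ := F4_mem_new.1 hr
      have hk : ¬ key (saddr r l true) < L := by
        rw [key_saddr r l true hl.symm]
        omega
      rw [F4F_sec L' A T ω hk (tdec_saddr r l true) (sdec_saddr r l true hl.symm), F4H_new A h1]
      have hm : l ∈ labs r.length := F4_mem_labs.2 hl
      simp [h2, hm]
  cert := by
    intro ω w hw
    by_cases hk : key w < L
    · obtain ⟨S, hS1, hS2, hS3⟩ := A.cert ω w hk
      refine ⟨S, fun p hp => ⟨Finset.mem_union_left _ (hS1 p hp).1, ?_⟩, hS2, ?_⟩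
      · rw [F4H_old A (hS1 p hp).1]
        exact (hS1 p hp).2
      · intro ω' h'
        have := hS3 ω' h'
        simpa only [F4F_old L' A T _ hk] using this
    · rcases ht : tdec w with _ | p
      · rcases hs : sdec w with _ | p
        · refine ⟨∅, by simp, by simp [tw], ?_⟩
          intro ω' _
          simp only [F4F_none L' A T _ hk ht hs]
        · obtain ⟨h1, h2⟩ := sdec_eq hs
          have hkw : key w = 2 * p.1.length + 2 := by
            conv_lhs => rw [h2]
            exact key_saddr _ _ _ h1
          refine ⟨{(p.1, p.2.1)}, ?_, ?_, ?_⟩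
          · intro q hq
            rw [Finset.mem_singleton] at hq
            subst hq
            refine ⟨Finset.mem_union_right _ (F4_mem_new.2
              (show L ≤ 2 * p.1.length + 2 ∧ 2 * p.1.length + 2 < L' from ⟨by omega, by omega⟩)), ?_⟩
            show p.2.1 ∈ F4H A p.1
            rw [F4H_new A (by omega)]
            exact F4_mem_labs.2 h1.symm
          · have := key_le w
            simp only [tw, Finset.sum_singleton, lw]
            omega
          · intro ω' h'
            have := h' (p.1, p.2.1) (Finset.mem_singleton_self _)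
            simp only [F4F_sec L' A T _ hk ht hs, this]
      · refine ⟨∅, by simp, by simp [tw], ?_⟩
        intro ω' _
        simp only [F4F_tab L' A T _ hk ht]

theorem tab_new {L L' : ℕ} (hL : L ≤ L') (A : Fam L) (T : ℕ → List Bool → List Bool) :
    ∃ B : Fam L', (∀ ω, Ext L (A.F ω) (B.F ω)) ∧
      (∀ e z b c, L ≤ alen e z → alen e z < L' → ∀ ω,
        B.F ω (taddr e z b c) = bit (T e z) (b, c)) ∧
      (∀ r, r ∈ B.R ↔ r ∈ A.R ∨ (L ≤ 2 * r.length + 2 ∧ 2 * r.length + 2 < L')) ∧
      (∀ r ∈ A.R, B.H r = A.H r) ∧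
      ∀ r, L ≤ 2 * r.length + 2 → 2 * r.length + 2 < L' → B.H r = labs r.length := by
  refine ⟨F4fam hL A T, ?_, ?_, ?_, ?_, ?_⟩
  · intro ω w hw
    exact F4F_old L' A T ω hw
  · intro e z b c h1 _ ω
    have hk : ¬ key (taddr e z b c) < L := by
      rw [key_taddr]
      omega
    exact F4F_tab L' A T ω hk (tdec_taddr e z b c)
  · intro r
    show r ∈ A.R ∪ F4new L L' ↔ _
    rw [Finset.mem_union, F4_mem_new]
  · intro r hr
    exact F4H_old A hr
  · intro r h1 _
    exact F4H_new A h1

end Pool.Agent.NPC
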