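import Pool.Agent.Lib_helper64.NPC.Defs2
import Pool.Agent.Lib_helper64.NPC.Blk.F1
import Pool.Agent.Lib_helper64.NPC.Blk.F2

/-! # NPC, block F3a: binding of a slot -/

set_option autoImplicit false

namespace Pool.Agent.NPC

open Pool.Agent.CK

/-- the witnesses can be encoded by labels -/
theorem F3a_enc (t : ℕ) (S : Finset (List Bool)) (hcard : 2 ^ (t + 1) ≤ S.card) :
    ∃ Enc : {y : List Bool // y.length ≤ t} → List Bool, Function.Injective Enc ∧
      ∀ y, Enc y ∈ S := by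
  have := multi_finite_le t
  let _ : Fintype {y : List Bool // y.length ≤ t} := Fintype.ofFinite _
  have h1 : Fintype.card {y : List Bool // y.length ≤ t} ≤ Fintype.card {l // l ∈ S} := by
    rw [Fintype.card_coe]
    exact (multi_card_le t).trans hcard
  obtain ⟨f⟩ := Function.Embedding.nonempty_of_card_le h1
  exact ⟨fun y => (f y).1, fun a b h => f.injective (Subtype.ext h), fun y => (f y).2⟩

open Classical in
/-- the state of the old family -/
noncomputable def F3a_g {L : ℕ} (A : Fam L) (u : List Bool) (i : ℕ) (z : List Bool)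
    (Enc : {y : List Bool // y.length ≤ (z.length + 2) ^ ex i} → List Bool) (ω : St) : St :=
  fun p => if p.1 = u then decide (∃ y, Enc y = p.2 ∧
    accB (A.F ω) (prog i) z y.1 ((z.length + 2) ^ ex i) = true) else ω p

theorem F3a_g_ne {L : ℕ} (A : Fam L) {u : List Bool} (i : ℕ) (z : List Bool)
    (Enc : {y : List Bool // y.length ≤ (z.length + 2) ^ ex i} → List Bool) (ω : St) {p : Lit}
    (hp : p.1 ≠ u) : F3a_g A u i z Enc ω p = ω p := by
  unfold F3a_g
  rw [if_neg hp]

open Classical in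
theorem F3a_g_eq {L : ℕ} (A : Fam L) {u : List Bool} (i : ℕ) (z : List Bool)
    (Enc : {y : List Bool // y.length ≤ (z.length + 2) ^ ex i} → List Bool) (ω : St)
    (l : List Bool) : F3a_g A u i z Enc ω (u, l) = true ↔ ∃ y, Enc y = l ∧
      accB (A.F ω) (prog i) z y.1 ((z.length + 2) ^ ex i) = true := by
  unfold F3a_g
  rw [if_pos rfl, decide_eq_true_iff]

open Classical in
theorem F3a_NL (i : ℕ) (O : Lang) (z : List Bool) : NL i O z = true ↔ ∃ y : List Bool,
    y.length ≤ (z.length + 2) ^ ex i ∧ accB O (prog i) z y ((z.length + 2) ^ ex i) = true := by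
  unfold NL
  rw [decide_eq_true_iff]

theorem F3a_tw_union (A B : Finset Lit) : tw (A ∪ B) ≤ tw A + tw B := by
  unfold tw
  rw [← Finset.sum_union_inter]
  exact Nat.le_add_right _ _

theorem F3a_tw_biUnion (T : Finset Lit) (D : Lit → Finset Lit) :
    tw (T.biUnion D) ≤ ∑ p ∈ T, tw (D p) := by
  classical
  induction T using Finset.induction_on with
  | empty =>
    rw [Finset.biUnion_empty, Finset.sum_empty]
    unfold tw
    rw [Finset.sum_empty]
  | insert a T ha ih =>
    rw [Finset.biUnion_insert, Finset.sum_insert ha]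
    exact (F3a_tw_union _ _).trans (Nat.add_le_add_left ih _)

theorem F3a_pow {i : ℕ} {z u : List Bool} (hz : (z.length + 2) ^ (2 * i + 2) ≤ u.length) :
    (z.length + 2) ^ (i + 2) ≤ u.length :=
  (Nat.pow_le_pow_right (by omega) (by omega)).trans hz

/-- certificates for the bit at the label `l` of the bound slot -/
theorem F3a_cert {L : ℕ} (A : Fam L) {u : List Bool} (hu : u ∈ A.R) (i : ℕ) (z : List Bool)
    (hz : (z.length + 2) ^ (2 * i + 2) ≤ u.length)
    (Enc : {y : List Bool // y.length ≤ (z.length + 2) ^ ex i} → List Bool)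
    (hEnc : Function.Injective Enc) (ω : St) (l : List Bool) :
    ∃ T : Finset Lit, (∀ p ∈ T, p.1 ∈ A.R.erase u ∧ p.2 ∈ A.H p.1) ∧ tw T ≤ lw (u, l) ∧
      ∀ ω' : St, (∀ p ∈ T, ω' p = ω p) → F3a_g A u i z Enc ω' (u, l) = F3a_g A u i z Enc ω (u, l) := by
  have hL : (z.length + 2) ^ (i + 2) ≤ L := by
    have h1 := A.hR u hu
    have h2 := F3a_pow hz
    omega
  by_cases h : ∃ y, Enc y = l
  · obtain ⟨y, hy⟩ := h
    obtain ⟨T, h1, h2, h3, h4⟩ := cert_acc A i z hL y.1 y.2 ω
    refine ⟨T, fun p hp => ⟨Finset.mem_erase.2 ⟨?_, (h1 p hp).1⟩, (h1 p hp).2⟩, ?_, ?_⟩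
    · intro h
      have h5 := h2 p hp
      have h6 := F3a_pow hz
      unfold lw at h5
      rw [h] at h5
      omega
    · have h5 : lw (u, l) = 2 * u.length + 2 := rfl
      omega
    · intro ω' hω'
      have h5 : accB (A.F ω') (prog i) z y.1 ((z.length + 2) ^ ex i) =
          accB (A.F ω) (prog i) z y.1 ((z.length + 2) ^ ex i) := h4 ω' hω'
      have h6 : ∀ ω : St, F3a_g A u i z Enc ω (u, l) = true ↔
          accB (A.F ω) (prog i) z y.1 ((z.length + 2) ^ ex i) = true := by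
        intro ω
        rw [F3a_g_eq A i z Enc ω]
        constructor
        · rintro ⟨y', hy', h7⟩
          have h8 : y' = y := hEnc (hy'.trans hy.symm)
          rw [h8] at h7
          exact h7
        · exact fun h7 => ⟨y, hy, h7⟩
      rw [Bool.eq_iff_iff, h6, h6, h5]
  · refine ⟨∅, fun p hp => absurd hp (Finset.notMem_empty p), ?_, ?_⟩
    · unfold tw
      rw [Finset.sum_empty]
      exact Nat.zero_le _
    · intro ω' _
      have h6 : ∀ ω : St, F3a_g A u i z Enc ω (u, l) = false := by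
        intro ω
        rw [Bool.eq_false_iff]
        intro h7
        rw [F3a_g_eq A i z Enc ω] at h7
        obtain ⟨y, hy, -⟩ := h7
        exact h ⟨y, hy⟩
      rw [h6, h6]

/-- certificates for the new oracles -/
theorem F3a_fam {L : ℕ} (A : Fam L) {u : List Bool} (hu : u ∈ A.R) (i : ℕ) (z : List Bool)
    (hz : (z.length + 2) ^ (2 * i + 2) ≤ u.length)
    (Enc : {y : List Bool // y.length ≤ (z.length + 2) ^ ex i} → List Bool)
    (hEnc : Function.Injective Enc) (ω : St) (w : List Bool) (hw : key w < L) :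
    ∃ T : Finset Lit, (∀ p ∈ T, p.1 ∈ A.R.erase u ∧ p.2 ∈ A.H p.1) ∧
      tw T ≤ w.length ∧ Cert (fun ω => A.F (F3a_g A u i z Enc ω) w) ω T := by
  classical
  obtain ⟨T₀, h1, h2, h3⟩ := A.cert (F3a_g A u i z Enc ω) w hw
  choose C hC1 hC2 hC3 using fun l => F3a_cert A hu i z hz Enc hEnc ω l
  have key : ∀ p ∈ T₀, ∃ D : Finset Lit, (∀ p' ∈ D, p'.1 ∈ A.R.erase u ∧ p'.2 ∈ A.H p'.1) ∧
      tw D ≤ lw p ∧ ∀ ω' : St, (∀ p' ∈ D, ω' p' = ω p') →
        F3a_g A u i z Enc ω' p = F3a_g A u i z Enc ω p := by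
    intro p hp
    by_cases hpu : p.1 = u
    · obtain ⟨a, l⟩ := p
      have hpu' : a = u := hpu
      subst hpu'
      exact ⟨C l, hC1 l, hC2 l, hC3 l⟩
    · refine ⟨{p}, ?_, ?_, ?_⟩
      · intro p' hp'
        rw [Finset.mem_singleton] at hp'
        subst hp'
        exact ⟨Finset.mem_erase.2 ⟨hpu, (h1 p' hp).1⟩, (h1 p' hp).2⟩
      · unfold tw
        rw [Finset.sum_singleton]
      · intro ω' hω'
        rw [F3a_g_ne A i z Enc ω' hpu, F3a_g_ne A i z Enc ω hpu]
        exact hω' p (Finset.mem_singleton_self p)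
  choose! D hD1 hD2 hD3 using key
  refine ⟨T₀.biUnion D, ?_, ?_, ?_⟩
  · intro p hp
    obtain ⟨p', hp', hp''⟩ := Finset.mem_biUnion.1 hp
    exact hD1 p' hp' p hp''
  · have h4 : tw (T₀.biUnion D) ≤ ∑ p ∈ T₀, tw (D p) := F3a_tw_biUnion T₀ D
    exact (h4.trans (Finset.sum_le_sum hD2)).trans h2
  · intro ω' hω'
    refine h3 (F3a_g A u i z Enc ω') fun p hp => ?_
    exact hD3 p hp ω' fun p' hp' => hω' p' (Finset.mem_biUnion.2 ⟨p, hp, hp'⟩)

theorem bind_slot {L : ℕ} (A : Fam L) (u q : List Bool) (hu : u ∈ A.R) (S : Finset (List Bool))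
    (i' : ℕ) (hg : HGood A i' u q S) (i : ℕ) (z : List Bool)
    (hz : (z.length + 2) ^ (2 * i + 2) ≤ u.length)
    (hcard : 2 ^ ((z.length + 2) ^ ex i + 1) ≤ S.card) :
    ∃ B : Fam L, Sub B A ∧ B.R = A.R.erase u ∧ B.H = A.H ∧
      ∀ ω, NL i' (B.F ω) q = NL i (B.F ω) z := by
  obtain ⟨Enc, hEnc, hES⟩ := F3a_enc ((z.length + 2) ^ ex i) S hcard
  have hL : (z.length + 2) ^ (i + 2) ≤ L := by
    have h1 := A.hR u hu
    have h2 := F3a_pow hz
    omega
  let B : Fam L :=
    { R := A.R.erase u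
      H := A.H
      F := fun ω => A.F (F3a_g A u i z Enc ω)
      hR := fun r hr => A.hR r (Finset.mem_of_mem_erase hr)
      hH := A.hH
      free := fun r hr l hl ω => by
        rw [A.free r (Finset.mem_of_mem_erase hr) l hl,
          F3a_g_ne A i z Enc ω (p := (r, l)) (Finset.ne_of_mem_erase hr)]
      cert := fun ω w hw => F3a_fam A hu i z hz Enc hEnc ω w hw }
  refine ⟨B, ⟨Finset.erase_subset _ _, fun r _ => Finset.Subset.refl _,
    F3a_g A u i z Enc, fun ω => rfl, fun r hr l _ ω =>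
      F3a_g_ne A i z Enc ω (p := (r, l)) (Finset.ne_of_mem_erase hr)⟩, rfl, rfl, fun ω => ?_⟩
  show NL i' (A.F (F3a_g A u i z Enc ω)) q = NL i (A.F (F3a_g A u i z Enc ω)) z
  have hacc : ∀ y : List Bool, y.length ≤ (z.length + 2) ^ ex i →
      accB (A.F (F3a_g A u i z Enc ω)) (prog i) z y ((z.length + 2) ^ ex i) =
        accB (A.F ω) (prog i) z y ((z.length + 2) ^ ex i) := by
    intro y hy
    obtain ⟨T, h1, h2, h3, h4⟩ := cert_acc A i z hL y hy ω
    refine h4 (F3a_g A u i z Enc ω) fun p hp => F3a_g_ne A i z Enc ω ?_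
    intro h
    have h5 := h2 p hp
    have h6 := F3a_pow hz
    unfold lw at h5
    rw [h] at h5
    omega
  have h1 : NL i (A.F (F3a_g A u i z Enc ω)) z = true ↔ ∃ y : List Bool,
      y.length ≤ (z.length + 2) ^ ex i ∧
        accB (A.F ω) (prog i) z y ((z.length + 2) ^ ex i) = true := by
    rw [F3a_NL]
    constructor
    · rintro ⟨y, hy, h⟩
      exact ⟨y, hy, by rw [← hacc y hy]; exact h⟩
    · rintro ⟨y, hy, h⟩
      exact ⟨y, hy, by rw [hacc y hy]; exact h⟩
  have h2 := hg.2 (F3a_g A u i z Enc ω) (by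
    intro l _ hl
    rw [F3a_g_eq A i z Enc ω] at hl
    obtain ⟨y, hy, -⟩ := hl
    have h3 : Enc y = l := hy
    rw [← h3]
    exact hES y)
  rw [Bool.eq_iff_iff, h1, h2]
  constructor
  · rintro ⟨l, _, hl⟩
    rw [F3a_g_eq A i z Enc ω] at hl
    obtain ⟨y, -, hy⟩ := hl
    exact ⟨y.1, y.2, hy⟩
  · rintro ⟨y, hy, h⟩
    refine ⟨Enc ⟨y, hy⟩, hES _, ?_⟩
    rw [F3a_g_eq A i z Enc ω]
    exact ⟨⟨y, hy⟩, rfl, h⟩

end Pool.Agent.NPC
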