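import Pool.Agent.Lib_helper64.NPC.Defs2
import Pool.Agent.Lib_helper64.NPC.Blk.F1
import Pool.Agent.Lib_helper64.NPC.Blk.F3a

/-! # NPC, block F3b: binding of many slots -/

set_option autoImplicit false

namespace Pool.Agent.NPC

open Pool.Agent.CK

theorem bind_all {L : ℕ} (A : Fam L) (items : Finset (ℕ × List Bool))
    (slot qq : ℕ × List Bool → List Bool) (SS : ℕ × List Bool → Finset (List Bool))
    (hinj : Set.InjOn slot items) (hR : ∀ it ∈ items, slot it ∈ A.R)
    (hg : ∀ it ∈ items, HGood A (iC it.1) (slot it) (qq it) (SS it))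
    (hsize : ∀ it ∈ items, sl it.1 it.2 ≤ (slot it).length)
    (hcard : ∀ it ∈ items, 2 ^ ((it.2.length + 2) ^ ex (iN it.1) + 1) ≤ (SS it).card) :
    ∃ B : Fam L, Sub B A ∧ B.R = A.R \ items.image slot ∧ B.H = A.H ∧
      ∀ it ∈ items, ∀ ω, NL (iC it.1) (B.F ω) (qq it) = NL (iN it.1) (B.F ω) it.2 := by
  classical
  induction items using Finset.induction_on with
  | empty =>
    refine ⟨A, Sub.refl A, ?_, rfl, fun it hit => absurd hit (Finset.notMem_empty it)⟩
    rw [Finset.image_empty, Finset.sdiff_empty]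
  | insert a s ha ih =>
    obtain ⟨B, hBA, hBR, hBH, hB⟩ := ih
      (hinj.mono (by rw [Finset.coe_insert]; exact Set.subset_insert _ _))
      (fun it hit => hR it (Finset.mem_insert_of_mem hit))
      (fun it hit => hg it (Finset.mem_insert_of_mem hit))
      (fun it hit => hsize it (Finset.mem_insert_of_mem hit))
      (fun it hit => hcard it (Finset.mem_insert_of_mem hit))
    have ha' := Finset.mem_insert_self a s
    have hu : slot a ∈ B.R := by
      rw [hBR, Finset.mem_sdiff]
      refine ⟨hR a ha', fun h => ?_⟩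
      obtain ⟨b, hb, hb'⟩ := Finset.mem_image.1 h
      have h1 : b = a := hinj (Finset.mem_coe.2 (Finset.mem_insert_of_mem hb))
        (Finset.mem_coe.2 ha') hb'
      rw [h1] at hb
      exact ha hb
    have hgB : HGood B (iC a.1) (slot a) (qq a) (SS a) :=
      Sub.hGood hBA hu (by rw [hBH]; exact (hg a ha').1) (hg a ha')
    obtain ⟨C, hCB, hCR, hCH, hC⟩ := bind_slot B (slot a) (qq a) hu (SS a) (iC a.1) hgB
      (iN a.1) a.2 (hsize a ha') (hcard a ha')
    refine ⟨C, Sub.trans hCB hBA, ?_, hCH.trans hBH, ?_⟩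
    · rw [hCR, hBR]
      ext r
      simp only [Finset.mem_erase, Finset.mem_sdiff, Finset.mem_image, Finset.mem_insert,
        exists_eq_or_imp]
      constructor
      · rintro ⟨h1, h2, h3⟩
        exact ⟨h2, fun h => h.elim (fun h => h1 h.symm) h3⟩
      · rintro ⟨h1, h2⟩
        exact ⟨fun h => h2 (Or.inl h.symm), h1, fun h => h2 (Or.inr h)⟩
    · intro it hit ω
      rcases Finset.mem_insert.1 hit with rfl | hit
      · exact hC ω
      · obtain ⟨-, -, g, hg', -⟩ := hCB
        rw [hg' ω]
        exact hB it hit (g ω)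

end Pool.Agent.NPC
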