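import Pool.Agent.Lib_helper64.NPC.Defs2
import Pool.Agent.Lib_helper64.NPC.Blk.F1

/-!
# Choice of distinct slots (block F9a2 of NPC, MP_675993_lc)
-/

set_option autoImplicit false

namespace Pool.Agent.NPC

open Pool.Agent.CK

/-- choice of distinct slots -/
theorem choose_slots {α β γ : Type} [DecidableEq α] [DecidableEq β] [DecidableEq γ] [Nonempty β]
    (items : Finset α) (size : α → γ) (sizeβ : β → γ) (Gd : α → Finset β)
    (h1 : ∀ a ∈ items, ∀ r ∈ Gd a, sizeβ r = size a)
    (h2 : ∀ a ∈ items, (items.filter fun a' => size a' = size a).card ≤ (Gd a).card) :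
    ∃ slot : α → β, Set.InjOn slot items ∧ ∀ a ∈ items, slot a ∈ Gd a := by
  classical
  have key : ∀ s : Finset {a // a ∈ items},
      s.card ≤ (s.biUnion fun a => Gd a.1).card := by
    intro s
    have hs : s.card = ∑ c ∈ s.image (fun a => size a.1),
        (s.filter fun a => size a.1 = c).card :=
      Finset.card_eq_sum_card_image (fun a : {a // a ∈ items} => size a.1) s
    have hsub : ∑ c ∈ s.image (fun a => size a.1),
        ((s.biUnion fun a => Gd a.1).filter fun r => sizeβ r = c).card ≤
        (s.biUnion fun a => Gd a.1).card := by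
      rw [← Finset.card_biUnion]
      · apply Finset.card_le_card
        intro r hr
        simp only [Finset.mem_biUnion, Finset.mem_filter] at hr ⊢
        obtain ⟨c, -, h, -⟩ := hr
        exact h
      · intro c _ c' _ hcc
        rw [Function.onFun, Finset.disjoint_left]
        intro r hr hr'
        simp only [Finset.mem_filter] at hr hr'
        exact hcc (hr.2.symm.trans hr'.2)
    refine le_trans ?_ hsub
    rw [hs]
    apply Finset.sum_le_sum
    intro c hc
    obtain ⟨a, ha, rfl⟩ := Finset.mem_image.mp hc
    have e1 : (s.filter fun b => size b.1 = size a.1).card ≤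
        (items.filter fun a' => size a' = size a.1).card := by
      rw [← Finset.card_map (Function.Embedding.subtype _)]
      apply Finset.card_le_card
      intro b hb
      obtain ⟨b', hb', rfl⟩ := Finset.mem_map.mp hb
      rw [Finset.mem_filter] at hb' ⊢
      exact ⟨b'.2, hb'.2⟩
    refine e1.trans ((h2 a.1 a.2).trans ?_)
    apply Finset.card_le_card
    intro r hr
    rw [Finset.mem_filter, Finset.mem_biUnion]
    exact ⟨⟨a, ha, hr⟩, h1 a.1 a.2 r hr⟩
  obtain ⟨f, hf, hfm⟩ := (Finset.all_card_le_biUnion_card_iff_exists_injective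
    (fun a : {a // a ∈ items} => Gd a.1)).mp key
  refine ⟨fun a => if h : a ∈ items then f ⟨a, h⟩ else Classical.arbitrary β, ?_, ?_⟩
  · intro a ha b hb hab
    have ha' : a ∈ items := ha
    have hb' : b ∈ items := hb
    simp only [dif_pos ha', dif_pos hb'] at hab
    have := hf hab
    exact congrArg Subtype.val this
  · intro a ha
    simp only [dif_pos ha]
    exact hfm ⟨a, ha⟩

end Pool.Agent.NPC
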