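import Pool.Agent.Lib_helper64.NPC.Defs2
import Pool.Agent.Lib_helper64.NPC.Blk.F1
import Pool.Agent.Lib_helper64.NPC.Blk.F3b
import Pool.Agent.Lib_helper64.NPC.Blk.F8
import Pool.Agent.Lib_helper64.NPC.Blk.F9a1
import Pool.Agent.Lib_helper64.NPC.Blk.F9a2

set_option autoImplicit false

namespace Pool.Agent.NPC

open Pool.Agent.CK

theorem f9b_NL_ext {N i : ℕ} {O O' : Lang} (h : Ext N O O') (x : List Bool)
    (hx : (x.length + 2) ^ (i + 2) ≤ N) : NL i O' x = NL i O x := by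
  apply NL_congr
  intro w hw
  exact h w (lt_of_le_of_lt (key_le w) (lt_of_lt_of_le hw hx))

theorem f9b_count {L P c c1 d : ℕ} (hL : 16 ≤ L) (h1 : P ≤ 8 * L ^ 28 * c1)
    (h2 : 16 * L ^ 28 * d ≤ P) (h3 : c1 ≤ c + d) : P ≤ L ^ 40 * c := by
  have h4 : 8 * L ^ 28 * c1 ≤ 8 * L ^ 28 * (c + d) := Nat.mul_le_mul_left _ h3
  have h5 : P ≤ 16 * L ^ 28 * c := by nlinarith
  refine h5.trans (Nat.mul_le_mul_right _ ?_)
  calc 16 * L ^ 28 ≤ L * L ^ 28 := Nat.mul_le_mul_right _ hL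
    _ = L ^ 29 := by ring
    _ ≤ L ^ 40 := Nat.pow_le_pow_right (by omega) (by norm_num)

theorem stage_bind {J j n L : ℕ} (hJ : 1 ≤ J) (hj : j < J) (hNC : NC J n L)
    {G : Finset (ℕ × ℕ × ℕ)} {M : Finset (ℕ × ℕ)} (hM : M.card + 1 ≤ L)
    (hGM : ∀ g ∈ G, (g.1, g.2.1) ∈ M) {O : Lang}
    (hNT : NT G n O) (hU : Unk G M n O) (A : Fam L) (hA : FamOK G n O A)
    (hB : FamBig n (hx J j) A) :
    ∃ (B : Fam L) (T : ℕ → List Bool → List Bool), Sub B A ∧
      (∀ b, n ≤ 2 * b + 2 → 2 * b + 2 < L →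
        2 ^ b ≤ L ^ 40 * (B.R.filter fun r => r.length = b).card) ∧
      (∀ r ∈ B.R, ∀ κ : List Bool, κ.length = r.length / 4 →
        2 ^ hx J (j + 1) r.length ≤ (cl r.length κ (B.H r)).card) ∧
      ∀ e z, Act G e → L ≤ alen e z → alen e z < L ^ 2 →
        ((T e z).length + 2) ^ (iC e + 2) ≤ L ∧
          ∀ ω, NL (iC e) (B.F ω) (T e z) = NL (iN e) (B.F ω) z := by
  classical
  obtain ⟨B1, hS1, hcnt1, hcl1, hgood1⟩ := restr_good hJ hj hNC hM hNT hU A hA hB
  have hL16 : 16 ≤ L := hNC.1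
  have hnL : n ≤ L := hNC.2.1
  have hfin := items_finite L
  obtain ⟨items, hitems⟩ : ∃ items : Finset (ℕ × List Bool), ∀ it, it ∈ items ↔
      (Adeq it.1 ∧ alen it.1 it.2 < L ^ 2) ∧ Act G it.1 ∧ L ≤ alen it.1 it.2 ∧
        n ≤ (it.2.length + 2) ^ (iN it.1 + 2) := by
    refine ⟨hfin.toFinset.filter fun it => Act G it.1 ∧ L ≤ alen it.1 it.2 ∧
        n ≤ (it.2.length + 2) ^ (iN it.1 + 2), fun it => ?_⟩
    rw [Finset.mem_filter, Set.Finite.mem_toFinset]
    exact Iff.rfl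
  -- the good slots of an item
  have hdata : ∀ it ∈ items, ∃ Gd : Finset (List Bool),
      2 ^ sl it.1 it.2 ≤ 8 * L ^ 28 * Gd.card ∧ ∀ r ∈ Gd, r ∈ B1.R ∧
        r.length = sl it.1 it.2 ∧ ∃ (q : List Bool) (S : Finset (List Bool)),
          (q.length + 2) ^ (iC it.1 + 2) ≤ L ∧
          2 ^ (sl it.1 it.2 / 2) ≤ L ^ 4 * S.card ∧ HGood B1 (iC it.1) r q S := by
    intro it hit
    obtain ⟨⟨hAd, hlt⟩, ⟨-, g, hgG, hg1, hg2, -⟩, -, hn⟩ := (hitems it).1 hit
    obtain ⟨hr1, -, hr3, -⟩ := item_range hAd hlt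
    have hm : (iC it.1, iM it.1) ∈ M := by
      rw [hg1, hg2]
      exact hGM g hgG
    have hnb : n ≤ 2 * sl it.1 it.2 + 2 := by omega
    obtain ⟨Gd, hGd1, hGd2⟩ := hgood1 (iC it.1, iM it.1) hm (sl it.1 it.2) hnb hr1
    refine ⟨Gd, hGd1, fun r hr => ?_⟩
    obtain ⟨hrR, hrl, q, S, hq, hS, hH⟩ := hGd2 r hr
    exact ⟨hrR, hrl, q, S, hq.trans hr1, hS, hH⟩
  choose! Gd hGd1 hGd2 using hdata
  have hiU : ∀ it ∈ items, Adeq it.1 ∧ alen it.1 it.2 < L ^ 2 := fun it hit =>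
    ((hitems it).1 hit).1
  have hnsl : ∀ it ∈ items, n ≤ 2 * sl it.1 it.2 + 2 := by
    intro it hit
    obtain ⟨⟨hAd, hlt⟩, -, -, hn⟩ := (hitems it).1 hit
    obtain ⟨-, -, hr3, -⟩ := item_range hAd hlt
    omega
  obtain ⟨slot, hinj, hslot⟩ := choose_slots items (fun it => sl it.1 it.2) List.length Gd
    (fun it hit r hr => (hGd2 it hit r hr).2.1)
    (by
      intro it hit
      have h1 := items_count hJ hNC items hiU (hnsl it hit)
      have h2 := hGd1 it hit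
      have h3 : 16 * L ^ 28 * (items.filter fun it' => sl it'.1 it'.2 = sl it.1 it.2).card ≤
          8 * L ^ 28 * (Gd it).card := by
        refine le_trans (le_of_eq ?_) (h1.trans h2)
        rfl
      have hLp : 0 < L ^ 28 := Nat.pow_pos (by omega)
      by_contra hcon
      rw [not_le] at hcon
      have h4 : 8 * L ^ 28 * (Gd it).card < 16 * L ^ 28 *
          (items.filter fun it' => sl it'.1 it'.2 = sl it.1 it.2).card := by
        calc 8 * L ^ 28 * (Gd it).card < 8 * L ^ 28 *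
              (items.filter fun it' => sl it'.1 it'.2 = sl it.1 it.2).card :=
              Nat.mul_lt_mul_of_pos_left hcon (by positivity)
          _ ≤ _ := Nat.mul_le_mul_right _ (by omega)
      omega)
  have hdat2 : ∀ it ∈ items, ∃ (q : List Bool) (S : Finset (List Bool)),
      (q.length + 2) ^ (iC it.1 + 2) ≤ L ∧
      2 ^ (sl it.1 it.2 / 2) ≤ L ^ 4 * S.card ∧ HGood B1 (iC it.1) (slot it) q S :=
    fun it hit => (hGd2 it hit _ (hslot it hit)).2.2
  choose! qq SS hq1 hq2 hq3 using hdat2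
  obtain ⟨B, hSB, hBR, hBH, hBN⟩ := bind_all B1 items slot qq SS hinj
    (fun it hit => (hGd2 it hit _ (hslot it hit)).1) hq3
    (fun it hit => le_of_eq (hGd2 it hit _ (hslot it hit)).2.1.symm)
    (fun it hit => item_card hJ hNC ((hitems it).1 hit).2.2.2 (hq2 it hit))
  have hBok : FamOK G n O B := Sub.famOK (Sub.trans hSB hS1) hA
  -- the questions
  have key1 : ∀ e z, ∃ q : List Bool, Act G e → L ≤ alen e z → alen e z < L ^ 2 →
      ((q.length + 2) ^ (iC e + 2) ≤ L ∧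
        ∀ ω, NL (iC e) (B.F ω) q = NL (iN e) (B.F ω) z) := by
    intro e z
    by_cases hact : Act G e ∧ L ≤ alen e z ∧ alen e z < L ^ 2
    · obtain ⟨hact, hle, hlt⟩ := hact
      by_cases hn : n ≤ (z.length + 2) ^ (iN e + 2)
      · have hit : (e, z) ∈ items := (hitems (e, z)).2 ⟨⟨hact.1, hlt⟩, hact, hle, hn⟩
        exact ⟨qq (e, z), fun _ _ _ => ⟨hq1 _ hit, hBN _ hit⟩⟩
      · rw [not_le] at hn
        obtain ⟨-, g, hgG, hg1, -, -⟩ := hact
        obtain ⟨hgn, q0, q1, hl0, hl1, hv0, hv1⟩ := hNT g hgG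
        have hz : ∀ ω, NL (iN e) (B.F ω) z = NL (iN e) O z := fun ω =>
          f9b_NL_ext (hBok.1 ω) z hn.le
        have hb : ∀ q : List Bool, q.length ≤ g.2.2 → (q.length + 2) ^ (g.1 + 2) ≤ n :=
          fun q hq => (Nat.pow_le_pow_left (by omega) _).trans hgn
        rcases hvz : NL (iN e) O z with _ | _
        · refine ⟨q0, fun _ _ _ => ⟨?_, fun ω => ?_⟩⟩
          · rw [hg1]
            exact (hb q0 hl0).trans hnL
          · rw [hz ω, hvz, hg1, f9b_NL_ext (hBok.1 ω) q0 (hb q0 hl0), hv0]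
        · refine ⟨q1, fun _ _ _ => ⟨?_, fun ω => ?_⟩⟩
          · rw [hg1]
            exact (hb q1 hl1).trans hnL
          · rw [hz ω, hvz, hg1, f9b_NL_ext (hBok.1 ω) q1 (hb q1 hl1), hv1]
    · exact ⟨[], fun h1 h2 h3 => absurd ⟨h1, h2, h3⟩ hact⟩
  choose T hT using key1
  refine ⟨B, T, Sub.trans hSB hS1, ?_, ?_, hT⟩
  · intro b hb1 hb2
    have h1 := hcnt1 b hb1 hb2
    have h2 := items_count hJ hNC items hiU hb1
    refine f9b_count hL16 h1 h2 ?_
    have h3 : (B1.R.filter fun r => r.length = b) ⊆ (B.R.filter fun r => r.length = b) ∪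
        (items.filter fun it => sl it.1 it.2 = b).image slot := by
      intro r hr
      rw [Finset.mem_filter] at hr
      rw [Finset.mem_union]
      by_cases hri : r ∈ items.image slot
      · right
        obtain ⟨it, hit, rfl⟩ := Finset.mem_image.1 hri
        refine Finset.mem_image.2 ⟨it, Finset.mem_filter.2 ⟨hit, ?_⟩, rfl⟩
        rw [← hr.2]
        exact (hGd2 it hit _ (hslot it hit)).2.1.symm
      · left
        rw [Finset.mem_filter, hBR, Finset.mem_sdiff]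
        exact ⟨⟨hr.1, hri⟩, hr.2⟩
    calc (B1.R.filter fun r => r.length = b).card
        ≤ ((B.R.filter fun r => r.length = b) ∪
          (items.filter fun it => sl it.1 it.2 = b).image slot).card := Finset.card_le_card h3
      _ ≤ _ := (Finset.card_union_le _ _).trans
          (Nat.add_le_add_left Finset.card_image_le _)
  · intro r hr κ hκ
    have hr1 : r ∈ B1.R := hSB.1 hr
    rw [hBH]
    exact hcl1 r hr1 κ hκ

end Pool.Agent.NPC
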