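import Pool.Agent.Lib_helper64.NPC.Defs2
import Pool.Agent.Lib_helper64.NPC.Blk.F1
import Pool.Agent.Lib_helper64.NPC.Blk.F4
import Pool.Agent.Lib_helper64.NPC.Blk.F5b
import Pool.Agent.Lib_helper64.NPC.Blk.F8n
import Pool.Agent.Lib_helper64.NPC.Blk.F9a1
import Pool.Agent.Lib_helper64.NPC.Blk.F9b

/-! # Block F9c: one stage -/

set_option autoImplicit false

namespace Pool.Agent.NPC

open Pool.Agent.CK

theorem f9c_ext_mono {N N' : ℕ} (h : N ≤ N') {O O' : Lang} (hO : Ext N' O O') : Ext N O O' :=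
  fun w hw => hO w (lt_of_lt_of_le hw h)

theorem f9c_NL {N : ℕ} {O O' : Lang} (h : Ext N O O') (i : ℕ) (x : List Bool)
    (hx : (x.length + 2) ^ (i + 2) ≤ N) : NL i O' x = NL i O x := by
  apply NL_congr
  intro w hw
  exact h w (lt_of_le_of_lt (key_le w) (lt_of_lt_of_le hw hx))

theorem stage_fam {J j n L : ℕ} (hJ : 1 ≤ J) (hj : j < J) (hNC : NC J n L)
    {G : Finset (ℕ × ℕ × ℕ)} {M : Finset (ℕ × ℕ)} (hM : M.card + 1 ≤ L)
    (hGM : ∀ g ∈ G, (g.1, g.2.1) ∈ M) {O : Lang}
    (hNT : NT G n O) (hU : Unk G M n O) (A : Fam L) (hA : FamOK G n O A)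
    (hB : FamBig n (hx J j) A) :
    ∃ B : Fam (L ^ 2), FamOK G n O B ∧ FamBig n (hx J (j + 1)) B := by
  obtain ⟨B, T, hSub, hcard, hcl, hT⟩ := stage_bind hJ hj hNC hM hGM hNT hU A hA hB
  have hL16 : 16 ≤ L := hNC.1
  have hnL : n ≤ L := hNC.2.1
  have hLL : L ≤ L ^ 2 := by nlinarith
  obtain ⟨B', hExt, hTab, hR', hH1, hH2⟩ := tab_new hLL B T
  have hBOK : FamOK G n O B := Sub.famOK hSub hA
  refine ⟨B', ⟨?_, ?_⟩, ?_, ?_, ?_⟩
  · intro ω
    exact fun w hw => ((f9c_ext_mono hnL (hExt ω)) w hw).trans ((hBOK.1 ω) w hw)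
  · intro ω e he z hz
    by_cases hlt : alen e z < L
    · exact Good_congr he.1 (hExt ω) hlt (hBOK.2 ω e he z hlt)
    · have hge : L ≤ alen e z := not_lt.1 hlt
      obtain ⟨h1, h2⟩ := hT e z he hge hz
      refine ⟨T e z, h1.trans hge, fun b c => hTab e z b c hge hz ω, ?_⟩
      rw [f9c_NL (hExt ω) (iC e) (T e z) h1,
        f9c_NL (hExt ω) (iN e) z (item_range he.1 hz).2.1.le]
      exact h2 ω
  · intro b hb1 hb2
    by_cases hlt : 2 * b + 2 < L
    · have h1 := hcard b hb1 hlt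
      have h2 : (B.R.filter fun r => r.length = b).card ≤
          (B'.R.filter fun r => r.length = b).card := by
        apply Finset.card_le_card
        intro r hr
        rw [Finset.mem_filter] at hr ⊢
        exact ⟨(hR' r).2 (Or.inl hr.1), hr.2⟩
      calc 2 ^ b ≤ L ^ 40 * (B.R.filter fun r => r.length = b).card := h1
        _ ≤ L ^ 40 * (B'.R.filter fun r => r.length = b).card := Nat.mul_le_mul_left _ h2
        _ = (L ^ 2) ^ 20 * (B'.R.filter fun r => r.length = b).card := by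
            rw [← pow_mul]
    · have hge : L ≤ 2 * b + 2 := not_lt.1 hlt
      have h2 : (labs b).card ≤ (B'.R.filter fun r => r.length = b).card := by
        apply Finset.card_le_card
        intro r hr
        have hrb : r.length = b := mem_labs.1 hr
        rw [Finset.mem_filter]
        refine ⟨(hR' r).2 (Or.inr ?_), hrb⟩
        rw [hrb]
        exact ⟨hge, hb2⟩
      rw [card_labs] at h2
      have h3 : 1 ≤ (L ^ 2) ^ 20 := Nat.one_le_pow _ _ (by positivity)
      calc 2 ^ b ≤ 1 * (B'.R.filter fun r => r.length = b).card := by rw [one_mul]; exact h2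
        _ ≤ (L ^ 2) ^ 20 * (B'.R.filter fun r => r.length = b).card :=
            Nat.mul_le_mul_right _ h3
  · intro r hr
    rcases (hR' r).1 hr with h | h
    · exact hB.2.1 r (hSub.1 h)
    · exact hnL.trans h.1
  · intro r hr κ hκ
    rcases (hR' r).1 hr with h | h
    · rw [hH1 r h]
      exact hcl r h κ hκ
    · rw [hH2 r h.1 h.2, card_cl_labs _ _ hκ]
      exact Nat.pow_le_pow_right (by norm_num) (hx_le (by omega) _).2

end Pool.Agent.NPC
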