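import Pool.Agent.Lib_helper64.NPC.Defs2
import Pool.Agent.Lib_helper64.NPC.Blk.F10a
import Pool.Agent.Lib_helper64.NPC.Blk.F9c

/-!
# Block F10b: the epoch
-/

set_option autoImplicit false

namespace Pool.Agent.NPC

open Pool.Agent.CK

theorem f10b_nt {G : Finset (ℕ × ℕ × ℕ)} {N n : ℕ} {O : Lang} (h : NT G N O) (hn : N ≤ n) :
    NT G n O := by
  intro g hg
  obtain ⟨h1, h2⟩ := h g hg
  exact ⟨h1.trans hn, h2⟩

theorem f10b_unk {G : Finset (ℕ × ℕ × ℕ)} {M : Finset (ℕ × ℕ)} {N n : ℕ} {O : Lang}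
    (h : Unk G M N O) (hn : N ≤ n) : Unk G M n O := by
  intro O' hO' hL
  exact h O' (fun w hw => hO' w (lt_of_lt_of_le hw hn)) hL

theorem f10b_start {G : Finset (ℕ × ℕ × ℕ)} {O : Lang} (hL : Legal G O) (h : ℕ → ℕ) (n L : ℕ)
    (hnL : L ≤ n) : ∃ A : Fam L, FamOK G n O A ∧ FamBig n h A := by
  refine ⟨⟨∅, fun _ => ∅, fun _ => O, ?_, ?_, ?_, ?_⟩, ?_, ?_⟩
  · intro r hr
    simp at hr
  · intro r l hl
    simp at hl
  · intro r hr
    simp at hr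
  · intro ω w _
    refine ⟨∅, ?_, ?_, ?_⟩
    · intro p hp
      simp at hp
    · simp [tw]
    · intro ω' _
      rfl
  · refine ⟨fun ω w _ => rfl, fun ω e he z _ => hL e he z⟩
  · refine ⟨?_, ?_, ?_⟩
    · intro b hb1 hb2
      omega
    · intro r hr
      simp at hr
    · intro r hr
      simp at hr

theorem epoch {G : Finset (ℕ × ℕ × ℕ)} {M : Finset (ℕ × ℕ)} (hGM : ∀ g ∈ G, (g.1, g.2.1) ∈ M)
    {N : ℕ} {O : Lang} (hNT : NT G N O) (hL : Legal G O) (hU : Unk G M N O) (J k : ℕ)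
    (hJ : 1 ≤ J) :
    ∃ n0, ∀ n ≥ n0, k ≤ n ∧ N ≤ n ∧ ∀ j ≤ J, NC J n (n ^ (2 ^ j)) ∧
      ∃ A : Fam (n ^ (2 ^ j)), FamOK G n O A ∧ FamBig n (hx J j) A := by
  obtain ⟨n1, hn1⟩ := nc_ev J hJ
  refine ⟨n1 + k + N + M.card + 1, ?_⟩
  intro n hn
  refine ⟨by omega, by omega, ?_⟩
  have hNT' := f10b_nt hNT (show N ≤ n by omega)
  have hU' := f10b_unk hU (show N ≤ n by omega)
  have hNC := hn1 n (by omega)
  intro j
  induction j with
  | zero =>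
    intro hj
    refine ⟨hNC 0 hj, ?_⟩
    have e : n ^ 2 ^ 0 = n := by simp
    exact f10b_start hL _ n _ e.le
  | succ j ih =>
    intro hj
    refine ⟨hNC (j + 1) hj, ?_⟩
    obtain ⟨hNCj, A, hA1, hA2⟩ := ih (by omega)
    have hM : M.card + 1 ≤ n ^ (2 ^ j) := by
      have h1 : n ≤ n ^ (2 ^ j) := Nat.le_self_pow (by positivity) n
      omega
    have h := stage_fam hJ (by omega) hNCj hM hGM hNT' hU' A hA1 hA2
    have e : (n ^ 2 ^ j) ^ 2 = n ^ 2 ^ (j + 1) := by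
      rw [← pow_mul, pow_succ]
    rw [e] at h
    exact h

end Pool.Agent.NPC
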