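import Pool.Agent.Lib_helper64.NPC.Defs2
import Pool.Agent.Lib_helper64.NPC.Blk.F1
import Pool.Agent.Lib_helper64.NPC.Blk.F10b
import Pool.Agent.Lib_helper64.NPC.Blk.F2
import Pool.Agent.Lib_helper64.NPC.Blk.F5b
import Pool.Agent.Lib_helper64.NPC.Blk.F8n

/-! # Block F11a: diagonalization against the `i`-th language in `NP` (MP_675993_lc) -/

set_option autoImplicit false

namespace Pool.Agent.NPC

open Pool.Agent.CK

theorem F11a_NT_mono {G : Finset (ℕ × ℕ × ℕ)} {N n : ℕ} (h : N ≤ n) {O : Lang}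
    (hNT : NT G N O) : NT G n O := fun g hg => by
  obtain ⟨h1, h2⟩ := hNT g hg
  exact ⟨h1.trans h, h2⟩

/-- number of literals of a certificate -/
theorem F11a_card_le (T : Finset Lit) : T.card ≤ tw T := by
  unfold tw
  rw [Finset.card_eq_sum_ones]
  exact Finset.sum_le_sum fun p _ => by unfold lw; omega

/-- a state with the wrong value -/
theorem F11a_state {L : ℕ} (A : Fam L) (i : ℕ) (x : List Bool) (hx : x ∈ A.R)
    (hL : (x.length + 2) ^ (i + 2) ≤ L)
    (hcard : (x.length + 2) ^ (2 * i + 2) < (A.H x).card) :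
    ∃ ω : St, NL i (A.F ω) x ≠ !(V (A.F ω) x) := by
  classical
  set ω0 : St := fun _ => false with hω0
  have hV0 : V (A.F ω0) x = false := by
    rw [← Bool.not_eq_true]
    rw [V_free A hx]
    rintro ⟨l, _, hl⟩
    simp [hω0] at hl
  cases hN : NL i (A.F ω0) x with
  | false => exact ⟨ω0, by rw [hN, hV0]; decide⟩
  | true =>
    obtain ⟨T, _, _, hT3, hT4⟩ := cert_NL A i x hL ω0 hN
    have hTc : (T.image Prod.snd).card < (A.H x).card :=
      lt_of_le_of_lt (Finset.card_image_le.trans ((F11a_card_le T).trans hT3)) hcard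
    obtain ⟨l, hl, hl'⟩ := Finset.exists_mem_notMem_of_card_lt_card hTc
    refine ⟨fun p => decide (p = (x, l)), ?_⟩
    have h1 : NL i (A.F fun p => decide (p = (x, l))) x = true := by
      apply hT4
      intro p hp
      simp only [hω0, decide_eq_false_iff_not]
      rintro rfl
      exact hl' (Finset.mem_image.2 ⟨_, hp, rfl⟩)
    have h2 : V (A.F fun p => decide (p = (x, l))) x = true := by
      rw [V_free A hx]
      exact ⟨l, hl, by simp⟩
    rw [h1, h2]
    decide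

theorem F11a_core (i : ℕ) (s : CS) {n J L : ℕ} (hk : 16 ≤ n) (hN : s.N ≤ n) (hJ : 1 ≤ J)
    (hNC : NC J n L) (A : Fam L) (hA : FamOK s.G n s.O A) (hB : FamBig n (hx J J) A)
    (hLi : (n + 2) ^ (i + 2) ≤ L) (h2nL : 2 * n + 2 < L) :
    ∃ (N' : ℕ) (O' : Lang), s.N < N' ∧ Ext s.N s.O O' ∧ Legal s.G O' ∧
      ∀ O'', Ext N' O' O'' → ∃ x, NL i O'' x ≠ !(V O'' x) := by
  classical
  have hnL : n ≤ L := by omega
  obtain ⟨hB1, hB2, hB3⟩ := hB
  -- a free slot of size `n`
  have hex : ∃ x ∈ A.R, x.length = n := by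
    by_contra hcon
    push Not at hcon
    have h1 := hB1 n (by omega) h2nL
    have h2 : (A.R.filter fun r => r.length = n) = ∅ :=
      Finset.filter_eq_empty_iff.2 fun r hr => hcon r hr
    rw [h2, Finset.card_empty, mul_zero] at h1
    have h3 : 0 < 2 ^ n := Nat.two_pow_pos n
    omega
  obtain ⟨x, hxR, hxn⟩ := hex
  -- the hidden labels
  have hcard : (x.length + 2) ^ (2 * i + 2) < (A.H x).card := by
    have h1 : 2 ^ hx J J x.length ≤ (A.H x).card := by
      have := hB3 x hxR (List.replicate (x.length / 4) false) (by simp)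
      exact this.trans (Finset.card_le_card (Finset.filter_subset _ _))
    have h2 : x.length / 2 ≤ hx J J x.length := (hx_le le_rfl _).1
    have h3 : 2 ^ (n / 2) ≤ (A.H x).card := by
      rw [← hxn]
      exact (Nat.pow_le_pow_right (by omega) h2).trans h1
    have h4 : L ^ 100 ≤ 2 ^ (n / (4 * J)) := hNC.2.2 n (by omega)
    have h5 : 2 ^ (n / (4 * J)) ≤ 2 ^ (n / 2) := by
      apply Nat.pow_le_pow_right (by omega)
      apply Nat.div_le_div_left _ (by omega)
      omega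
    have h6 : (n + 2) ^ (2 * i + 2) ≤ L ^ 2 := by
      calc (n + 2) ^ (2 * i + 2) ≤ (n + 2) ^ ((i + 2) * 2) :=
            Nat.pow_le_pow_right (by omega) (by omega)
        _ = ((n + 2) ^ (i + 2)) ^ 2 := by rw [pow_mul]
        _ ≤ L ^ 2 := Nat.pow_le_pow_left hLi 2
    have h7 : L ^ 2 < L ^ 100 := Nat.pow_lt_pow_right (by have := hNC.1; omega) (by omega)
    rw [hxn]
    omega
  obtain ⟨ω, hω⟩ := F11a_state A i x hxR (by rw [hxn]; exact hLi) hcard
  obtain ⟨O', hO', hleg⟩ := legal_ext hnL (F11a_NT_mono hN s.nt) (hA.1 ω) (hA.2 ω)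
  refine ⟨L, O', by omega, ?_, hleg, fun O'' hO'' => ⟨x, ?_⟩⟩
  · intro w hw
    rw [hO' w (by omega)]
    exact hA.1 ω w (by omega)
  · have hE : ∀ w : List Bool, key w < L → O'' w = A.F ω w := fun w hw =>
      (hO'' w hw).trans (hO' w hw)
    have h1 : NL i O'' x = NL i (A.F ω) x := by
      apply NL_congr
      intro w hw
      apply hE
      refine lt_of_le_of_lt (key_le w) ?_
      rw [hxn] at hw
      omega
    have h2 : V O'' x = V (A.F ω) x := by
      apply V_congr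
      intro w hw
      apply hE
      refine lt_of_le_of_lt (key_le w) ?_
      rw [hxn] at hw
      omega
    rw [h1, h2]
    exact hω

theorem forces_NP (i : ℕ) : Forces (fun O => ∃ x, NL i O x ≠ !(V O x)) := by
  intro s
  obtain ⟨n, hn0⟩ := epoch (G := s.G) (M := s.G.image fun g => (g.1, g.2.1))
    (fun g hg => Finset.mem_image.2 ⟨g, hg, rfl⟩) s.nt s.leg s.unk (i + 3) 16 (by omega)
  obtain ⟨hk, hN, hn⟩ := hn0 n le_rfl
  obtain ⟨hNC, A, hA, hB⟩ := hn (i + 3) le_rfl
  have hJ2 : 2 * (i + 2) ≤ 2 ^ (i + 3) := by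
    have h1 : i + 2 < 2 ^ (i + 2) := Nat.lt_two_pow_self
    rw [show i + 3 = (i + 2) + 1 by omega, pow_succ]
    omega
  have hn2 : n + 2 ≤ n ^ 2 := by nlinarith
  have hLi : (n + 2) ^ (i + 2) ≤ n ^ 2 ^ (i + 3) := by
    calc (n + 2) ^ (i + 2) ≤ (n ^ 2) ^ (i + 2) := Nat.pow_le_pow_left hn2 _
      _ = n ^ (2 * (i + 2)) := by rw [← pow_mul]
      _ ≤ n ^ (2 ^ (i + 3)) := Nat.pow_le_pow_right (by omega) hJ2
  have h2nL : 2 * n + 2 < n ^ 2 ^ (i + 3) := by
    have h1 : n ^ 4 ≤ n ^ 2 ^ (i + 3) := Nat.pow_le_pow_right (by omega) (by omega)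
    have h2 : n ^ 4 = n ^ 2 * n ^ 2 := by ring
    have h3 : n ^ 2 = n * n := by ring
    have h4 : 16 * n ≤ n ^ 2 := by rw [h3]; exact Nat.mul_le_mul_right _ hk
    have h5 : n ^ 2 * 1 ≤ n ^ 2 * n ^ 2 := Nat.mul_le_mul_left _ (by omega)
    omega
  exact F11a_core i s hk hN (by omega) hNC A hA hB hLi h2nL

end Pool.Agent.NPC
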