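import Pool.Agent.Lib_helper64.NPC.Defs2
import Pool.Agent.Lib_helper64.NPC.Blk.F1
import Pool.Agent.Lib_helper64.NPC.Blk.F10b
import Pool.Agent.Lib_helper64.NPC.Blk.F5a
import Pool.Agent.Lib_helper64.NPC.Blk.F5b
import Pool.Agent.Lib_helper64.NPC.Blk.F8

/-! # F11c: a Turing reduction that cannot fail becomes active (add_step) -/

set_option autoImplicit false

namespace Pool.Agent.NPC

open Pool.Agent.CK

/-- the values of `NL` only depend on the positions with small keys -/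
theorem F11c_NL {i N : ℕ} {O O' : Lang} (h : Ext N O O') {q : List Bool}
    (hq : (q.length + 2) ^ (i + 2) ≤ N) : NL i O' q = NL i O q :=
  NL_congr i O' O q fun w hw => h w ((key_le w).trans_lt (hw.trans_le hq))

theorem F11c_NT_mono {G : Finset (ℕ × ℕ × ℕ)} {N n : ℕ} {O : Lang} (hNT : NT G N O)
    (h : N ≤ n) : NT G n O := fun g hg => ⟨(hNT g hg).1.trans h, (hNT g hg).2⟩

theorem F11c_Unk_mono {G : Finset (ℕ × ℕ × ℕ)} {M : Finset (ℕ × ℕ)} {N n : ℕ} {O : Lang}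
    (hU : Unk G M N O) (h : N ≤ n) : Unk G M n O :=
  fun O' h1 h2 m hm => hU O' (fun w hw => h1 w (hw.trans_le h)) h2 m hm

/-- transfer of the nontriviality -/
theorem F11c_NT_congr {G : Finset (ℕ × ℕ × ℕ)} {N : ℕ} {O O' : Lang} (hNT : NT G N O)
    (h : Ext N O O') : NT G N O' := by
  intro g hg
  obtain ⟨h1, q0, q1, h2, h3, h4, h5⟩ := hNT g hg
  have e : ∀ q : List Bool, q.length ≤ g.2.2 → NL g.1 O' q = NL g.1 O q := fun q hq =>
    F11c_NL h ((Nat.pow_le_pow_left (by omega) _).trans h1)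
  exact ⟨h1, q0, q1, h2, h3, by rw [e q0 h2]; exact h4, by rw [e q1 h3]; exact h5⟩

theorem F11c_num1 (n K : ℕ) (hn : 2 ≤ n) : (n + 2) ^ K ≤ n ^ (2 ^ (2 * K)) := by
  have h1 : n + 2 ≤ n ^ 2 := by nlinarith
  calc (n + 2) ^ K ≤ (n ^ 2) ^ K := Nat.pow_le_pow_left h1 K
    _ = n ^ (2 * K) := by rw [← pow_mul]
    _ ≤ n ^ (2 ^ (2 * K)) := Nat.pow_le_pow_right (by omega) Nat.lt_two_pow_self.le

theorem F11c_num2 {L n J : ℕ} (hL : 16 ≤ L) (h : L ^ 100 ≤ 2 ^ (n / (4 * J))) :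
    8 * L ^ 28 < 2 ^ n := by
  have h1 : 8 * L ^ 28 < L * L ^ 28 := by
    have : 0 < L ^ 28 := by positivity
    nlinarith
  have h2 : L * L ^ 28 = L ^ 29 := by ring
  have h3 : L ^ 29 ≤ L ^ 100 := Nat.pow_le_pow_right (by omega) (by norm_num)
  have h4 : 2 ^ (n / (4 * J)) ≤ 2 ^ n := Nat.pow_le_pow_right (by norm_num) (Nat.div_le_self _ _)
  omega

/-- a Turing reduction that cannot fail becomes active -/
theorem add_step {G : Finset (ℕ × ℕ × ℕ)} {N i j : ℕ} {O : Lang} (hNT : NT G N O)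
    (hL : Legal G O) (hU : Unk G (insert (i, j) (G.image fun g => (g.1, g.2.1))) N O) :
    ∃ (N' a : ℕ) (O' : Lang), N < N' ∧ Ext N O O' ∧ Legal (insert (i, j, a) G) O' ∧
      NT (insert (i, j, a) G) N' O' := by
  classical
  set M : Finset (ℕ × ℕ) := insert (i, j) (G.image fun g => (g.1, g.2.1)) with hM
  have hGM : ∀ g ∈ G, (g.1, g.2.1) ∈ M := fun g hg =>
    Finset.mem_insert_of_mem (Finset.mem_image.2 ⟨g, hg, rfl⟩)
  have hijM : (i, j) ∈ M := Finset.mem_insert_self _ _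
  set K := (j + 2) * (i + 2) with hK
  obtain ⟨n0, hn0⟩ := epoch hGM hNT hL hU (2 * K + 1) (M.card + 2) (by omega)
  obtain ⟨h1, h2, h3⟩ := hn0 n0 le_rfl
  set n := n0 with hn
  have h3' := h3 (2 * K) (by omega)
  obtain ⟨L, hLdef⟩ : ∃ L, L = n ^ (2 ^ (2 * K)) := ⟨_, rfl⟩
  rw [← hLdef] at h3'
  obtain ⟨hNC, A, hA, hB⟩ := h3'
  have hnL : n ≤ L := by rw [hLdef]; exact Nat.le_self_pow (by positivity) n
  have hKL : (n + 2) ^ K ≤ L := by rw [hLdef]; exact F11c_num1 n K (by omega)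
  obtain ⟨B, hBA, -, -, hgd⟩ := restr_good (J := 2 * K + 1) (j := 2 * K) (n := n) (L := L)
    (by omega) (by omega) hNC (M := M) (by omega) (F11c_NT_mono hNT h2) (F11c_Unk_mono hU h2)
    A hA hB
  obtain ⟨Gd, hGd, hr⟩ := hgd (i, j) hijM n (by omega) hKL
  have hcard : 1 < Gd.card := by
    by_contra hc
    have h4 := F11c_num2 hNC.1 (hNC.2.2 n (by omega))
    have h5 : 8 * L ^ 28 * Gd.card ≤ 8 * L ^ 28 * 1 := Nat.mul_le_mul_left _ (by omega)
    omega
  obtain ⟨r0, hr0, r1, hr1, hne⟩ := Finset.one_lt_card.1 hcard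
  obtain ⟨hr0R, -, q0, S0, hq0, -, hg0⟩ := hr r0 hr0
  obtain ⟨hr1R, -, q1, S1, hq1, hS1, hg1⟩ := hr r1 hr1
  simp only at hq0 hq1 hg0 hg1
  obtain ⟨l1, hl1⟩ : S1.Nonempty := by
    rw [Finset.nonempty_iff_ne_empty]
    rintro rfl
    simp at hS1
  set ω : St := fun p => decide (p = (r1, l1)) with hω
  have hy : NL i (B.F ω) q1 = true := by
    refine (hg1.2 ω fun l _ hl => ?_).2 ⟨l1, hl1, by simp [hω]⟩
    have h4 : (r1, l) = (r1, l1) := of_decide_eq_true hl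
    have h5 : l = l1 := (Prod.ext_iff.1 h4).2
    rw [h5]
    exact hl1
  have hz0 : ∀ l, ω (r0, l) = false := by
    intro l
    refine decide_eq_false fun h4 => hne (Prod.ext_iff.1 h4).1
  have hn' : NL i (B.F ω) q0 = false := by
    rw [Bool.eq_false_iff]
    intro h4
    obtain ⟨l, -, hl⟩ := (hg0.2 ω fun l _ hl => absurd hl (by rw [hz0 l]; simp)).1 h4
    rw [hz0 l] at hl
    simp at hl
  obtain ⟨hBext, hBleg⟩ := hBA.famOK hA
  obtain ⟨O', hO', hgood⟩ := full_ext L (B.F ω)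
  have hOO' : Ext n O O' := (hBext ω).trans hO' hnL
  have hNT' : NT G N O' := F11c_NT_congr hNT fun w hw => hOO' w (hw.trans_le h2)
  have hq0L : (q0.length + 2) ^ (i + 2) ≤ L := hq0.trans hKL
  have hq1L : (q1.length + 2) ^ (i + 2) ≤ L := hq1.trans hKL
  have hlen : ∀ q : List Bool, (q.length + 2) ^ (i + 2) ≤ L → q.length ≤ L := fun q hq =>
    ((Nat.le_add_right _ 2).trans (Nat.le_self_pow (by omega) _)).trans hq
  have hy' : NL i O' q1 = true := by rw [F11c_NL hO' hq1L]; exact hy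
  have hn'' : NL i O' q0 = false := by rw [F11c_NL hO' hq0L]; exact hn'
  refine ⟨(L + 2) ^ (i + 2), L, O', ?_, ?_, ?_, ?_⟩
  · have h4 : L + 2 ≤ (L + 2) ^ (i + 2) := Nat.le_self_pow (by omega) _
    omega
  · exact fun w hw => hOO' w (hw.trans_le h2)
  · rintro e ⟨he, g, hg, hgi, hgj, hga⟩ z
    rcases Finset.mem_insert.1 hg with rfl | hg
    · -- a new active entry
      simp only at hgi hgj hga
      refine hgood e z he ?_ ⟨q0, q1, (hlen q0 hq0L).trans hga, (hlen q1 hq1L).trans hga, ?_, ?_⟩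
      · have h4 := ia_bound he
        have h5 := two_pow_le_alen he z
        have h6 : ia e + 2 ≤ (ia e + 2) ^ (iC e + 2) := Nat.le_self_pow (by omega) _
        omega
      · rw [hgi]; exact hn''
      · rw [hgi]; exact hy'
    · rcases lt_or_ge (alen e z) L with h4 | h4
      · exact Good_congr he hO' h4 (hBleg ω e ⟨he, g, hg, hgi, hgj, hga⟩ z h4)
      · obtain ⟨-, p0, p1, h5, h6, h7, h8⟩ := hNT' g hg
        exact hgood e z he h4 ⟨p0, p1, h5.trans hga, h6.trans hga, by rw [hgi]; exact h7,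
          by rw [hgi]; exact h8⟩
  · intro g hg
    rcases Finset.mem_insert.1 hg with rfl | hg
    · exact ⟨le_rfl, q0, q1, hlen q0 hq0L, hlen q1 hq1L, hn'', hy'⟩
    · obtain ⟨h4, h5⟩ := hNT' g hg
      refine ⟨h4.trans ?_, h5⟩
      have h6 : L + 2 ≤ (L + 2) ^ (i + 2) := Nat.le_self_pow (by omega) _
      omega

end Pool.Agent.NPC
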