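import Pool.Agent.Lib_helper64.NPC.Defs2
import Pool.Agent.Lib_helper64.NPC.Blk.F1
import Pool.Agent.Lib_helper64.NPC.Blk.F11b
import Pool.Agent.Lib_helper64.NPC.Blk.F11c

/-!
# Block F12a: one step of the outer construction
-/

set_option autoImplicit false

namespace Pool.Agent.NPC

open Pool.Agent.CK

theorem f12a_trans {N N' : ℕ} {O O' O'' : Lang} (h : Ext N O O') (h' : Ext N' O' O'')
    (hN : N ≤ N') : Ext N O O'' := fun w hw => (h' w (hw.trans_le hN)).trans (h w hw)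

theorem f12a_nt {G : Finset (ℕ × ℕ × ℕ)} {N N' : ℕ} {O O' : Lang} (h : NT G N O) (hN : N ≤ N')
    (hE : Ext N O O') : NT G N' O' := by
  intro g hg
  obtain ⟨h1, q0, q1, h2, h3, h4, h5⟩ := h g hg
  have hloc : ∀ q : List Bool, q.length ≤ g.2.2 → NL g.1 O' q = NL g.1 O q := by
    intro q hq
    apply NL_congr
    intro w hw
    apply hE
    have hk := key_le w
    have h6 : (q.length + 2) ^ (g.1 + 2) ≤ (g.2.2 + 2) ^ (g.1 + 2) :=
      Nat.pow_le_pow_left (by omega) _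
    omega
  exact ⟨h1.trans hN, q0, q1, h2, h3, (hloc q0 h2).trans h4, (hloc q1 h3).trans h5⟩

theorem f12a_act {G G' : Finset (ℕ × ℕ × ℕ)} (h : G ⊆ G') {e : ℕ} (he : Act G e) : Act G' e := by
  obtain ⟨h1, g, hg, h2⟩ := he
  exact ⟨h1, g, h hg, h2⟩

theorem f12a_legal {G G' : Finset (ℕ × ℕ × ℕ)} (h : G ⊆ G') {O : Lang} (hL : Legal G' O) :
    Legal G O := fun e he z => hL e (f12a_act h he) z

theorem cs_step (goal : Lang → Prop) (hgoal : Forces goal) (s : CS) (i j : ℕ) :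
    ∃ s' : CS, s.N < s'.N ∧ Ext s.N s.O s'.O ∧ s.G ⊆ s'.G ∧
      (∀ O'', Ext s'.N s'.O O'' → goal O'') ∧
      ((∀ O'', Ext s'.N s'.O O'' → ¬ Cor i j O'') ∨ ∃ a, (i, j, a) ∈ s'.G) := by
  obtain ⟨N', O', hN, hE, hL, hg⟩ := hgoal s
  have hNT' : NT s.G N' O' := f12a_nt s.nt hN.le hE
  have hU' : Unk s.G (s.G.image fun g => (g.1, g.2.1)) N' O' := by
    intro O'' hO'' hL''
    exact s.unk O'' (f12a_trans hE hO'' hN.le) hL''
  by_cases hc : ∃ O'', Ext N' O' O'' ∧ Legal s.G O'' ∧ ¬ Cor i j O''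
  · obtain ⟨O'', hO'', hL'', hnc⟩ := hc
    obtain ⟨N'', hN'', hkill⟩ := kill_step hnc N'
    refine ⟨⟨N'', O'', s.G, f12a_nt hNT' hN''.le hO'', hL'', ?_⟩, hN.trans hN'',
      f12a_trans hE hO'' hN.le, Finset.Subset.refl _, ?_, Or.inl hkill⟩
    · intro O3 hO3 hL3
      exact hU' O3 (f12a_trans hO'' hO3 hN''.le) hL3
    · intro O3 hO3
      exact hg O3 (f12a_trans hO'' hO3 hN''.le)
  · have hcor : ∀ O'', Ext N' O' O'' → Legal s.G O'' → Cor i j O'' := by
      intro O'' h1 h2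
      by_contra h3
      exact hc ⟨O'', h1, h2, h3⟩
    have hU2 : Unk s.G (insert (i, j) (s.G.image fun g => (g.1, g.2.1))) N' O' := by
      intro O'' h1 h2 m hm
      rw [Finset.mem_insert] at hm
      rcases hm with rfl | hm
      · exact hcor O'' h1 h2
      · exact hU' O'' h1 h2 m hm
    obtain ⟨N'', a, O'', hN'', hO'', hL'', hNT''⟩ := add_step hNT' hL hU2
    have hsub : s.G ⊆ insert (i, j, a) s.G := Finset.subset_insert _ _
    refine ⟨⟨N'', O'', insert (i, j, a) s.G, hNT'', hL'', ?_⟩, hN.trans hN'',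
      f12a_trans hE hO'' hN.le, hsub, ?_, Or.inr ⟨a, Finset.mem_insert_self _ _⟩⟩
    · intro O3 hO3 hL3 m hm
      have h1 := f12a_trans hO'' hO3 hN''.le
      have h2 := f12a_legal hsub hL3
      rw [Finset.mem_image] at hm
      obtain ⟨g, hg', rfl⟩ := hm
      rw [Finset.mem_insert] at hg'
      rcases hg' with rfl | hg'
      · exact hcor O3 h1 h2
      · exact hU' O3 h1 h2 _ (Finset.mem_image.mpr ⟨g, hg', rfl⟩)
    · intro O3 hO3
      exact hg O3 (f12a_trans hO'' hO3 hN''.le)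

end Pool.Agent.NPC
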