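import Pool.Agent.Lib_helper64.NPC.Defs2
import Pool.Agent.Lib_helper64.NPC.Blk.F12a
import Pool.Agent.Lib_helper64.NPC.Blk.F5b

/-! # Block F12b: the limit oracle (MP_675993_lc) -/

set_option autoImplicit false

namespace Pool.Agent.NPC

open Pool.Agent.CK

theorem F12b_unk_empty (N : ℕ) (O : Lang) :
    Unk (∅ : Finset (ℕ × ℕ × ℕ)) ((∅ : Finset (ℕ × ℕ × ℕ)).image fun g => (g.1, g.2.1)) N O := by
  intro O' _ _ m hm
  simp at hm

theorem limit_oracle (goal : ℕ → Lang → Prop) (hgoal : ∀ k, Forces (goal k)) :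
    ∃ O : Lang, (∀ k, goal k O) ∧ ∀ i j, Cor i j O →
      ∃ a, ∀ e, iC e = i → iM e = j → a ≤ ia e → Adeq e → ∀ z, Good O e z := by
  classical
  choose nx h1 h2 h3 h4 h5 using fun (k : ℕ) (s : CS) =>
    cs_step (goal k) (hgoal k) s k.unpair.1 k.unpair.2
  let s0 : CS :=
    { N := 0
      O := fun _ => false
      G := ∅
      nt := fun g hg => absurd hg (Finset.notMem_empty g)
      leg := fun e he => by
        obtain ⟨_, g, hg, _⟩ := he
        exact absurd hg (Finset.notMem_empty g)
      unk := F12b_unk_empty _ _ }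
  let s : ℕ → CS := fun k => Nat.rec s0 (fun k s => nx k s) k
  have hs : ∀ k, s (k + 1) = nx k (s k) := fun k => rfl
  have hlt : ∀ k, (s k).N < (s (k + 1)).N := fun k => by rw [hs]; exact h1 k (s k)
  have hmono : StrictMono fun k => (s k).N := strictMono_nat_of_lt_succ hlt
  have hge : ∀ k, k ≤ (s k).N := fun k => hmono.id_le k
  have hext : ∀ k j, Ext (s k).N (s k).O (s (k + j)).O := by
    intro k j
    induction j with
    | zero => exact Ext.refl _ _
    | succ j ih =>
      have h4 : Ext (s (k + j)).N (s (k + j)).O (s (k + j + 1)).O := by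
        rw [hs]; exact h2 _ _
      exact ih.trans h4 (hmono.monotone (by omega))
  have hG : ∀ k j, (s k).G ⊆ (s (k + j)).G := by
    intro k j
    induction j with
    | zero => exact fun _ h => h
    | succ j ih =>
      have h4 : (s (k + j)).G ⊆ (s (k + j + 1)).G := by
        rw [hs]; exact h3 _ _
      exact ih.trans h4
  let O : Lang := fun w => (s (key w + 1)).O w
  have hO : ∀ k, Ext (s k).N (s k).O O := by
    intro k w hw
    have hkw : key w < (s (key w + 1)).N := lt_of_lt_of_le (Nat.lt_succ_self _) (hge _)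
    change (s (key w + 1)).O w = (s k).O w
    rcases le_total k (key w + 1) with h | h
    · obtain ⟨j, hj⟩ := Nat.exists_eq_add_of_le h
      rw [hj]; exact hext k j w hw
    · obtain ⟨j, hj⟩ := Nat.exists_eq_add_of_le h
      rw [hj]; exact (hext (key w + 1) j w hkw).symm
  refine ⟨O, fun k => ?_, fun i j hc => ?_⟩
  · exact h4 k (s k) O (by have := hO (k + 1); rwa [hs] at this)
  · have hk := h5 (Nat.pair i j) (s (Nat.pair i j))
    rw [Nat.unpair_pair] at hk
    rcases hk with hk | ⟨a, ha⟩
    · exact absurd hc (hk O (by have := hO (Nat.pair i j + 1); rwa [hs] at this))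
    · refine ⟨a, fun e he1 he2 he3 he4 z => ?_⟩
      set k := Nat.pair i j with hkdef
      set m := k + 1 + (alen e z + 1) with hm
      have hmem : (i, j, a) ∈ (s m).G := by
        have h6 : (i, j, a) ∈ (s (k + 1)).G := by rw [hs]; exact ha
        exact hG (k + 1) (alen e z + 1) h6
      have hg : Good (s m).O e z := (s m).leg e ⟨he4, (i, j, a), hmem, he1, he2, he3⟩ z
      have hN : alen e z < (s m).N := lt_of_lt_of_le (by omega) (hge m)
      exact Good_congr he4 (hO m) hN hg

end Pool.Agent.NPC
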