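import Pool.Agent.Lib_helper64.NPC.Defs2
import Pool.Agent.Lib_helper64.NPC.Blk.F11a
import Pool.Agent.Lib_helper64.NPC.Blk.F12b
import Pool.Agent.Lib_helper64.NPC.Blk.F12c

/-! # Block F12d: the main theorem -/

set_option autoImplicit false

namespace Pool.Agent.NPC

open Pool.Agent.CK

theorem main_NPcoNP : ∃ O V : Lang, InNP O V ∧ ¬ InNP O (fun x => !V x) ∧
    ManyOneComplete O V ∧
    (∀ C, InNP O C → TuringReducible O V C → ManyOneComplete O C) ∧
    ∀ C, TuringComplete O C → ManyOneComplete O C := by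
  obtain ⟨O, hg, ht⟩ := limit_oracle (fun i O => ∃ x, NL i O x ≠ !(V O x)) forces_NP
  obtain ⟨h1, h2, h3⟩ := collapse ht
  refine ⟨O, V O, inNP_V O, fun h => ?_, h1, h2, h3⟩
  obtain ⟨i, hi⟩ := exists_NL h
  obtain ⟨x, hx⟩ := hg i
  exact hx (congrFun hi x)

end Pool.Agent.NPC
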